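import Pool.Agent.H89.DR.Defs

/-!
# Module Alg (about 80 lines): vector algebra in three-space

All statements are polynomial identities, or follow from them. Unfold `dot`, `det`, `crs`, `crq`
and use `ring`, `nlinarith` or `linear_combination`.

* `frame`: for unit `w`, `p` with `w ⊥ p` and `q, r ⊥ w`: `q = (p.q) p + [w,p,q] (w x p)`. One way:
  the identity `dot q r * (dot w w * dot p p - dot w p ^ 2) = ...` (Gram determinant of `(w, p, q)`
  against `(w, p, r)` is `det w p q * det w p r`):
  `det w p q * det w p r = det of the matrix of the inner products (w,p,q) x (w,p,r)`.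
* `near_comp`: write `v = (v.w) w + v'`, `v' ⊥ w`, `w ⊥ p, q`; `|v'|^2 crq p q = x^2 - 2 (p.q) x y
  + y^2` with `x = v.p`, `y = v.q` (Gram), and `|v'|^2 = 1 - (v.w)^2`.
-/

set_option autoImplicit false

namespace Pool.Agent.H89.DR

open Finset

theorem dot_comm (a b : V) : dot a b = dot b a := by
  simp only [dot]; ring

theorem crq_eq (a b : V) : crq a b = dot a a * dot b b - dot a b ^ 2 := by
  simp only [crq, dot]; ring

theorem crq_comm (a b : V) : crq a b = crq b a := by
  simp only [crq]; ring

theorem det_eq (a b c : V) : det a b c = dot a (crs b c) := by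
  simp [det, dot, crs]

theorem det_cyc (a b c : V) : det a b c = det b c a := by
  simp only [det]; ring

theorem det_swap (a b c : V) : det a b c = - det b a c := by
  simp only [det]; ring

theorem det_swap' (a b c : V) : det a b c = - det a c b := by
  simp only [det]; ring

theorem det_self (a b : V) : det a a b = 0 ∧ det a b a = 0 ∧ det b a a = 0 := by
  refine ⟨?_, ?_, ?_⟩ <;> simp only [det] <;> ring

/-- four vectors of three-space are dependent -/
theorem det_four (a b c d x : V) :
    det b c d * dot a x - det a c d * dot b x + det a b d * dot c x - det a b c * dot d x = 0 := by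
  simp only [det, dot]; ring

/-- Cauchy-Schwarz -/
theorem dot_sq_le (a b : V) : dot a b ^ 2 ≤ dot a a * dot b b := by
  have h := crq_eq a b
  have h2 : 0 ≤ crq a b := by unfold crq; positivity
  linarith

theorem det_sq_le (a b c : V) : det a b c ^ 2 ≤ dot a a * crq b c := by
  have h : dot (crs b c) (crs b c) = crq b c := by
    simp [dot, crs, crq]; ring
  rw [det_eq, ← h]
  exact dot_sq_le _ _

theorem dot_self_nonneg (a : V) : 0 ≤ dot a a := by
  simp only [dot]
  nlinarith [mul_self_nonneg (a 0), mul_self_nonneg (a 1), mul_self_nonneg (a 2)]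

/-- two-dimensional frame -/
theorem frame (w p q r : V) (hw : dot w w = 1) (hp : dot p p = 1) (hwp : dot w p = 0)
    (hwq : dot w q = 0) (hwr : dot w r = 0) :
    dot q r = dot p q * dot p r + det w p q * det w p r := by
  have key : det w p q * det w p r =
      dot w w * (dot p p * dot q r - dot p r * dot p q) -
      dot w p * (dot w p * dot q r - dot p r * dot w q) +
      dot w r * (dot w p * dot p q - dot p p * dot w q) := by
    simp only [det, dot]; ring
  rw [key, hw, hp, hwp, hwr]
  ring

theorem crq_plane (w p q : V) (hw : dot w w = 1) (hwp : dot w p = 0) (hwq : dot w q = 0) :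
    crq p q = det w p q ^ 2 := by
  have key : dot w w * crq p q - det w p q ^ 2 =
      dot w q ^ 2 * dot p p - 2 * dot p q * dot w p * dot w q + dot w p ^ 2 * dot q q := by
    simp only [det, dot, crq]; ring
  rw [hw, hwp, hwq] at key
  linarith

/-- three vectors of a plane with a normal vector are dependent -/
theorem det_plane (w p q r : V) (hw : dot w w = 1) (hwp : dot w p = 0) (hwq : dot w q = 0)
    (hwr : dot w r = 0) : det p q r = 0 := by
  have key : dot w w * det p q r =
      dot w p * det w q r + dot w q * det w r p + dot w r * det w p q := by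
    simp only [det, dot]; ring
  rw [hw, hwp, hwq, hwr] at key
  linarith

/-- the unit normal of the plane of two independent vectors -/
theorem exists_normal_pair (p q : V) (h : 0 < crq p q) :
    ∃ w : V, dot w w = 1 ∧ dot w p = 0 ∧ dot w q = 0 ∧ ∀ t : V, det p q t = 0 ↔ dot w t = 0 := by
  set c := Real.sqrt (crq p q) with hc
  have hc0 : 0 < c := Real.sqrt_pos.2 h
  have hc2 : c ^ 2 = crq p q := Real.sq_sqrt h.le
  have hcne : c ≠ 0 := hc0.ne'
  refine ⟨fun j => crs p q j / c, ?_, ?_, ?_, ?_⟩
  · have h1 : dot (fun j => crs p q j / c) (fun j => crs p q j / c) = crq p q / c ^ 2 := by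
      simp only [dot, crs, crq, Matrix.cons_val_zero, Matrix.cons_val_one, Matrix.cons_val]
      field_simp
    rw [h1, hc2]
    exact div_self h.ne'
  · simp only [dot, crs, Matrix.cons_val_zero, Matrix.cons_val_one, Matrix.cons_val]
    field_simp
    ring
  · simp only [dot, crs, Matrix.cons_val_zero, Matrix.cons_val_one, Matrix.cons_val]
    field_simp
    ring
  · intro t
    have h1 : det p q t = c * dot (fun j => crs p q j / c) t := by
      simp only [det, dot, crs, Matrix.cons_val_zero, Matrix.cons_val_one, Matrix.cons_val]
      field_simp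
      ring
    rw [h1]
    constructor
    · intro h2
      rcases mul_eq_zero.1 h2 with h3 | h3
      · exact absurd h3 hcne
      · exact h3
    · intro h2; rw [h2, mul_zero]

/-- a vector with small inner products with two unit vectors `p`, `q` is nearly orthogonal to their
plane -/
theorem near_comp (v w p q : V) (hv : dot v v = 1) (hw : dot w w = 1) (hp : dot p p = 1)
    (hq : dot q q = 1) (hwp : dot w p = 0) (hwq : dot w q = 0) :
    (1 - dot v w ^ 2) * crq p q = dot v p ^ 2 - 2 * dot p q * dot v p * dot v q + dot v q ^ 2 := by
  have h1 := crq_plane w p q hw hwp hwq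
  have h2 : det v p q = dot v w * det w p q := by
    have key : dot w w * det v p q = dot v w * det w p q + dot w q * det v p w -
        dot w p * det v q w := by
      simp only [det, dot]; ring
    rw [hw, hwp, hwq] at key
    linarith
  have h3 : det v p q ^ 2 = dot v v * (dot p p * dot q q - dot p q ^ 2) -
      dot v p * (dot v p * dot q q - dot p q * dot v q) +
      dot v q * (dot v p * dot p q - dot p p * dot v q) := by
    simp only [det, dot]; ring
  have h4 := crq_eq p q
  rw [hp, hq] at h4
  rw [hv, hp, hq] at h3
  have h5 : (1 - dot v w ^ 2) * crq p q = crq p q - det v p q ^ 2 := by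
    rw [h2, mul_pow, ← h1]; ring
  rw [h5, h3, h4]
  ring

end Pool.Agent.H89.DR
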