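import Pool.Agent.H89.DR.HalfC

/-!
# Module LemD (about 90 lines): Lemma D, halving

Proof. Markov: `∑ c ∈ C1, dis P c C2 C3 = ∑ l, #(l ∩ C1) |..| ≤ κ^2 #C1` (`sum_swap` with an
indicator), so at most `κ #C1` points of `C1` have `dis > κ`; the same for `C2`, `C3`. For every good
`c ∈ C1` there is a line `l_c` through `c` with at least `(1 - 9 κ) #C2` points of `C2`
(`half_point`); two of these lines share at least `(1 - 18 κ) #C2 ≥ #C2 / 2 ≥ 2` points, so they are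
equal (`inter_le_one`). So one line `l` contains all good points of `C1`, at least `(1 - κ) #C1`
(there is at least one, as `κ < 1`), and `|#(l ∩ C2)/#C2 - #(l ∩ C3)/#C3| ≤ dis P c C2 C3 ≤ κ` for a
good `c`.
-/

set_option autoImplicit false

namespace Pool.Agent.H89.DR

open Finset Classical

private theorem LemD_swap {P A : Finset V} (hA : A ⊆ P) (F : Finset V → ℝ) :
    ∑ c ∈ A, ∑ l ∈ thru P c, F l = ∑ l ∈ lines P, ((l ∩ A).card : ℝ) * F l := by
  have h := sum_swap P (fun l p => if p ∈ A then F l else 0)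
  have e1 : ∀ l ∈ lines P, ∑ p ∈ l, (if p ∈ A then F l else 0) = ((l ∩ A).card : ℝ) * F l := by
    intro l _
    rw [Finset.sum_ite_mem, Finset.sum_const, nsmul_eq_mul]
  have e2 : ∀ p ∈ P, ∑ l ∈ thru P p, (if p ∈ A then F l else 0) =
      if p ∈ A then ∑ l ∈ thru P p, F l else 0 := by
    intro p _
    split_ifs
    · rfl
    · simp
  rw [Finset.sum_congr rfl e1, Finset.sum_congr rfl e2, Finset.sum_ite_mem,
    Finset.inter_eq_right.2 hA] at h
  exact h.symm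

private theorem LemD_markov {P A B D : Finset V} (hA : A ⊆ P) {κ : ℝ} (hκ : 0 < κ)
    (H : ∑ l ∈ lines P, ((l ∩ A).card : ℝ) *
      |((l ∩ B).card : ℝ) / B.card - ((l ∩ D).card : ℝ) / D.card| ≤ κ ^ 2 * A.card) :
    ((A.filter fun c => κ < dis P c B D).card : ℝ) ≤ κ * A.card := by
  rw [← LemD_swap hA fun l => |((l ∩ B).card : ℝ) / B.card - ((l ∩ D).card : ℝ) / D.card|] at H
  have h1 : κ * ((A.filter fun c => κ < dis P c B D).card : ℝ) ≤ ∑ c ∈ A, dis P c B D := by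
    have hnn : ∀ c, 0 ≤ dis P c B D := fun c => Finset.sum_nonneg fun _ _ => abs_nonneg _
    calc κ * ((A.filter fun c => κ < dis P c B D).card : ℝ)
        = ∑ c ∈ A.filter (fun c => κ < dis P c B D), κ := by
          rw [Finset.sum_const, nsmul_eq_mul, mul_comm]
      _ ≤ ∑ c ∈ A.filter (fun c => κ < dis P c B D), dis P c B D :=
          Finset.sum_le_sum fun c hc => (Finset.mem_filter.1 hc).2.le
      _ ≤ ∑ c ∈ A, dis P c B D :=
          Finset.sum_le_sum_of_subset_of_nonneg (Finset.filter_subset _ _) fun c _ _ => hnn c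
  have h2 : κ * ((A.filter fun c => κ < dis P c B D).card : ℝ) ≤ κ * (κ * A.card) := by
    calc _ ≤ ∑ c ∈ A, dis P c B D := h1
      _ ≤ κ ^ 2 * A.card := H
      _ = κ * (κ * A.card) := by ring
  exact le_of_mul_le_mul_left h2 hκ

theorem lemD {P : Finset V} (hP : Conf P) {C1 C2 C3 : Finset V} (h1 : C1 ⊆ P) (h2 : C2 ⊆ P)
    (h3 : C3 ⊆ P) (v : V) (g : V → ℝ)
    (o12 : ∀ a ∈ C1, ∀ b ∈ C2, 0 < g a * g b * det v a b)
    (o13 : ∀ a ∈ C1, ∀ b ∈ C3, 0 < g a * g b * det v a b)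
    (o23 : ∀ a ∈ C2, ∀ b ∈ C3, 0 < g a * g b * det v a b)
    {κ : ℝ} (hκ : 0 < κ) (hκ' : κ ≤ 1 / 40) (hN1 : 0 < C1.card) (hN2 : 4 ≤ C2.card)
    (hN3 : 0 < C3.card)
    (H1 : ∑ l ∈ lines P, ((l ∩ C1).card : ℝ) *
      |((l ∩ C2).card : ℝ) / C2.card - ((l ∩ C3).card : ℝ) / C3.card| ≤ κ ^ 2 * C1.card)
    (H2 : ∑ l ∈ lines P, ((l ∩ C2).card : ℝ) *
      |((l ∩ C1).card : ℝ) / C1.card - ((l ∩ C3).card : ℝ) / C3.card| ≤ κ ^ 2 * C2.card)
    (H3 : ∑ l ∈ lines P, ((l ∩ C3).card : ℝ) *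
      |((l ∩ C1).card : ℝ) / C1.card - ((l ∩ C2).card : ℝ) / C2.card| ≤ κ ^ 2 * C3.card) :
    ∃ l ∈ lines P, (1 - κ) * C1.card ≤ ((l ∩ C1).card : ℝ) ∧
      (1 - 9 * κ) * C2.card ≤ ((l ∩ C2).card : ℝ) ∧
      (1 - 10 * κ) * C3.card ≤ ((l ∩ C3).card : ℝ) := by
  have b1 := LemD_markov h1 hκ H1
  have b2 := LemD_markov h2 hκ H2
  have b3 := LemD_markov h3 hκ H3
  have hN1' : (0 : ℝ) < C1.card := by exact_mod_cast hN1
  have hN2' : (4 : ℝ) ≤ C2.card := by exact_mod_cast hN2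
  have hN3' : (0 : ℝ) < C3.card := by exact_mod_cast hN3
  have hrich : ∀ c ∈ C1, dis P c C2 C3 ≤ κ →
      ∃ l ∈ thru P c, (1 - 9 * κ) * C2.card ≤ ((l ∩ C2).card : ℝ) := fun c hc hd =>
    half_point hP h1 h2 h3 o12 o13 o23 hκ hκ' (by omega) hN3 b2 b3 hc hd
  have hgood : (1 - κ) * C1.card ≤ ((C1.filter fun c => dis P c C2 C3 ≤ κ).card : ℝ) := by
    have h4 := Finset.card_filter_add_card_filter_not (s := C1) (fun c => dis P c C2 C3 ≤ κ)
    have h5 : (C1.filter fun c => ¬ dis P c C2 C3 ≤ κ) = C1.filter fun c => κ < dis P c C2 C3 :=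
      Finset.filter_congr fun c _ => not_le
    rw [h5] at h4
    have h6 : ((C1.filter fun c => dis P c C2 C3 ≤ κ).card : ℝ) +
        ((C1.filter fun c => κ < dis P c C2 C3).card : ℝ) = C1.card := by exact_mod_cast h4
    linarith
  obtain ⟨c0, hc0⟩ : (C1.filter fun c => dis P c C2 C3 ≤ κ).Nonempty := by
    rw [← Finset.card_pos]
    have : (0 : ℝ) < ((C1.filter fun c => dis P c C2 C3 ≤ κ).card : ℝ) :=
      lt_of_lt_of_le (mul_pos (by linarith) hN1') hgood
    exact_mod_cast this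
  obtain ⟨hc0m, hc0d⟩ := Finset.mem_filter.1 hc0
  obtain ⟨l, hl, hl2⟩ := hrich c0 hc0m hc0d
  obtain ⟨hlP, hc0l⟩ := Finset.mem_filter.1 hl
  refine ⟨l, hlP, ?_, hl2, ?_⟩
  · refine hgood.trans ?_
    norm_cast
    refine Finset.card_le_card fun c hc => ?_
    obtain ⟨hcm, hcd⟩ := Finset.mem_filter.1 hc
    refine Finset.mem_inter.2 ⟨?_, hcm⟩
    obtain ⟨m, hm, hm2⟩ := hrich c hcm hcd
    obtain ⟨hmP, hcmm⟩ := Finset.mem_filter.1 hm
    by_cases hlm : l = m
    · rw [hlm]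
      exact hcmm
    · exfalso
      have h7 := inter_le_one hP hlP hmP hlm
      have h8 := Finset.card_union_add_card_inter (l ∩ C2) (m ∩ C2)
      have h9 : ((l ∩ C2) ∪ (m ∩ C2)).card ≤ C2.card :=
        Finset.card_le_card (Finset.union_subset Finset.inter_subset_right
          Finset.inter_subset_right)
      have h10 : ((l ∩ C2) ∩ (m ∩ C2)).card ≤ (l ∩ m).card :=
        Finset.card_le_card (Finset.inter_subset_inter Finset.inter_subset_left
          Finset.inter_subset_left)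
      have h11 : (l ∩ C2).card + (m ∩ C2).card ≤ C2.card + 1 := by omega
      have h12 : ((l ∩ C2).card : ℝ) + ((m ∩ C2).card : ℝ) ≤ C2.card + 1 := by exact_mod_cast h11
      nlinarith
  · have h13 : |((l ∩ C2).card : ℝ) / C2.card - ((l ∩ C3).card : ℝ) / C3.card| ≤ κ := by
      refine le_trans ?_ hc0d
      exact Finset.single_le_sum
        (f := fun l => |((l ∩ C2).card : ℝ) / C2.card - ((l ∩ C3).card : ℝ) / C3.card|)
        (fun _ _ => abs_nonneg _) hl
    have h14 := (abs_le.1 h13).2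
    have h15 : (1 - 9 * κ) ≤ ((l ∩ C2).card : ℝ) / C2.card := by
      rw [le_div_iff₀ (by linarith)]
      exact hl2
    have h16 : (1 - 10 * κ) ≤ ((l ∩ C3).card : ℝ) / C3.card := by linarith
    rwa [le_div_iff₀ hN3'] at h16

end Pool.Agent.H89.DR
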