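import Pool.Agent.H89.DR.FrH1
import Pool.Agent.H89.DR.LemD

/-!
# Module FrH2 (about 150 lines): case II is impossible

Notation as in `FrH1`, `δ = 1/10^31`, `s = sqrt ε ≤ 1/10^34`, `θ = (δ + 100 s) u^2`, `u = 241000`.
Apply `lemD` with `κ = 1/40`, `C1 = A`, `C2 = B`, `C3 = clu i`, `v` from `chart_order`, and the scaling
`g x = 1 / x k` on the cluster `k`, `g x = 1 / x i` on the cluster `i` (disjoint sets).
`H1`: `∑ l ∈ lines P, α |β/b - γ/d|`: over `Lc k i` it is at most `sqrt (∑ α^2) sqrt θ ≤ sqrt 2 n sqrt θ`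
(`caseII_L2`, `sum_card_sq_le`); a line with `α > 0` not in `Lc k i` has `γ = 0`, and if also `β > 0`
it misses the cluster `j` (`hsep`), so it meets only the cluster `k`, and `∑ α β ≤ ∑ kc^2 ≤ 22 ε n^2`
(`sum_lonely`). Total `≤ 1.42 n sqrt θ + 22 ε n u ≤ a / 1600` because `a ≥ n/u`,
`sqrt θ ≤ u sqrt (1.1e-31) ≤ 8.1e-11`, `1.42 u * 8.1e-11 ≤ 2.8e-5`. `H2` is the same. `H3`: a line with
`γ > 0` not in `Lc k i` has `α = β = 0`; over `Lc k i` at most `sqrt 2 n sqrt θ ≤ d / 1600`.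
The line of `lemD` has at least `(1 - 10/40) (#A + #B + #(clu i)) ≥ 0.75 (1.99 (1/3 - ε)) n > (1/3 + ε) n`
points (`A`, `B`, `clu i` are disjoint), against `line_le`.
-/

set_option autoImplicit false

namespace Pool.Agent.H89.DR

open Finset Classical

/-- Cauchy-Schwarz over the lines between two clusters -/
private theorem FrH2_cs {P : Finset V} {ε : ℝ} (h : Fr P ε) {i k : Fin 3} (W : Finset V)
    (x : Finset V → ℝ) {θ τ : ℝ} (hx : ∑ l ∈ Lc P ε k i, x l ^ 2 ≤ θ) (hτ : 0 ≤ τ)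
    (hθ : 2 * θ ≤ τ ^ 2) :
    ∑ l ∈ Lc P ε k i, ((l ∩ W).card : ℝ) * |x l| ≤ τ * P.card := by
  have h1 := Finset.sum_mul_sq_le_sq_mul_sq (Lc P ε k i) (fun l => ((l ∩ W).card : ℝ))
    (fun l => |x l|)
  have h2 : ∑ l ∈ Lc P ε k i, ((l ∩ W).card : ℝ) ^ 2 ≤ 2 * (P.card : ℝ) ^ 2 := by
    refine le_trans ?_ (sum_card_sq_le h.conf)
    refine le_trans (Finset.sum_le_sum (g := fun l : Finset V => (l.card : ℝ) ^ 2)
      fun l _ => ?_) (Finset.sum_le_sum_of_subset_of_nonneg (Finset.filter_subset _ _)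
      fun _ _ _ => by positivity)
    have : ((l ∩ W).card : ℝ) ≤ l.card := by
      exact_mod_cast Finset.card_le_card (Finset.inter_subset_left)
    exact pow_le_pow_left₀ (by positivity) this 2
  have h3 : ∑ l ∈ Lc P ε k i, |x l| ^ 2 ≤ θ := by
    simp only [sq_abs]
    exact hx
  have h30 : 0 ≤ ∑ l ∈ Lc P ε k i, |x l| ^ 2 := Finset.sum_nonneg fun _ _ => by positivity
  have h4 : (∑ l ∈ Lc P ε k i, ((l ∩ W).card : ℝ) * |x l|) ^ 2 ≤ (τ * P.card) ^ 2 := by
    refine h1.trans ((mul_le_mul h2 h3 h30 (by positivity)).trans ?_)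
    have := mul_le_mul_of_nonneg_right hθ (sq_nonneg (P.card : ℝ))
    linarith [mul_pow τ (P.card : ℝ) 2]
  have h5 : 0 ≤ ∑ l ∈ Lc P ε k i, ((l ∩ W).card : ℝ) * |x l| :=
    Finset.sum_nonneg fun _ _ => by positivity
  exact (pow_le_pow_iff_left₀ h5 (by positivity) two_ne_zero).1 h4

private theorem FrH2_ne {A : Finset V} (h : A.card ≠ 0) : A.Nonempty := by
  rw [← Finset.card_pos]
  exact Nat.pos_of_ne_zero h

/-- the first two hypotheses of the halving lemma -/
private theorem FrH2_H {P : Finset V} {ε : ℝ} (h : Fr P ε) {i j k : Fin 3} (hij : i ≠ j)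
    (hik : i ≠ k) (hjk : j ≠ k) {A B : Finset V} {τ θ : ℝ}
    (hA : A ⊆ clu P ε k) (hB : B ⊆ clu P ε k) (hdisj : Disjoint A B) (hB0 : 0 < (B.card : ℝ))
    (hub : (P.card : ℝ) ≤ 241000 * B.card)
    (hno : ∀ a ∈ A, ∀ b ∈ B, ¬ (line P a b ∩ clu P ε j).Nonempty)
    (hx : ∑ l ∈ Lc P ε k i, (((l ∩ B).card : ℝ) / B.card -
        ((l ∩ clu P ε i).card : ℝ) / (clu P ε i).card) ^ 2 ≤ θ) (hτ : 0 ≤ τ)
    (hθ : 2 * θ ≤ τ ^ 2) :
    ∑ l ∈ lines P, ((l ∩ A).card : ℝ) *
      |((l ∩ B).card : ℝ) / B.card - ((l ∩ clu P ε i).card : ℝ) / (clu P ε i).card| ≤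
      τ * P.card + 22 * 241000 * ε * P.card := by
  have hε := h.pos
  rw [← Finset.sum_filter_add_sum_filter_not (lines P)
    (fun l => (l ∩ clu P ε k).Nonempty ∧ (l ∩ clu P ε i).Nonempty)]
  have e1 := FrH2_cs h (i := i) (k := k) A (fun l => ((l ∩ B).card : ℝ) / B.card -
        ((l ∩ clu P ε i).card : ℝ) / (clu P ε i).card) hx hτ hθ
  unfold Lc at e1
  refine add_le_add e1 ?_
  set L0 := (lines P).filter (fun l => (l ∩ clu P ε k).Nonempty ∧
        ∀ j, j ≠ k → ¬ (l ∩ clu P ε j).Nonempty) with hL0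
  have h3 : ∀ m : Fin 3, m ≠ k → m = i ∨ m = j := by
    intro m hm
    fin_cases i <;> fin_cases j <;> fin_cases k <;> fin_cases m <;> simp_all
  have e2 : ∀ l ∈ (lines P).filter (fun l => ¬ ((l ∩ clu P ε k).Nonempty ∧
      (l ∩ clu P ε i).Nonempty)), ((l ∩ A).card : ℝ) *
      |((l ∩ B).card : ℝ) / B.card - ((l ∩ clu P ε i).card : ℝ) / (clu P ε i).card| ≤
      (if l ∈ L0 then kc P ε k l ^ 2 else 0) / B.card := by
    intro l hl
    obtain ⟨hl, hn⟩ := mem_filter.1 hl
    have hpos : (0 : ℝ) ≤ (if l ∈ L0 then kc P ε k l ^ 2 else 0) / B.card := by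
      refine div_nonneg ?_ hB0.le
      split_ifs
      · positivity
      · exact le_refl _
    by_cases hA0 : (l ∩ A).card = 0
    · rw [hA0, Nat.cast_zero, zero_mul]
      exact hpos
    · have hAne := FrH2_ne hA0
      obtain ⟨a, ha⟩ := hAne
      rw [mem_inter] at ha
      have hk : (l ∩ clu P ε k).Nonempty := ⟨a, mem_inter.2 ⟨ha.1, hA ha.2⟩⟩
      have hi : ¬ (l ∩ clu P ε i).Nonempty := fun hi => hn ⟨hk, hi⟩
      have hi0 : (l ∩ clu P ε i).card = 0 := by
        rw [Finset.card_eq_zero]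
        exact Finset.not_nonempty_iff_eq_empty.1 hi
      rw [hi0, Nat.cast_zero, zero_div, sub_zero, abs_of_nonneg (by positivity)]
      by_cases hBz : (l ∩ B).card = 0
      · rw [hBz, Nat.cast_zero, zero_div, mul_zero]
        exact hpos
      · obtain ⟨b, hb⟩ := FrH2_ne hBz
        rw [mem_inter] at hb
        have hab : a ≠ b := by
          rintro rfl
          exact (Finset.disjoint_left.1 hdisj) ha.2 hb.2
        have hlab := line_unique h.conf hl ha.1 hb.1 hab
        have hlL : l ∈ L0 := by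
          refine mem_filter.2 ⟨hl, hk, fun m hm => ?_⟩
          rcases h3 m hm with rfl | rfl
          · exact hi
          · rw [hlab]
            exact hno a ha.2 b hb.2
        rw [if_pos hlL, ← mul_div_assoc]
        refine div_le_div_of_nonneg_right ?_ hB0.le
        unfold kc
        rw [pow_two]
        have f1 : ((l ∩ A).card : ℝ) ≤ (l ∩ clu P ε k).card := by
          exact_mod_cast Finset.card_le_card (Finset.inter_subset_inter_left hA)
        have f2 : ((l ∩ B).card : ℝ) ≤ (l ∩ clu P ε k).card := by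
          exact_mod_cast Finset.card_le_card (Finset.inter_subset_inter_left hB)
        exact mul_le_mul f1 f2 (by positivity) (by positivity)
  refine (Finset.sum_le_sum e2).trans ?_
  rw [← Finset.sum_div, div_le_iff₀ hB0]
  have e3 : ∑ l ∈ (lines P).filter (fun l => ¬ ((l ∩ clu P ε k).Nonempty ∧
      (l ∩ clu P ε i).Nonempty)), (if l ∈ L0 then kc P ε k l ^ 2 else 0) ≤
      ∑ l ∈ lines P, (if l ∈ L0 then kc P ε k l ^ 2 else 0) := by
    refine Finset.sum_le_sum_of_subset_of_nonneg (Finset.filter_subset _ _) fun l _ _ => ?_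
    split_ifs
    · positivity
    · exact le_refl _
  have e4 : ∑ l ∈ lines P, (if l ∈ L0 then kc P ε k l ^ 2 else 0) =
      ∑ l ∈ L0, kc P ε k l ^ 2 := by
    rw [← Finset.sum_filter]
    refine Finset.sum_congr ?_ fun _ _ => rfl
    ext l
    rw [mem_filter, hL0, mem_filter]
    tauto
  have e5 := sum_lonely h k
  rw [← hL0] at e5
  refine e3.trans (e4.le.trans (e5.trans ?_))
  have e6 : (P.card : ℝ) * P.card ≤ P.card * (241000 * B.card) :=
    mul_le_mul_of_nonneg_left hub (by positivity)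
  have e7 := mul_le_mul_of_nonneg_left e6 hε.le
  linarith

theorem caseII {P : Finset V} {ε : ℝ} (h : Fr P ε) {i j k : Fin 3} (hij : i ≠ j)
    (hik : i ≠ k) (hjk : j ≠ k) {A B : Finset V} (hs : Real.sqrt ε ≤ 1 / 10 ^ 34)
    (hA : A ⊆ clu P ε k) (hB : B ⊆ clu P ε k)
    (hA' : ((clu P ε k).card : ℝ) / 80000 ≤ A.card)
    (hB' : ((clu P ε k).card : ℝ) / 80000 ≤ B.card)
    (hR : (((clu P ε k) \ (A ∪ B)).card : ℝ) ≤ 4 * (1 / 10 ^ 31) * (clu P ε k).card)
    (hsep : ∀ a ∈ A, ∀ b ∈ B, a i / a k < b i / b k ∧ ¬ (line P a b ∩ clu P ε j).Nonempty) :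
    False := by
  have hε := h.pos
  have hε' := h.le
  have hbig := h.big
  have hNk := h.clu_ge k
  have hNi := h.clu_ge i
  have hdisj : Disjoint A B := by
    rw [Finset.disjoint_left]
    intro x hx hx'
    exact absurd (hsep x hx x hx').1 (lt_irrefl _)
  obtain ⟨L1, L2, L3⟩ := caseII_L2 h hij hik hjk (δ := 1 / 10 ^ 31) (by norm_num) (by norm_num)
    hA hB hA' hB' hR hsep
  set θ : ℝ := (1 / 10 ^ 31 + 100 * Real.sqrt ε) * 241000 ^ 2 with hθ
  have hθ2 : 2 * θ ≤ (1 / 10 ^ 9 : ℝ) ^ 2 := by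
    rw [hθ]
    have : 1 / 10 ^ 31 + 100 * Real.sqrt ε ≤ 1 / 10 ^ 31 + 100 * (1 / 10 ^ 34) := by linarith
    norm_num at this ⊢
    linarith
  have hs0 : 0 < Real.sqrt ε := Real.sqrt_pos.2 hε
  have hεs : ε ≤ 1 / 10 ^ 34 * (1 / 10 ^ 34) := by
    have h1 := mul_le_mul hs hs hs0.le (by norm_num)
    rwa [Real.mul_self_sqrt hε.le] at h1
  have hcov : ((clu P ε k).card : ℝ) ≤ A.card + B.card + 4 * (1 / 10 ^ 31) * (clu P ε k).card := by
    have h1 : (clu P ε k) ⊆ (A ∪ B) ∪ ((clu P ε k) \ (A ∪ B)) := by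
      intro x hx
      by_cases hx' : x ∈ A ∪ B
      · exact mem_union_left _ hx'
      · exact mem_union_right _ (mem_sdiff.2 ⟨hx, hx'⟩)
    have h2 := (Finset.card_le_card h1).trans (Finset.card_union_le _ _)
    have h3 : ((clu P ε k).card : ℝ) ≤
        ((A ∪ B).card : ℝ) + ((clu P ε k) \ (A ∪ B)).card := by exact_mod_cast h2
    have h4 : ((A ∪ B).card : ℝ) ≤ (A.card : ℝ) + B.card := by
      exact_mod_cast Finset.card_union_le A B
    linarith
  have hn0 : 0 < (P.card : ℝ) := by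
    by_contra hcon
    have : (P.card : ℝ) ≤ 0 := not_lt.1 hcon
    have := mul_nonpos_of_nonneg_of_nonpos hε.le this
    linarith
  have hεn : ε * (P.card : ℝ) ≤ (1 / 10 ^ 34 * (1 / 10 ^ 34)) * P.card :=
    mul_le_mul_of_nonneg_right hεs hn0.le
  have hua : (P.card : ℝ) ≤ 241000 * A.card := by
    norm_num at hεn
    linarith
  have hub : (P.card : ℝ) ≤ 241000 * B.card := by
    norm_num at hεn
    linarith
  have hud : (P.card : ℝ) ≤ 4 * (clu P ε i).card := by
    norm_num at hεn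
    linarith
  have ha0 : (0 : ℝ) < A.card := by linarith
  have hb0 : (0 : ℝ) < B.card := by linarith
  have hd0 : (0 : ℝ) < (clu P ε i).card := by linarith
  have hb4 : (4 : ℝ) ≤ B.card := by
    norm_num at hεn
    linarith
  obtain ⟨v, hv1, hv2⟩ := chart_order h hik
  have hki := clu_disj h hik.symm
  have H1 := FrH2_H h hij hik hjk hA hB hdisj hb0 hub (fun a ha b hb => (hsep a ha b hb).2) L1
    (τ := 1 / 10 ^ 9) (by norm_num) hθ2
  have H2 := FrH2_H h hij hik hjk hB hA hdisj.symm ha0 hua (fun b hb a ha => by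
    rw [line_comm]
    exact (hsep a ha b hb).2) L2 (τ := 1 / 10 ^ 9) (by norm_num) hθ2
  have H3 : ∑ l ∈ lines P, ((l ∩ clu P ε i).card : ℝ) *
      |((l ∩ A).card : ℝ) / A.card - ((l ∩ B).card : ℝ) / B.card| ≤
      (1 / 10 ^ 9) * P.card := by
    rw [← Finset.sum_filter_add_sum_filter_not (lines P)
      (fun l => (l ∩ clu P ε k).Nonempty ∧ (l ∩ clu P ε i).Nonempty)]
    have e1 := FrH2_cs h (i := i) (k := k) (clu P ε i) (fun l => ((l ∩ A).card : ℝ) / A.card -
        ((l ∩ B).card : ℝ) / B.card) L3 (τ := 1 / 10 ^ 9) (by norm_num) hθ2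
    unfold Lc at e1
    have e2 : ∑ l ∈ (lines P).filter (fun l => ¬ ((l ∩ clu P ε k).Nonempty ∧
        (l ∩ clu P ε i).Nonempty)), ((l ∩ clu P ε i).card : ℝ) *
        |((l ∩ A).card : ℝ) / A.card - ((l ∩ B).card : ℝ) / B.card| = 0 := by
      refine Finset.sum_eq_zero fun l hl => ?_
      obtain ⟨hl, hn⟩ := mem_filter.1 hl
      by_cases hi0 : (l ∩ clu P ε i).card = 0
      · rw [hi0, Nat.cast_zero, zero_mul]
      · have hi := FrH2_ne hi0
        have hk : ¬ (l ∩ clu P ε k).Nonempty := fun hk => hn ⟨hk, hi⟩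
        have hA0 : (l ∩ A).card = 0 := by
          by_contra hcon
          obtain ⟨a, ha⟩ := FrH2_ne hcon
          rw [mem_inter] at ha
          exact hk ⟨a, mem_inter.2 ⟨ha.1, hA ha.2⟩⟩
        have hB0 : (l ∩ B).card = 0 := by
          by_contra hcon
          obtain ⟨a, ha⟩ := FrH2_ne hcon
          rw [mem_inter] at ha
          exact hk ⟨a, mem_inter.2 ⟨ha.1, hB ha.2⟩⟩
        rw [hA0, hB0, Nat.cast_zero, zero_div, zero_div, sub_zero, abs_zero, mul_zero]
    rw [e2, add_zero]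
    exact e1
  obtain ⟨l, hl, l1, l2, l3⟩ := lemD h.conf (hA.trans (clu_sub P ε k)) (hB.trans (clu_sub P ε k))
    (clu_sub P ε i) v (fun x => if x ∈ clu P ε k then 1 / x k else 1 / x i)
    (fun a ha b hb => by
      rw [if_pos (hA ha), if_pos (hB hb)]
      exact hv1 a (hA ha) b (hB hb) (hsep a ha b hb).1)
    (fun a ha q hq => by
      have hqk : q ∉ clu P ε k := fun hqk => (Finset.disjoint_left.1 hki) hqk hq
      rw [if_pos (hA ha), if_neg hqk]
      exact hv2 a (hA ha) q hq)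
    (fun a ha q hq => by
      have hqk : q ∉ clu P ε k := fun hqk => (Finset.disjoint_left.1 hki) hqk hq
      rw [if_pos (hB ha), if_neg hqk]
      exact hv2 a (hB ha) q hq)
    (κ := 1 / 40) (by norm_num) (le_refl _) (by exact_mod_cast ha0) (by exact_mod_cast hb4)
    (by exact_mod_cast hd0)
    (by
      refine H1.trans ?_
      norm_num at hεn ⊢
      linarith)
    (by
      refine H2.trans ?_
      norm_num at hεn ⊢
      linarith)
    (by
      refine H3.trans ?_
      norm_num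
      linarith)
  have hline := h.line_le l hl
  have hsum : ((l ∩ A).card : ℝ) + (l ∩ B).card + (l ∩ clu P ε i).card ≤ l.card := by
    have d1 : Disjoint (l ∩ A) (l ∩ B) :=
      Disjoint.mono Finset.inter_subset_right Finset.inter_subset_right hdisj
    have d2 : Disjoint ((l ∩ A) ∪ (l ∩ B)) (l ∩ clu P ε i) := by
      rw [Finset.disjoint_union_left]
      exact ⟨Disjoint.mono (Finset.inter_subset_right.trans hA) Finset.inter_subset_right hki,
        Disjoint.mono (Finset.inter_subset_right.trans hB) Finset.inter_subset_right hki⟩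
    have h1 : ((l ∩ A) ∪ (l ∩ B)) ∪ (l ∩ clu P ε i) ⊆ l :=
      Finset.union_subset (Finset.union_subset Finset.inter_subset_left Finset.inter_subset_left)
        Finset.inter_subset_left
    have h2 := Finset.card_le_card h1
    rw [Finset.card_union_of_disjoint d2, Finset.card_union_of_disjoint d1] at h2
    exact_mod_cast h2
  norm_num at hεn hcov l1 l2 l3
  linarith

end Pool.Agent.H89.DR
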