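import Pool.Agent.H89.DR.FrM2

/-!
# Module FrM3 (about 110 lines): two separated parts of a thin cluster

Notation as in `FrM2`. `S` = the points of the strip `|Y c - Y c1| ≤ 8 ε Λ r`, at least
`(1 - 2 δ) N` points. Apply `gap` to `S`, `X`, `L = r/2`, `a = N / 80000`, `m`: for every `u` the points
of `S` with `u ≤ X ≤ u + r/2` are either none (and `0 < #S - 2a`), or within `r/2` of one of them in
`dd` (`|dY| ≤ 16 ε Λ r ≤ r/2`), so by `hmin` fewer than `(1 - 1/10000) N ≤ (1 - 2δ) N - 2 a ≤ #S - 2 a`.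
Put `A' = {c ∈ S : X c ≤ t1}`, `A'' = {c ∈ S : t2 ≤ X c}`, `t2 ≥ t1 + r / (2m)`. The rest of `C` has at
most `2 δ N + N/m ≤ 4 δ N` points. A line through `a ∈ A'`, `b ∈ A''` does not meet the cluster `j`:
otherwise `|X b - X a| ≤ 2 ε |Y b - Y a| ≤ 32 ε^2 Λ r` (`rel` with `i`, `j` exchanged), but
`|X b - X a| ≥ r / (2m)` and `64 ε^2 Λ m < 1` (`m δ ≤ 2`, `1000 Λ sqrt ε ≤ δ`).
-/

set_option autoImplicit false

namespace Pool.Agent.H89.DR

open Finset Classical

theorem twosets {P : Finset V} {ε : ℝ} (h : Fr P ε) {i j k : Fin 3} (hij : i ≠ j)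
    (hik : i ≠ k) (hjk : j ≠ k) {r Λ δ : ℝ} (hr : 0 < r) (hΛ : 1 ≤ Λ) (hδ0 : 0 < δ)
    (hδ : δ ≤ 1 / 10 ^ 6) (hs : 1000 * Λ * Real.sqrt ε ≤ δ) {m : ℕ} (hm : 1 ≤ m * δ)
    (hm' : m * δ ≤ 2)
    (hmin : ∀ c ∈ clu P ε k, (((clu P ε k).filter fun c' =>
      dd (fun x => x i / x k) (fun x => x j / x k) c c' ≤ r / 2).card : ℝ) <
        (1 - 1 / 10000) * (clu P ε k).card)
    {c1 : V} (hc1 : c1 ∈ clu P ε k)
    (hS : (1 - 2 * δ) * (clu P ε k).card ≤ (((clu P ε k).filter fun c =>
      |c j / c k - c1 j / c1 k| ≤ 8 * ε * Λ * r).card : ℝ)) :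
    ∃ A B : Finset V, A ⊆ clu P ε k ∧ B ⊆ clu P ε k ∧
      ((clu P ε k).card : ℝ) / 80000 ≤ A.card ∧ ((clu P ε k).card : ℝ) / 80000 ≤ B.card ∧
      (((clu P ε k) \ (A ∪ B)).card : ℝ) ≤ 4 * δ * (clu P ε k).card ∧
      ∀ a ∈ A, ∀ b ∈ B, a i / a k < b i / b k ∧ ¬ (line P a b ∩ clu P ε j).Nonempty := by
  have hε := h.pos
  have hε' := h.le
  set C := clu P ε k with hC
  set s := Real.sqrt ε with hsdef
  set S := C.filter fun c => |c j / c k - c1 j / c1 k| ≤ 8 * ε * Λ * r with hSdef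
  have hs2 : s ^ 2 = ε := Real.sq_sqrt hε.le
  have hs0 : 0 < s := Real.sqrt_pos.2 hε
  have hSC : S ⊆ C := Finset.filter_subset _ _
  have hNpos : (0 : ℝ) < C.card := by
    have : 0 < C.card := Finset.card_pos.2 ⟨c1, hc1⟩
    exact_mod_cast this
  have hSle : (S.card : ℝ) ≤ C.card := by exact_mod_cast Finset.card_le_card hSC
  have hsδ : 1000 * s ≤ δ := by
    have : 1 * s ≤ Λ * s := mul_le_mul_of_nonneg_right hΛ hs0.le
    linarith
  have hm0 : 0 < m := by
    rcases Nat.eq_zero_or_pos m with h0 | h0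
    · rw [h0] at hm; norm_num at hm
    · exact h0
  have hmR : (0 : ℝ) < m := by exact_mod_cast hm0
  have eδN : δ * (C.card : ℝ) ≤ (1 / 10 ^ 6) * C.card := mul_le_mul_of_nonneg_right hδ hNpos.le
  have hθ : ε * Λ ≤ 1 / 1000 := by
    have e1 : s * (1000 * Λ * s) ≤ s * δ := mul_le_mul_of_nonneg_left hs hs0.le
    have e2 : s * δ ≤ δ * δ := mul_le_mul_of_nonneg_right (by linarith) hδ0.le
    have e3 : δ * δ ≤ (1 / 10 ^ 6) * (1 / 10 ^ 6) := mul_le_mul hδ hδ hδ0.le (by norm_num)
    have e4 : s * (1000 * Λ * s) = 1000 * (ε * Λ) := by rw [← hs2]; ring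
    rw [e4] at e1
    linarith
  have hθr : ε * Λ * r ≤ r / 1000 := by
    have := mul_le_mul_of_nonneg_right hθ hr.le
    linarith
  have hYY : ∀ a ∈ S, ∀ b ∈ S, |b j / b k - a j / a k| ≤ 16 * ε * Λ * r := by
    intro a ha b hb
    have ha' := (mem_filter.1 ha).2
    have hb' := (mem_filter.1 hb).2
    rw [abs_sub_comm] at ha'
    have := abs_sub_le (b j / b k) (c1 j / c1 k) (a j / a k)
    linarith
  obtain ⟨t1, t2, h12, hA, hB, hG⟩ := gap S (fun x => x i / x k) (L := r / 2)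
    (a := (C.card : ℝ) / 80000) (by linarith) (by positivity) (by
      intro u
      by_cases hne : (S.filter fun c => u ≤ c i / c k ∧ c i / c k ≤ u + r / 2).Nonempty
      · obtain ⟨c, hc⟩ := hne
        obtain ⟨hcS, hcu, hcu'⟩ := mem_filter.1 hc
        have hsub : (S.filter fun c => u ≤ c i / c k ∧ c i / c k ≤ u + r / 2) ⊆
            C.filter fun c' => dd (fun x => x i / x k) (fun x => x j / x k) c c' ≤ r / 2 := by
          intro b hb
          obtain ⟨hbS, hbu, hbu'⟩ := mem_filter.1 hb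
          refine mem_filter.2 ⟨hSC hbS, ?_⟩
          unfold dd
          refine max_le ?_ ?_
          · rw [abs_le]
            constructor <;> linarith
          · have := hYY c hcS b hbS
            show |b j / b k - c j / c k| ≤ r / 2
            linarith
        have h1 := Finset.card_le_card hsub
        have h2 : (((S.filter fun c => u ≤ c i / c k ∧ c i / c k ≤ u + r / 2).card : ℕ) : ℝ) ≤
            ((C.filter fun c' => dd (fun x => x i / x k) (fun x => x j / x k) c c' ≤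
              r / 2).card : ℝ) := by exact_mod_cast h1
        have h3 := hmin c (hSC hcS)
        refine lt_of_le_of_lt h2 (lt_of_lt_of_le h3 ?_)
        linarith
      · rw [Finset.not_nonempty_iff_eq_empty] at hne
        rw [hne]
        simp only [Finset.card_empty, Nat.cast_zero]
        linarith) hm0
  refine ⟨S.filter fun c => c i / c k ≤ t1, S.filter fun c => t2 ≤ c i / c k,
    (Finset.filter_subset _ _).trans hSC, (Finset.filter_subset _ _).trans hSC, hA, hB, ?_, ?_⟩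
  · have hsub : C \ ((S.filter fun c => c i / c k ≤ t1) ∪ (S.filter fun c => t2 ≤ c i / c k)) ⊆
        (C \ S) ∪ (S.filter fun c => t1 < c i / c k ∧ c i / c k < t2) := by
      intro c hc
      rw [mem_sdiff, mem_union, not_or] at hc
      rw [mem_union]
      by_cases hcS : c ∈ S
      · right
        refine mem_filter.2 ⟨hcS, ?_, ?_⟩
        · by_contra hcon
          exact hc.2.1 (mem_filter.2 ⟨hcS, not_lt.1 hcon⟩)
        · by_contra hcon
          exact hc.2.2 (mem_filter.2 ⟨hcS, not_lt.1 hcon⟩)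
      · left
        exact mem_sdiff.2 ⟨hc.1, hcS⟩
    have h1 : (((C \ ((S.filter fun c => c i / c k ≤ t1) ∪
        (S.filter fun c => t2 ≤ c i / c k))).card : ℕ) : ℝ) ≤
        ((C \ S).card : ℝ) + ((S.filter fun c => t1 < c i / c k ∧ c i / c k < t2).card : ℝ) := by
      exact_mod_cast (Finset.card_le_card hsub).trans (Finset.card_union_le _ _)
    have h2 : ((C \ S).card : ℝ) = (C.card : ℝ) - S.card := by
      have := Finset.card_sdiff_add_card_eq_card hSC
      have h3 : ((C \ S).card : ℝ) + S.card = C.card := by exact_mod_cast this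
      linarith
    have h3 : (S.card : ℝ) / m ≤ δ * C.card := by
      rw [div_le_iff₀ hmR]
      have : 1 * (C.card : ℝ) ≤ (m * δ) * C.card := mul_le_mul_of_nonneg_right hm hNpos.le
      linarith
    have h4 : 0 < δ * (C.card : ℝ) := mul_pos hδ0 hNpos
    linarith
  · intro a ha b hb
    obtain ⟨haS, haX⟩ := mem_filter.1 ha
    obtain ⟨hbS, hbX⟩ := mem_filter.1 hb
    have hpos : 0 < r / 2 / m := by positivity
    refine ⟨by linarith, fun hj => ?_⟩
    have h1 := rel h hij.symm hjk hik (hSC haS) (hSC hbS) hj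
    have h2 := hYY a haS b hbS
    have h3 : r / 2 / m ≤ |b i / b k - a i / a k| := by
      refine le_trans ?_ (le_abs_self _)
      linarith
    have h4 : 2 * ε * |b j / b k - a j / a k| ≤ 2 * ε * (16 * ε * Λ * r) :=
      mul_le_mul_of_nonneg_left h2 (by linarith)
    have h5 : r / 2 / m ≤ 2 * ε * (16 * ε * Λ * r) := h3.trans (h1.trans h4)
    rw [div_div, div_le_iff₀ (by positivity)] at h5
    have h6 : m * (1000 * Λ * s) ≤ 2 := le_trans (mul_le_mul_of_nonneg_left hs hmR.le) hm'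
    have h7 : 2 * ε * (16 * ε * Λ * r) * (2 * m) = (64 / 1000) * (s ^ 3 * r) * (m * (1000 * Λ * s)) := by
      rw [← hs2]; ring
    have h8 : s ^ 3 ≤ 1 := by
      apply pow_le_one₀ hs0.le
      linarith
    have h9 : (64 / 1000) * (s ^ 3 * r) * (m * (1000 * Λ * s)) ≤ (64 / 1000) * (s ^ 3 * r) * 2 :=
      mul_le_mul_of_nonneg_left h6 (by positivity)
    have h10 : s ^ 3 * r ≤ 1 * r := mul_le_mul_of_nonneg_right h8 hr.le
    linarith

end Pool.Agent.H89.DR
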