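import Pool.Agent.H89.DR.FrG3
import Pool.Agent.H89.DR.FrM3
import Pool.Agent.H89.DR.FrH2

/-!
# Module Frame (about 150 lines): Lemma F, the frame case is impossible

Constants: `δ = 1/10^31`, a natural number `I ≥ 1/(100 δ)`, `I ≥ 1` (keep it opaque:
`obtain ⟨I, hI⟩ := exists_nat_ge ..`), `m = 10^31`, `Λ = 2^I`, and `ε ≤ ε0` where `ε0` is so small that
`sqrt ε ≤ δ^2 / 100000`, `sqrt ε ≤ 1/10^34`, `1000 Λ sqrt ε ≤ δ`, `ε ≤ 1/1000`.
`i = 0, j = 1, k = 2`, `X c = c 0 / c 2`, `Y c = c 1 / c 2`, `C = clu 2`, `N = #C` (large by `big`).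

`centre` (`chart_inj`, `δ` there `= 1/10000`) gives `c0`, `r`; `annulus` with `D = dd X Y c0` gives `t < I`
with few points in the annulus `Yy = {2^t r < D ≤ 2^(t+1) r}`: `#Yy ≤ N/(10000 I) ≤ δ N / 100`. Put
`A = {D ≤ 2^t r}`, `Z = {2^(t+1) r < D}`, `Z1 = {z ∈ Z : |Y z - Y c0| ≤ |X z - X c0|}`, `Z2 = Z \ Z1`;
`#Z ≤ N/10000`.
`z ∈ Z1`, `a ∈ A`, `D z = |X z - X c0| =: M > 2^(t+1) r`: `|X z - X a| ≥ M - 2^t r > M/2`,
`|Y z - Y a| ≤ M + 2^t r ≤ 3M/2`; if the line `z a` met the cluster `1` then `|dX| ≤ 2 ε |dY| ≤ 3 ε M`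
(`rel` with the indices exchanged), a contradiction. Similarly for `Z2` and the cluster `0`.
If `#Z ≥ δ N`: `caseI`. Otherwise `{Λ r < D}` is contained in `Z` (`t + 1 ≤ I`), so it has at most `δ N`
points, and `strip` applies (`hmin` from `centre` with `r' = r/2`); in the first alternative use
`twosets` and `caseII` with `(i, j, k) = (0, 1, 2)`, in the second with `(1, 0, 2)` (`dd` is symmetric
in the two coordinates: `max_comm`).
-/

set_option autoImplicit false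

namespace Pool.Agent.H89.DR

open Finset Classical

private theorem frame_sep {P : Finset V} {ε : ℝ} (h : Fr P ε) {i j k : Fin 3} (hij : i ≠ j)
    (hik : i ≠ k) (hjk : j ≠ k) {c0 z a : V} {ρ : ℝ}
    (hz : z ∈ clu P ε k) (ha : a ∈ clu P ε k) (hρ : 0 < ρ)
    (h1 : |a i / a k - c0 i / c0 k| ≤ ρ) (h2 : |a j / a k - c0 j / c0 k| ≤ ρ)
    (h3 : 2 * ρ < |z j / z k - c0 j / c0 k|)
    (h4 : |z i / z k - c0 i / c0 k| ≤ |z j / z k - c0 j / c0 k|) :
    ¬ (line P z a ∩ clu P ε i).Nonempty := by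
  intro hne
  have hr := rel h hij hik hjk hz ha hne
  have hε := h.le
  have hε0 := h.pos
  obtain ⟨M, hM⟩ : ∃ M, M = |z j / z k - c0 j / c0 k| := ⟨_, rfl⟩
  rw [← hM] at h3 h4
  have h5 : M - ρ ≤ |a j / a k - z j / z k| := by
    have e1 : |z j / z k - c0 j / c0 k| ≤ |a j / a k - z j / z k| + |a j / a k - c0 j / c0 k| := by
      have : z j / z k - c0 j / c0 k =
        -(a j / a k - z j / z k) + (a j / a k - c0 j / c0 k) := by ring
      rw [this]
      exact (abs_add_le _ _).trans (by rw [abs_neg])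
    rw [← hM] at e1
    linarith
  have h6 : |a i / a k - z i / z k| ≤ M + ρ := by
    have : a i / a k - z i / z k =
        (a i / a k - c0 i / c0 k) + -(z i / z k - c0 i / c0 k) := by ring
    rw [this]
    refine (abs_add_le _ _).trans ?_
    rw [abs_neg]
    linarith
  have hM0 : 0 < M := by linarith
  have h7 : 2 * ε * |a i / a k - z i / z k| ≤ 2 * (1 / 1000) * (M + ρ) :=
    mul_le_mul (by linarith) h6 (abs_nonneg _) (by norm_num)
  linarith

private theorem frame_core {P : Finset V} {ε : ℝ} (h : Fr P ε) {δ Λ : ℝ} {I : ℕ}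
    (hδ : δ = 1 / 10 ^ 31) (hI : (10 : ℝ) ^ 29 ≤ I) (hΛ : Λ = 2 ^ I)
    (hs1 : Real.sqrt ε ≤ δ ^ 2 / 100000) (hs2 : Real.sqrt ε ≤ 1 / 10 ^ 34)
    (hs3 : 1000 * Λ * Real.sqrt ε ≤ δ) : False := by
  obtain ⟨X, hX⟩ : ∃ X : V → ℝ, X = fun x => x 0 / x 2 := ⟨_, rfl⟩
  obtain ⟨Y, hY⟩ : ∃ Y : V → ℝ, Y = fun x => x 1 / x 2 := ⟨_, rfl⟩
  obtain ⟨C, hC⟩ : ∃ C : Finset V, C = clu P ε 2 := ⟨_, rfl⟩
  have h01 : (0 : Fin 3) ≠ 1 := by decide
  have h02 : (0 : Fin 3) ≠ 2 := by decide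
  have h12 : (1 : Fin 3) ≠ 2 := by decide
  have hδ0 : 0 < δ := by rw [hδ]; positivity
  have hδ1 : δ ≤ 1 / 10 ^ 6 := by rw [hδ]; norm_num
  have hε := h.le
  have hε0 := h.pos
  have hI0 : 0 < I := by
    rcases Nat.eq_zero_or_pos I with h0 | h0
    · rw [h0] at hI
      norm_num at hI
    · exact h0
  have hΛ1 : 1 ≤ Λ := by rw [hΛ]; exact one_le_pow₀ (by norm_num)
  have hn : (1000 : ℝ) ≤ P.card := by
    have h1 := h.big
    have h2 : ε * (P.card : ℝ) ≤ 1 / 1000 * P.card :=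
      mul_le_mul_of_nonneg_right hε (Nat.cast_nonneg _)
    linarith
  have hN : (300 : ℝ) ≤ C.card := by
    have h1 := h.clu_ge 2
    rw [← hC] at h1
    have h2 : (1 / 3 - 1 / 1000) * (P.card : ℝ) ≤ (1 / 3 - ε) * P.card :=
      mul_le_mul_of_nonneg_right (by linarith) (Nat.cast_nonneg _)
    linarith
  obtain ⟨c0, hc0, r, hr, hball, hmin⟩ := centre C X Y (by
    intro a ha b hb e1 e2
    rw [hC] at ha hb
    rw [hX] at e1
    rw [hY] at e2
    exact chart_inj h h01 h02 h12 ha hb e1.symm e2.symm) (δ := 1 / 10000) (by norm_num)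
    (by linarith)
  obtain ⟨t, ht, hann⟩ := annulus C (dd X Y c0) hr hball hI0
  obtain ⟨R, hR⟩ : ∃ R : ℝ, R = 2 ^ t * r := ⟨_, rfl⟩
  have hR0 : 0 < R := by rw [hR]; positivity
  have hR2 : (2 : ℝ) ^ (t + 1) * r = 2 * R := by rw [hR, pow_succ]; ring
  have hrR : r ≤ R := by
    rw [hR]
    have : (1 : ℝ) ≤ 2 ^ t := one_le_pow₀ (by norm_num)
    nlinarith
  have hRΛ : 2 * R ≤ Λ * r := by
    rw [← hR2, hΛ]
    exact mul_le_mul_of_nonneg_right (pow_le_pow_right₀ (by norm_num) ht) hr.le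
  rw [← hR, hR2] at hann
  obtain ⟨A, hA⟩ : ∃ A : Finset V, A = C.filter fun c => dd X Y c0 c ≤ R := ⟨_, rfl⟩
  obtain ⟨W, hW⟩ : ∃ W : Finset V, W = C.filter fun c => R < dd X Y c0 c ∧ dd X Y c0 c ≤ 2 * R :=
    ⟨_, rfl⟩
  obtain ⟨Z, hZ⟩ : ∃ Z : Finset V, Z = C.filter fun c => 2 * R < dd X Y c0 c := ⟨_, rfl⟩
  rw [← hW] at hann
  have hZsmall : (Z.card : ℝ) ≤ 1 / 10000 * C.card := by
    have h1 : Z.card + (C.filter fun c => dd X Y c0 c ≤ r).card ≤ C.card := by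
      rw [hZ, ← card_union_of_disjoint]
      · apply card_le_card
        intro x hx
        rcases mem_union.1 hx with hx | hx
        · exact (mem_filter.1 hx).1
        · exact (mem_filter.1 hx).1
      · rw [disjoint_left]
        intro x hx hx'
        have e1 := (mem_filter.1 hx).2
        have e2 := (mem_filter.1 hx').2
        linarith
    have h2 : (Z.card : ℝ) + ((C.filter fun c => dd X Y c0 c ≤ r).card : ℝ) ≤ C.card := by
      exact_mod_cast h1
    linarith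
  have hWsmall : (W.card : ℝ) ≤ δ / 100 * C.card := by
    refine hann.trans ?_
    have hIpos : (0 : ℝ) < I := by exact_mod_cast hI0
    rw [div_le_iff₀ hIpos]
    have h1 : 1 / 10000 ≤ δ / 100 * I := by
      rw [hδ]
      calc (1 / 10000 : ℝ) = 1 / 10 ^ 31 / 100 * 10 ^ 29 := by norm_num
        _ ≤ 1 / 10 ^ 31 / 100 * I := mul_le_mul_of_nonneg_left hI (by norm_num)
    have h2 : 1 / 10000 * (C.card : ℝ) ≤ δ / 100 * I * C.card :=
      mul_le_mul_of_nonneg_right h1 (Nat.cast_nonneg _)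
    linarith
  have hmin' : ∀ c ∈ C, ((C.filter fun c' => dd X Y c c' ≤ r / 2).card : ℝ) <
      (1 - 1 / 10000) * C.card := fun c hc => hmin c hc (r / 2) (by linarith)
  by_cases hbig : δ * C.card ≤ Z.card
  · -- case I
    obtain ⟨Z1, hZ1⟩ : ∃ Z1 : Finset V, Z1 = Z.filter fun z => |Y z - Y c0| ≤ |X z - X c0| :=
      ⟨_, rfl⟩
    obtain ⟨Z2, hZ2⟩ : ∃ Z2 : Finset V, Z2 = Z.filter fun z => ¬ |Y z - Y c0| ≤ |X z - X c0| :=
      ⟨_, rfl⟩
    have hZcard : (Z1.card : ℝ) + Z2.card = Z.card := by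
      have := card_filter_add_card_filter_not (s := Z) (fun z => |Y z - Y c0| ≤ |X z - X c0|)
      rw [hZ1, hZ2]
      exact_mod_cast this
    have hZu : Z1 ∪ Z2 = Z := by rw [hZ1, hZ2]; exact filter_union_filter_not_eq _ _
    have hZd : Disjoint Z1 Z2 := by rw [hZ1, hZ2]; exact disjoint_filter_filter_not _ _ _
    refine caseI h h01 h02 h12 (A := A) (Y := W) (Z1 := Z1) (Z2 := Z2) hδ0 (by linarith) hs1
      ?_ ?_ hZd ?_ ?_ ?_ ?_ ?_ ?_
    · rw [hZu, ← hC]
      ext x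
      simp only [hA, hW, hZ, mem_union, mem_filter]
      constructor
      · rintro ((hx | hx) | hx) <;> exact hx.1
      · intro hx
        by_cases e1 : dd X Y c0 x ≤ R
        · exact Or.inl (Or.inl ⟨hx, e1⟩)
        · by_cases e2 : dd X Y c0 x ≤ 2 * R
          · exact Or.inl (Or.inr ⟨hx, not_le.1 e1, e2⟩)
          · exact Or.inr ⟨hx, not_le.1 e2⟩
    · rw [hA, hW, disjoint_left]
      intro x hx hx'
      have e1 := (mem_filter.1 hx).2
      have e2 := (mem_filter.1 hx').2.1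
      linarith
    · rw [hZu, disjoint_left]
      intro x hx hx'
      rw [hZ] at hx'
      have e2 := (mem_filter.1 hx').2
      rcases mem_union.1 hx with hx | hx
      · rw [hA] at hx
        have e1 := (mem_filter.1 hx).2
        linarith
      · rw [hW] at hx
        have e1 := (mem_filter.1 hx).2.2
        linarith
    · rw [← hC]; exact hWsmall
    · rw [← hC, hZcard]; exact hbig
    · rw [← hC, hZcard]; exact hZsmall
    · intro z hz a ha
      rw [hZ1] at hz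
      obtain ⟨hz, hzy⟩ := mem_filter.1 hz
      rw [hZ] at hz
      obtain ⟨hzC, hzd⟩ := mem_filter.1 hz
      rw [hA] at ha
      obtain ⟨haC, had⟩ := mem_filter.1 ha
      have e1 : |X a - X c0| ≤ R := (le_max_left _ _).trans had
      have e2 : |Y a - Y c0| ≤ R := (le_max_right _ _).trans had
      have e3 : 2 * R < |X z - X c0| := by
        unfold dd at hzd
        rwa [max_eq_left hzy] at hzd
      rw [hX] at e1 e3 hzy
      rw [hY] at e2 hzy
      rw [hC] at hzC haC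
      exact frame_sep h h01.symm h12 h02 hzC haC hR0 e2 e1 e3 hzy
    · intro z hz a ha
      rw [hZ2] at hz
      obtain ⟨hz, hzy⟩ := mem_filter.1 hz
      rw [hZ] at hz
      obtain ⟨hzC, hzd⟩ := mem_filter.1 hz
      rw [hA] at ha
      obtain ⟨haC, had⟩ := mem_filter.1 ha
      have e1 : |X a - X c0| ≤ R := (le_max_left _ _).trans had
      have e2 : |Y a - Y c0| ≤ R := (le_max_right _ _).trans had
      have hzy' := (not_le.1 hzy).le
      have e3 : 2 * R < |Y z - Y c0| := by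
        unfold dd at hzd
        rwa [max_eq_right hzy'] at hzd
      rw [hX] at e1 hzy'
      rw [hY] at e2 e3 hzy'
      rw [hC] at hzC haC
      exact frame_sep h h01 h02 h12 hzC haC hR0 e1 e2 e3 hzy'
  · -- case II
    have hfar : ((C.filter fun c => Λ * r < dd X Y c0 c).card : ℝ) ≤ δ * C.card := by
      have h1 : (C.filter fun c => Λ * r < dd X Y c0 c).card ≤ Z.card := by
        rw [hZ]
        apply card_le_card
        intro x hx
        rw [mem_filter] at hx ⊢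
        exact ⟨hx.1, by linarith [hx.2]⟩
      have h2 : ((C.filter fun c => Λ * r < dd X Y c0 c).card : ℝ) ≤ Z.card := by
        exact_mod_cast h1
      have h3 := not_le.1 hbig
      linarith
    have hm1 : 1 ≤ ((10 ^ 31 : ℕ) : ℝ) * δ := by
      rw [hδ]
      push_cast
      norm_num
    have hm2 : ((10 ^ 31 : ℕ) : ℝ) * δ ≤ 2 := by
      rw [hδ]
      push_cast
      norm_num
    rw [hX, hY, hC] at hmin'
    have hmin'' : ∀ c ∈ clu P ε 2, (((clu P ε 2).filter fun c' =>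
      dd (fun x => x 1 / x 2) (fun x => x 0 / x 2) c c' ≤ r / 2).card : ℝ) <
        (1 - 1 / 10000) * (clu P ε 2).card := by
      intro c hc
      refine lt_of_le_of_lt ?_ (hmin' c hc)
      apply le_of_eq
      congr 2
      ext c'
      unfold dd
      simp only [max_comm]
    rw [hX, hY, hC] at hfar
    rw [hC] at hc0
    rcases strip h h01 h02 h12 hc0 hr hΛ1 hδ1 hs3 hmin' hfar with ⟨c1, hc1, hS⟩ | ⟨c1, hc1, hS⟩
    · obtain ⟨A', B', hA', hB', hA1, hB1, hrest, hsep⟩ :=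
        twosets h h01 h02 h12 hr hΛ1 hδ0 hδ1 hs3 hm1 hm2 hmin' hc1 hS
      rw [hδ] at hrest
      exact caseII h h01 h02 h12 hs2 hA' hB' hA1 hB1 hrest hsep
    · obtain ⟨A', B', hA', hB', hA1, hB1, hrest, hsep⟩ :=
        twosets h h01.symm h12 h02 hr hΛ1 hδ0 hδ1 hs3 hm1 hm2 hmin'' hc1 hS
      rw [hδ] at hrest
      exact caseII h h01.symm h12 h02 hs2 hA' hB' hA1 hB1 hrest hsep

theorem frame_case : ∃ ε0 : ℝ, 0 < ε0 ∧ ∀ (P : Finset V) (ε : ℝ), Fr P ε → ε ≤ ε0 → False := by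
  obtain ⟨I, hI⟩ := exists_nat_ge ((10 : ℝ) ^ 29)
  obtain ⟨Λ, hΛ⟩ : ∃ Λ : ℝ, Λ = 2 ^ I := ⟨_, rfl⟩
  obtain ⟨δ, hδ⟩ : ∃ δ : ℝ, δ = 1 / 10 ^ 31 := ⟨_, rfl⟩
  have hΛ0 : 0 < Λ := by rw [hΛ]; positivity
  have hδ0 : 0 < δ := by rw [hδ]; positivity
  obtain ⟨σ, hσ⟩ : ∃ σ : ℝ, σ = min (δ ^ 2 / 100000) (min (1 / 10 ^ 34) (δ / (1000 * Λ))) :=
    ⟨_, rfl⟩
  have hσ0 : 0 < σ := by
    rw [hσ]
    refine lt_min (by positivity) (lt_min (by positivity) (by positivity))
  have h1 : σ ≤ δ ^ 2 / 100000 := by rw [hσ]; exact min_le_left _ _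
  have h2 : σ ≤ 1 / 10 ^ 34 := by rw [hσ]; exact (min_le_right _ _).trans (min_le_left _ _)
  have h3 : σ ≤ δ / (1000 * Λ) := by rw [hσ]; exact (min_le_right _ _).trans (min_le_right _ _)
  refine ⟨σ ^ 2, by positivity, ?_⟩
  intro P ε h hε
  have hs : Real.sqrt ε ≤ σ := Real.sqrt_le_iff.2 ⟨hσ0.le, hε⟩
  refine frame_core h hδ hI hΛ (hs.trans h1) (hs.trans h2) ?_
  have h4 := hs.trans h3
  rw [le_div_iff₀ (by positivity)] at h4
  linarith

end Pool.Agent.H89.DR
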