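import Pool.Agent.H89.DR.BrB
import Pool.Agent.H89.DR.Frame
import Pool.Agent.H47.DR.GoodMono

/-!
# Module BrC (about 100 lines): the frame case for `Cfg`, `Good`, `Clu`

Let `ε0` be as in `frame_case`, `ε = min ε0 (1/1000)`, `d = ε^2 / 2` (so `d ≤ ε` as `ε ≤ 1`), and apply
`frame_case` to `im C e univ` and `ε`:
* `big`: `1 ≤ d n ≤ ε n` (`g6`, `im_card`).
* `clu_ge`: `im C e (P a) ⊆ clu (im C e univ) ε a`: for `i ∈ P a` and `x = ip (u i) (e a)`:
  `|x| ≥ 1 - d`, so `x^2 ≥ 1 - 2 d = 1 - ε^2`; `#P a ≥ n/3 - d n ≥ (1/3 - ε) n`.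
* `sumQ`: `sum_lines_im`, `Q_im`, `g3`; `deg_le`: `deg_im`, `g1` (a point of the image is
  `co e (C.u i)`); `line_le`: `lines_im`, `im_card`, `g4`; `sum_deg`: `sum_im`, `deg_im`, `g2`.
-/

set_option autoImplicit false

namespace Pool.Agent.H89.DR

open Finset Classical
open H47.DR (E ip Cfg Good Clu)

theorem frame_cfg : ∃ d : ℝ, 0 < d ∧ ∀ (n : ℕ) (C : Cfg n) (e : Fin 3 → E)
    (P : Fin 3 → Finset (Fin n)), Good C d → Clu C e P d → False := by
  obtain ⟨ε0, hε0, hfr⟩ := frame_case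
  set ε : ℝ := min ε0 (1 / 1000) with hε
  have hpos : 0 < ε := lt_min hε0 (by norm_num)
  have hle0 : ε ≤ ε0 := min_le_left _ _
  have hle1 : ε ≤ 1 / 1000 := min_le_right _ _
  have hdε : ε ^ 2 / 2 ≤ ε := by nlinarith
  refine ⟨ε ^ 2 / 2, by positivity, ?_⟩
  intro n C e P hG hC
  have he : ONF e := hC.frame
  have hG' := hG.mono hdε
  have hn : (0 : ℝ) ≤ n := Nat.cast_nonneg n
  have hcard : ((im C e univ).card : ℝ) = n := by
    rw [im_card he C, card_univ, Fintype.card_fin]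
  refine hfr (im C e univ) ε ⟨conf_im he C, hpos, hle1, ?_, ?_, ?_, ?_, ?_, ?_⟩ hle0
  · rw [hcard]
    exact hG'.g6
  · intro a
    rw [hcard]
    have h1 : im C e (P a) ⊆ clu (im C e univ) ε a := by
      intro p hp
      unfold clu
      rw [mem_filter]
      refine ⟨im_subset C e (subset_univ _) hp, ?_⟩
      unfold im at hp
      rw [mem_image] at hp
      obtain ⟨i, hi, rfl⟩ := hp
      have h2 := hC.near a i hi
      have h3 : co e (C.u i) a = ip (C.u i) (e a) := rfl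
      rw [h3, ← sq_abs (ip (C.u i) (e a))]
      have h4 : 0 ≤ 1 - ε ^ 2 / 2 := by nlinarith
      have h5 : (1 - ε ^ 2 / 2) ^ 2 ≤ |ip (C.u i) (e a)| ^ 2 := pow_le_pow_left₀ h4 h2 2
      nlinarith [sq_nonneg (ε ^ 2)]
    have h6 := card_le_card h1
    rw [im_card he C] at h6
    have h7 : ((P a).card : ℝ) ≤ ((clu (im C e univ) ε a).card : ℝ) := by exact_mod_cast h6
    have h8 := (abs_le.1 (hC.card a)).1
    have h9 : ε ^ 2 / 2 * (n : ℝ) ≤ ε * n := mul_le_mul_of_nonneg_right hdε hn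
    linarith
  · rw [hcard, sum_lines_im he C]
    simp only [Q_im he C]
    exact hG'.g3
  · intro p hp
    rw [hcard]
    unfold im at hp
    rw [mem_image] at hp
    obtain ⟨i, _, rfl⟩ := hp
    have h := deg_im he C i
    rw [h]
    exact hG'.g1 i
  · intro l hl
    rw [hcard]
    rw [lines_im he C, mem_image] at hl
    obtain ⟨l', hl', rfl⟩ := hl
    rw [im_card he C]
    exact hG'.g4 l' hl'
  · rw [hcard, sum_im he C]
    simp only [deg_im he C]
    have h := hG'.g2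
    have h2 : 0 ≤ ε * (n : ℝ) ^ 2 := by positivity
    linarith

end Pool.Agent.H89.DR
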