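import Pool.Agent.H23.DR.Out
import Pool.Agent.H89.DR.BrC
import Pool.Agent.H47.DR.Final

/-!
# Assembly: a point on at least `(1/3 + eps) n` connecting lines

`noGood`: near extremal configurations do not exist, from the limit block (`frame_limit`, helper23)
and the frame case (`frame_cfg`). `dirac`: the theorem, with `H47.DR.final`.
-/

set_option autoImplicit false

namespace Pool.Agent.H89.DR

open Finset
open H47.DR (E ip Cfg Good Clu)
open Pool.Agent.H23.DR (SeqG)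

theorem noGood : ∃ ε : ℝ, 0 < ε ∧ ∀ (n : ℕ) (C : Cfg n), ¬ Good C ε := by
  obtain ⟨d, hd, hF⟩ := frame_cfg
  by_contra hcon
  push Not at hcon
  have hm : ∀ m : ℕ, ∃ (n : ℕ) (C : Cfg n), Good C (1 / ((m : ℝ) + 1)) := fun m =>
    hcon (1 / ((m : ℝ) + 1)) (by positivity)
  choose N C hC using hm
  obtain ⟨m, hmd, e, P, hclu⟩ := Pool.Agent.H23.DR.frame_limit ⟨N, C, hC⟩ d hd
  exact hF (N m) (C m) e P ((hC m).mono hmd) hclu

theorem dirac : ∃ ε : ℝ, 0 < ε ∧ ∀ S : Finset (EuclideanSpace ℝ (Fin 2)),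
    ¬ Collinear ℝ (S : Set (EuclideanSpace ℝ (Fin 2))) →
      ∃ p ∈ S, (1 / 3 + ε) * (S.card : ℝ) ≤
        (({L : AffineSubspace ℝ (EuclideanSpace ℝ (Fin 2)) |
            ∃ q ∈ S, q ≠ p ∧ L = affineSpan ℝ {p, q}}.ncard : ℕ) : ℝ) :=
  H47.DR.final noGood

end Pool.Agent.H89.DR
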