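import Pool.Agent.H89.DR.Defs
import Pool.Agent.H47.DR.LSb
import Pool.Agent.H47.DR.Ang

/-!
# Module BrA (about 130 lines): coordinates in an orthonormal frame, the bridge to `H47.DR.Cfg`

`co e x` are the coordinates of `x` in the frame `e`; `im C e A` is the finite set of the coordinate
vectors of the points of `A`.

* `dot_co`: the orthonormal family `e` of three vectors is an orthonormal basis (`Orthonormal`,
  `orthonormal_iff_ite`, `OrthonormalBasis.mk` with `LinearIndependent` and the dimension, or
  `basisOfOrthonormalOfCardEqFinrank`), then `OrthonormalBasis.sum_inner_mul_inner`.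
* `co_inj`: if `co e (C.u i) = co e (C.u j)` then `ip (C.u i) (C.u j) = dot .. = 1`, so `i = j` by
  `C.indep`.
* `co_surj`: take `∑ a, w a • e a`.
* `im_card`, `im_inter`, `im_subset`: images under an injective map (`card_image_of_injective`,
  `image_inter`).
* `sum_im`: `sum_image`.
* `crq_co`: Lagrange: `crq a b = dot a a * dot b b - dot a b ^ 2` (`ring` after unfolding).
-/

set_option autoImplicit false

namespace Pool.Agent.H89.DR

open Finset Classical
open H47.DR (E ip Cfg)

variable {n : ℕ}

/-- `e` is an orthonormal frame -/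
def ONF (e : Fin 3 → E) : Prop := ∀ a b, ip (e a) (e b) = if a = b then 1 else 0

/-- coordinates in the frame `e` -/
noncomputable def co (e : Fin 3 → E) (x : E) : V := fun a => ip x (e a)

/-- the coordinate vectors of the points of `A` -/
noncomputable def im (C : Cfg n) (e : Fin 3 → E) (A : Finset (Fin n)) : Finset V :=
  A.image fun i => co e (C.u i)

private theorem BrA_ob {e : Fin 3 → E} (he : ONF e) :
    ∃ b : OrthonormalBasis (Fin 3) ℝ E, ∀ a, b a = e a := by
  have ho : Orthonormal ℝ e := by
    rw [orthonormal_iff_ite]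
    exact he
  have h3 : Fintype.card (Fin 3) = Module.finrank ℝ E := by simp
  refine ⟨(basisOfOrthonormalOfCardEqFinrank ho h3).toOrthonormalBasis (by
    rw [coe_basisOfOrthonormalOfCardEqFinrank]; exact ho), fun a => ?_⟩
  simp

theorem dot_co {e : Fin 3 → E} (he : ONF e) (x y : E) : dot (co e x) (co e y) = ip x y := by
  obtain ⟨b, hb⟩ := BrA_ob he
  have h := b.sum_inner_mul_inner x y
  rw [Fin.sum_univ_three] at h
  simp only [hb] at h
  rw [real_inner_comm y (e 0), real_inner_comm y (e 1), real_inner_comm y (e 2)] at h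
  exact h

theorem co_surj {e : Fin 3 → E} (he : ONF e) (w : V) : ∃ x : E, co e x = w := by
  refine ⟨∑ a, w a • e a, ?_⟩
  funext c
  unfold co
  show inner ℝ (∑ a, w a • e a) (e c) = w c
  rw [sum_inner]
  have h : ∀ a, inner ℝ (w a • e a) (e c) = w a * (if a = c then 1 else 0) := by
    intro a
    rw [real_inner_smul_left]
    exact congrArg _ (he a c)
  simp only [h]
  simp

theorem co_inj {e : Fin 3 → E} (he : ONF e) (C : Cfg n) :
    Function.Injective fun i => co e (C.u i) := by
  intro i j hij
  have hij' : co e (C.u i) = co e (C.u j) := hij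
  by_contra hne
  have h1 := C.indep i j hne
  have h2 := dot_co he (C.u i) (C.u j)
  rw [← hij', dot_co he] at h2
  have h3 : ip (C.u i) (C.u i) = 1 := by
    show inner ℝ (C.u i) (C.u i) = 1
    rw [real_inner_self_eq_norm_sq, C.unit i]
    norm_num
  rw [← h2, h3] at h1
  simp at h1

theorem im_inj {e : Fin 3 → E} (he : ONF e) (C : Cfg n) :
    Function.Injective fun A => im C e A :=
  Finset.image_injective (co_inj he C)

theorem im_card {e : Fin 3 → E} (he : ONF e) (C : Cfg n) (A : Finset (Fin n)) :
    (im C e A).card = A.card :=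
  card_image_of_injective A (co_inj he C)

theorem im_inter {e : Fin 3 → E} (he : ONF e) (C : Cfg n) (A B : Finset (Fin n)) :
    im C e A ∩ im C e B = im C e (A ∩ B) :=
  (image_inter A B (co_inj he C)).symm

theorem im_subset (C : Cfg n) (e : Fin 3 → E) {A B : Finset (Fin n)} (h : A ⊆ B) :
    im C e A ⊆ im C e B :=
  image_subset_image h

theorem mem_im {e : Fin 3 → E} (he : ONF e) (C : Cfg n) (A : Finset (Fin n)) (i : Fin n) :
    co e (C.u i) ∈ im C e A ↔ i ∈ A := by
  unfold im
  rw [mem_image]
  constructor
  · rintro ⟨j, hj, h⟩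
    rw [← co_inj he C h]
    exact hj
  · intro h
    exact ⟨i, h, rfl⟩

theorem sum_im {e : Fin 3 → E} (he : ONF e) (C : Cfg n) (A : Finset (Fin n)) (f : V → ℝ) :
    ∑ p ∈ im C e A, f p = ∑ i ∈ A, f (co e (C.u i)) := by
  unfold im
  exact sum_image fun i _ j _ h => co_inj he C h

private theorem BrA_unit {e : Fin 3 → E} (he : ONF e) (C : Cfg n) (i : Fin n) :
    dot (co e (C.u i)) (co e (C.u i)) = 1 := by
  rw [dot_co he]
  show inner ℝ (C.u i) (C.u i) = 1
  rw [real_inner_self_eq_norm_sq, C.unit i]
  norm_num

theorem conf_im {e : Fin 3 → E} (he : ONF e) (C : Cfg n) : Conf (im C e univ) := by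
  refine ⟨?_, ?_⟩
  · intro p hp
    unfold im at hp
    rw [mem_image] at hp
    obtain ⟨i, _, rfl⟩ := hp
    exact BrA_unit he C i
  · intro p hp q hq hpq
    unfold im at hp hq
    rw [mem_image] at hp hq
    obtain ⟨i, _, rfl⟩ := hp
    obtain ⟨j, _, rfl⟩ := hq
    have hij : i ≠ j := by
      rintro rfl
      exact hpq rfl
    have h1 := C.indep i j hij
    have h2 := BrA_unit he C i
    have h3 := BrA_unit he C j
    have h4 := dot_co he (C.u i) (C.u j)
    have key : crq (co e (C.u i)) (co e (C.u j)) =
        dot (co e (C.u i)) (co e (C.u i)) * dot (co e (C.u j)) (co e (C.u j)) -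
          dot (co e (C.u i)) (co e (C.u j)) ^ 2 := by
      unfold crq dot
      ring
    rw [key, h2, h3, h4]
    have h5 : ip (C.u i) (C.u j) ^ 2 < 1 := by
      rw [← sq_abs]
      have := abs_nonneg (ip (C.u i) (C.u j))
      nlinarith
    linarith

theorem Q_im {e : Fin 3 → E} (he : ONF e) (C : Cfg n) (l : Finset (Fin n)) :
    Q (im C e l) = C.T l := by
  unfold Q H47.DR.Cfg.T
  rw [sum_im he C l]
  apply sum_congr rfl
  intro i _
  rw [sum_im he C l]
  apply sum_congr rfl
  intro j _
  rw [dot_co he]

end Pool.Agent.H89.DR
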