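import Pool.Agent.H89.DR.BrA

/-!
# Module BrB (about 130 lines): the lines of the image are the images of the lines

* `line_im`: let `l` be the line `C.ln i j` (`i ≠ j`) and `ν` its normal (`C.nu`), `w = co e ν`, so
  `dot w (co e (C.u k)) = 0 ↔ k ∈ l`. The vectors `p = co e (C.u i)`, `q = co e (C.u j)` are
  independent (`0 < crq p q`), both orthogonal to `w`, so `crs p q = c • w` with `c ≠ 0` (a vector
  orthogonal to `p` and `q` is a multiple of `crs p q`: `crq p q • w = dot w (crs p q) • crs p q`
  modulo `dot w p`, `dot w q`, by `ring`), and `det p q t = dot (crs p q) t`. So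
  `det p q t = 0 ↔ dot w t = 0`.
* `lines_im`: `⊆` by `line_im` with `C.ln_mem`; `⊇`: a line `l ∈ C.L` has two points `i ≠ j`
  (`C.two`, `one_lt_card`) and `l = C.ln i j` (`ln_eq`).
* `sum_lines_im`: `sum_image` with `im_inj`.
* `deg_im`: `thru` is the image of `C.L.filter (i ∈ ·)` (`mem_im`).
-/

set_option autoImplicit false

namespace Pool.Agent.H89.DR

open Finset Classical
open H47.DR (E ip Cfg)

variable {n : ℕ}

private theorem BrB_det {w p q : V} (hw : dot w w = 1) (hwp : dot w p = 0) (hwq : dot w q = 0)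
    (h : 0 < crq p q) (t : V) : det p q t = 0 ↔ dot w t = 0 := by
  have h1 : crq p q = det w p q ^ 2 := by
    have key : dot w w * crq p q - det w p q ^ 2 =
        dot w q ^ 2 * dot p p - 2 * dot p q * dot w p * dot w q + dot w p ^ 2 * dot q q := by
      simp only [det, dot, crq]; ring
    rw [hw, hwp, hwq] at key
    linarith
  have h2 : det p q t = dot w t * det w p q := by
    have key : dot w w * det p q t = dot w t * det w p q + dot w q * det t p w -
        dot w p * det t q w := by
      simp only [det, dot]; ring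
    rw [hw, hwp, hwq] at key
    linarith
  have h3 : det w p q ≠ 0 := by
    intro h0
    rw [h0] at h1
    norm_num at h1
    exact h.ne' h1
  rw [h2]
  constructor
  · intro h4
    rcases mul_eq_zero.1 h4 with h5 | h5
    · exact h5
    · exact absurd h5 h3
  · intro h4; rw [h4, zero_mul]

private theorem BrB_mem {e : Fin 3 → E} (C : Cfg n) {t : V} {A : Finset (Fin n)} :
    t ∈ im C e A ↔ ∃ k ∈ A, co e (C.u k) = t := by
  unfold im
  rw [mem_image]

theorem line_im {e : Fin 3 → E} (he : ONF e) (C : Cfg n) {i j : Fin n} (hij : i ≠ j) :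
    line (im C e univ) (co e (C.u i)) (co e (C.u j)) = im C e (C.ln i j) := by
  have hl := C.ln_mem hij
  obtain ⟨ν, hν, hν'⟩ := C.nu _ hl
  have hw : dot (co e ν) (co e ν) = 1 := by
    rw [dot_co he]
    simp only [ip]
    rw [real_inner_self_eq_norm_sq, hν]; norm_num
  have hk : ∀ k, dot (co e ν) (co e (C.u k)) = 0 ↔ k ∈ C.ln i j := by
    intro k
    rw [dot_co he, hν' k]
    simp only [ip]
    rw [real_inner_comm]
  have hp : co e (C.u i) ∈ im C e univ := (mem_im he C univ i).2 (mem_univ _)
  have hq : co e (C.u j) ∈ im C e univ := (mem_im he C univ j).2 (mem_univ _)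
  have hne : co e (C.u i) ≠ co e (C.u j) := fun h => hij (co_inj he C h)
  have hc : 0 < crq (co e (C.u i)) (co e (C.u j)) := (conf_im he C).ind _ hp _ hq hne
  have hd := BrB_det hw ((hk i).2 (C.left_mem hij)) ((hk j).2 (C.right_mem hij)) hc
  ext t
  unfold line
  rw [mem_filter, hd t]
  constructor
  · rintro ⟨h1, h2⟩
    obtain ⟨k, _, rfl⟩ := (BrB_mem C).1 h1
    exact (mem_im he C _ k).2 ((hk k).1 h2)
  · intro h1
    obtain ⟨k, h2, rfl⟩ := (BrB_mem C).1 h1
    exact ⟨(mem_im he C univ k).2 (mem_univ _), (hk k).2 h2⟩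

theorem lines_im {e : Fin 3 → E} (he : ONF e) (C : Cfg n) :
    lines (im C e univ) = C.L.image fun l => im C e l := by
  ext L
  unfold lines
  rw [mem_image, mem_image]
  constructor
  · rintro ⟨⟨a, b⟩, hab, rfl⟩
    rw [mem_filter, mem_product] at hab
    obtain ⟨⟨ha, hb⟩, hne⟩ := hab
    obtain ⟨i, _, hi⟩ := (BrB_mem C).1 ha
    obtain ⟨j, _, hj⟩ := (BrB_mem C).1 hb
    have hij : i ≠ j := by
      rintro rfl
      exact hne (hi.symm.trans hj)
    refine ⟨C.ln i j, C.ln_mem hij, ?_⟩
    rw [← line_im he C hij, hi, hj]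
  · rintro ⟨l, hl, rfl⟩
    obtain ⟨i, hi, j, hj, hij⟩ := Finset.one_lt_card.1 (C.two l hl)
    refine ⟨(co e (C.u i), co e (C.u j)), ?_, ?_⟩
    · rw [mem_filter, mem_product]
      refine ⟨⟨(mem_im he C univ i).2 (mem_univ _), (mem_im he C univ j).2 (mem_univ _)⟩, ?_⟩
      exact fun h => hij (co_inj he C h)
    · change line (im C e univ) (co e (C.u i)) (co e (C.u j)) = im C e l
      rw [line_im he C hij, C.ln_eq hl hij hi hj]

theorem sum_lines_im {e : Fin 3 → E} (he : ONF e) (C : Cfg n) (f : Finset V → ℝ) :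
    ∑ l ∈ lines (im C e univ), f l = ∑ l ∈ C.L, f (im C e l) := by
  rw [lines_im he C, sum_image]
  intro a _ b _ hab
  exact im_inj he C hab

theorem deg_im {e : Fin 3 → E} (he : ONF e) (C : Cfg n) (i : Fin n) :
    deg (im C e univ) (co e (C.u i)) = C.deg i := by
  unfold deg thru H47.DR.LS.deg
  rw [lines_im he C, filter_image, card_image_of_injective _ (im_inj he C)]
  refine congrArg Finset.card (filter_congr (fun l _ => ?_))
  exact mem_im he C l i

end Pool.Agent.H89.DR
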