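import Pool.Agent.H89.DR.BrB
import Pool.Agent.H89.DR.LemD

/-!
# Module BrD (about 80 lines): Lemma D (halving) for `Cfg`

`a0`, `a1` are two orthonormal vectors. Complete them to an orthonormal frame `e = ![a0, a1, a2]`
(`exists_onf`: e.g. the orthogonal complement of their span has dimension 1, or take the cross
product of the coordinates) and apply `lemD` to `im C e univ`, `im C e C1`, .., `v = ![0, 0, 1]` and
any `g' : V → ℝ` with `g' (co e (C.u i)) = g i` (`Function.Injective.extend_apply`, `co_inj`):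
`det ![0,0,1] p q = p 0 * q 1 - p 1 * q 0`. The sums over lines are transported by `sum_lines_im`,
`im_inter`, `im_card`; the line of the conclusion by `lines_im`.
-/

set_option autoImplicit false

namespace Pool.Agent.H89.DR

open Finset Classical
open H47.DR (E ip Cfg)

variable {n : ℕ}

theorem exists_onf {a0 a1 : E} (h0 : ip a0 a0 = 1) (h1 : ip a1 a1 = 1) (h01 : ip a0 a1 = 0) :
    ∃ a2 : E, ONF ![a0, a1, a2] := by
  have hip : ∀ x y : E, ip x y = x 0 * y 0 + x 1 * y 1 + x 2 * y 2 := by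
    intro x y
    simp only [PiLp.inner_apply, Fin.sum_univ_three, RCLike.inner_apply, conj_trivial]
    ring
  rw [hip] at h0 h1 h01
  refine ⟨WithLp.toLp 2 ![a0 1 * a1 2 - a0 2 * a1 1, a0 2 * a1 0 - a0 0 * a1 2,
    a0 0 * a1 1 - a0 1 * a1 0], ?_⟩
  have e22 : (a0 1 * a1 2 - a0 2 * a1 1) * (a0 1 * a1 2 - a0 2 * a1 1) +
      (a0 2 * a1 0 - a0 0 * a1 2) * (a0 2 * a1 0 - a0 0 * a1 2) +
      (a0 0 * a1 1 - a0 1 * a1 0) * (a0 0 * a1 1 - a0 1 * a1 0) = 1 := by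
    have : (a0 1 * a1 2 - a0 2 * a1 1) * (a0 1 * a1 2 - a0 2 * a1 1) +
      (a0 2 * a1 0 - a0 0 * a1 2) * (a0 2 * a1 0 - a0 0 * a1 2) +
      (a0 0 * a1 1 - a0 1 * a1 0) * (a0 0 * a1 1 - a0 1 * a1 0) =
      (a0 0 * a0 0 + a0 1 * a0 1 + a0 2 * a0 2) * (a1 0 * a1 0 + a1 1 * a1 1 + a1 2 * a1 2) -
      (a0 0 * a1 0 + a0 1 * a1 1 + a0 2 * a1 2) ^ 2 := by ring
    rw [this, h0, h1, h01]
    norm_num
  intro a b
  fin_cases a <;> fin_cases b
  · change ip a0 a0 = 1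
    rw [hip, h0]
  · simpa [hip] using h01
  · simp [hip]
    ring
  · simp [hip]
    linarith
  · change ip a1 a1 = 1
    rw [hip, h1]
  · simp [hip]
    ring
  · simp [hip]
    ring
  · simp [hip]
    ring
  · change ip (WithLp.toLp 2 ![a0 1 * a1 2 - a0 2 * a1 1, a0 2 * a1 0 - a0 0 * a1 2,
      a0 0 * a1 1 - a0 1 * a1 0] : E) (WithLp.toLp 2 ![a0 1 * a1 2 - a0 2 * a1 1,
      a0 2 * a1 0 - a0 0 * a1 2, a0 0 * a1 1 - a0 1 * a1 0] : E) = 1
    rw [hip]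
    exact e22

/-- Lemma D: three classes of points which follow each other in one half turn around the axis
orthogonal to `a0` and `a1` (the signs `g` make representatives of the points). -/
theorem lemD_cfg (C : Cfg n) {C1 C2 C3 : Finset (Fin n)} {a0 a1 : E} (h0 : ip a0 a0 = 1)
    (h1 : ip a1 a1 = 1) (h01 : ip a0 a1 = 0) (g : Fin n → ℝ)
    (o12 : ∀ i ∈ C1, ∀ j ∈ C2, 0 < g i * g j *
      (ip (C.u i) a0 * ip (C.u j) a1 - ip (C.u i) a1 * ip (C.u j) a0))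
    (o13 : ∀ i ∈ C1, ∀ j ∈ C3, 0 < g i * g j *
      (ip (C.u i) a0 * ip (C.u j) a1 - ip (C.u i) a1 * ip (C.u j) a0))
    (o23 : ∀ i ∈ C2, ∀ j ∈ C3, 0 < g i * g j *
      (ip (C.u i) a0 * ip (C.u j) a1 - ip (C.u i) a1 * ip (C.u j) a0))
    {κ : ℝ} (hκ : 0 < κ) (hκ' : κ ≤ 1 / 40) (hN1 : 0 < C1.card) (hN2 : 4 ≤ C2.card)
    (hN3 : 0 < C3.card)
    (H1 : ∑ l ∈ C.L, ((l ∩ C1).card : ℝ) *
      |((l ∩ C2).card : ℝ) / C2.card - ((l ∩ C3).card : ℝ) / C3.card| ≤ κ ^ 2 * C1.card)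
    (H2 : ∑ l ∈ C.L, ((l ∩ C2).card : ℝ) *
      |((l ∩ C1).card : ℝ) / C1.card - ((l ∩ C3).card : ℝ) / C3.card| ≤ κ ^ 2 * C2.card)
    (H3 : ∑ l ∈ C.L, ((l ∩ C3).card : ℝ) *
      |((l ∩ C1).card : ℝ) / C1.card - ((l ∩ C2).card : ℝ) / C2.card| ≤ κ ^ 2 * C3.card) :
    ∃ l ∈ C.L, (1 - κ) * C1.card ≤ ((l ∩ C1).card : ℝ) ∧
      (1 - 9 * κ) * C2.card ≤ ((l ∩ C2).card : ℝ) ∧
      (1 - 10 * κ) * C3.card ≤ ((l ∩ C3).card : ℝ) := by
  obtain ⟨a2, he⟩ := exists_onf h0 h1 h01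
  have hinj := co_inj he C
  let g' : V → ℝ := Function.extend (fun i => co ![a0, a1, a2] (C.u i)) g 0
  have hg : ∀ i, g' (co ![a0, a1, a2] (C.u i)) = g i := fun i => hinj.extend_apply g 0 i
  have hdet : ∀ i j, det ![0, 0, 1] (co ![a0, a1, a2] (C.u i)) (co ![a0, a1, a2] (C.u j)) =
      ip (C.u i) a0 * ip (C.u j) a1 - ip (C.u i) a1 * ip (C.u j) a0 := by
    intro i j
    simp [det, co]
  have key : ∀ A B : Finset (Fin n), (∀ i ∈ A, ∀ j ∈ B, 0 < g i * g j *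
      (ip (C.u i) a0 * ip (C.u j) a1 - ip (C.u i) a1 * ip (C.u j) a0)) →
      ∀ a ∈ im C ![a0, a1, a2] A, ∀ b ∈ im C ![a0, a1, a2] B,
        0 < g' a * g' b * det ![0, 0, 1] a b := by
    intro A B h a ha b hb
    unfold im at ha hb
    obtain ⟨i, hi, rfl⟩ := Finset.mem_image.1 ha
    obtain ⟨j, hj, rfl⟩ := Finset.mem_image.1 hb
    rw [hg, hg, hdet]
    exact h i hi j hj
  have hsum : ∀ A B D : Finset (Fin n), ∑ l ∈ lines (im C ![a0, a1, a2] univ),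
      ((l ∩ im C ![a0, a1, a2] A).card : ℝ) *
      |((l ∩ im C ![a0, a1, a2] B).card : ℝ) / (im C ![a0, a1, a2] B).card -
        ((l ∩ im C ![a0, a1, a2] D).card : ℝ) / (im C ![a0, a1, a2] D).card| =
      ∑ l ∈ C.L, ((l ∩ A).card : ℝ) *
        |((l ∩ B).card : ℝ) / B.card - ((l ∩ D).card : ℝ) / D.card| := by
    intro A B D
    rw [sum_lines_im he C]
    simp only [im_inter he, im_card he]
  obtain ⟨l, hl, q1, q2, q3⟩ := lemD (conf_im he C) (im_subset C _ (Finset.subset_univ C1))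
    (im_subset C _ (Finset.subset_univ C2)) (im_subset C _ (Finset.subset_univ C3)) ![0, 0, 1] g'
    (key C1 C2 o12) (key C1 C3 o13) (key C2 C3 o23) hκ hκ' (by rw [im_card he]; exact hN1)
    (by rw [im_card he]; exact hN2) (by rw [im_card he]; exact hN3)
    (by rw [hsum, im_card he]; exact H1) (by rw [hsum, im_card he]; exact H2)
    (by rw [hsum, im_card he]; exact H3)
  rw [lines_im he C] at hl
  obtain ⟨m, hm, rfl⟩ := Finset.mem_image.1 hl
  simp only [im_inter he, im_card he] at q1 q2 q3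
  exact ⟨m, hm, q1, q2, q3⟩

end Pool.Agent.H89.DR
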