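import Mathlib

/-!
# Dirac's problem, the constant `1/3 + eps`: definitions

Points of the projective plane are unit vectors of `V = Fin 3 → ℝ`; a configuration is a finite set
of pairwise independent unit vectors; its connecting lines are the sets of its points in a plane
spanned by two of them.
-/

set_option autoImplicit false

namespace Pool.Agent.H89.DR

open Finset

/-- real three-space -/
abbrev V := Fin 3 → ℝ

/-- the standard inner product -/
def dot (a b : V) : ℝ := a 0 * b 0 + a 1 * b 1 + a 2 * b 2

/-- the cross product -/
def crs (a b : V) : V :=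
  ![a 1 * b 2 - a 2 * b 1, a 2 * b 0 - a 0 * b 2, a 0 * b 1 - a 1 * b 0]

/-- the determinant with rows `a`, `b`, `c` -/
def det (a b c : V) : ℝ :=
  a 0 * (b 1 * c 2 - b 2 * c 1) + a 1 * (b 2 * c 0 - b 0 * c 2) + a 2 * (b 0 * c 1 - b 1 * c 0)

/-- squared length of the cross product -/
def crq (a b : V) : ℝ :=
  (a 1 * b 2 - a 2 * b 1) ^ 2 + (a 2 * b 0 - a 0 * b 2) ^ 2 + (a 0 * b 1 - a 1 * b 0) ^ 2

/-- a configuration: pairwise independent unit vectors -/
structure Conf (P : Finset V) : Prop where
  unit : ∀ p ∈ P, dot p p = 1
  ind : ∀ p ∈ P, ∀ q ∈ P, p ≠ q → 0 < crq p q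

open Classical in
/-- the points of `P` on the line through `p` and `q` -/
noncomputable def line (P : Finset V) (p q : V) : Finset V := P.filter fun t => det p q t = 0

open Classical in
/-- the connecting lines, as sets of points -/
noncomputable def lines (P : Finset V) : Finset (Finset V) :=
  ((P ×ˢ P).filter fun x => x.1 ≠ x.2).image fun x => line P x.1 x.2

open Classical in
/-- the connecting lines through `p` -/
noncomputable def thru (P : Finset V) (p : V) : Finset (Finset V) :=
  (lines P).filter fun l => p ∈ l

/-- the number of connecting lines through `p` -/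
noncomputable def deg (P : Finset V) (p : V) : ℕ := (thru P p).card

/-- `Q l = |sum over the points of l of exp (2 i theta)|^2` -/
noncomputable def Q (l : Finset V) : ℝ := ∑ p ∈ l, ∑ q ∈ l, (2 * dot p q ^ 2 - 1)

/-- the line `l` is within `s` of the plane with unit normal `v` -/
def near (v : V) (s : ℝ) (l : Finset V) : Prop :=
  ∃ w : V, dot w w = 1 ∧ (∀ t ∈ l, dot w t = 0) ∧ dot (v - w) (v - w) ≤ s ^ 2

end Pool.Agent.H89.DR
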