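import Pool.Agent.H89.DR.FrDef

/-!
# Module FrA (about 130 lines): balance of a line in the frame case

* `dot_same`: `p, q` in the cluster `i`: `|p i q i| ≥ 1 - ε^2`-ish and the other two products sum
  to at most `ε^2` in absolute value (Cauchy-Schwarz), so `(p.q)^2 ≥ 1 - 4 ε^2`.
* `dot_diff`: `|p.q| ≤ 2 ε + ε^2 ≤ 3 ε`.
* `bal`: choose `p ∈ l ∩ clu i` and use `abs_R_le`: `R = ∑ q ∈ l, (2 (p.q)^2 - 1)`, where
  `q ∈ clu i` contributes `1` up to `8 ε^2`, `q ∈ clu j` contributes `-1` up to `18 ε^2`, and the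
  other points of `l` contribute at most `1` in absolute value (`card_split`).
* `no_three`: `det p q r` for `p, q, r` near the three axes is at least
  `(1 - ε^2)^3 - 5 ε^2 > 0` in absolute value (or: expand, five of the six terms contain at least two
  small factors).
-/

set_option autoImplicit false

namespace Pool.Agent.H89.DR

open Finset Classical

private theorem fra_same {a b c x y z e : ℝ} (h1 : a ^ 2 + b ^ 2 + c ^ 2 = 1)
    (h2 : x ^ 2 + y ^ 2 + z ^ 2 = 1) (ha : 1 - e ≤ a ^ 2) (hx : 1 - e ≤ x ^ 2)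
    (he0 : 0 ≤ e) (he : e ≤ 1 / 10) :
    1 - 4 * e ≤ (a * x + (b * y + c * z)) ^ 2 := by
  have hS : (b * y + c * z) ^ 2 ≤ e ^ 2 := by
    have h3 : (b * y + c * z) ^ 2 ≤ (b ^ 2 + c ^ 2) * (y ^ 2 + z ^ 2) := by
      nlinarith [sq_nonneg (b * z - c * y)]
    have h4 : b ^ 2 + c ^ 2 ≤ e := by linarith
    have h5 : y ^ 2 + z ^ 2 ≤ e := by linarith
    have h6 : (b ^ 2 + c ^ 2) * (y ^ 2 + z ^ 2) ≤ e * e :=
      mul_le_mul h4 h5 (by positivity) he0
    nlinarith
  have hS' : |b * y + c * z| ≤ e := abs_le_of_sq_le_sq hS he0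
  have hax : 1 - e ≤ |a * x| := by
    have h3 : (1 - e) ^ 2 ≤ (a * x) ^ 2 := by
      rw [mul_pow, sq (1 - e)]
      exact mul_le_mul ha hx (by linarith) (sq_nonneg a)
    have h4 := sq_le_sq.1 h3
    rwa [abs_of_nonneg (by linarith : (0 : ℝ) ≤ 1 - e)] at h4
  have h5 : 1 - 2 * e ≤ |a * x + (b * y + c * z)| := by
    have h6 := abs_sub_abs_le_abs_add (a * x) (b * y + c * z)
    linarith
  rw [← sq_abs]
  nlinarith

private theorem fra_dot (i : Fin 3) (p q : V) :
    dot p q = p i * q i + (p (i + 1) * q (i + 1) + p (i + 2) * q (i + 2)) := by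
  fin_cases i
  · simp [dot]; ring
  · simp only [dot]
    change _ = p 1 * q 1 + (p 2 * q 2 + p 0 * q 0)
    ring
  · simp only [dot]
    change _ = p 2 * q 2 + (p 0 * q 0 + p 1 * q 1)
    ring

private theorem fra_unit {P : Finset V} {ε : ℝ} (h : Fr P ε) {i : Fin 3} {p : V}
    (hp : p ∈ clu P ε i) : dot p p = 1 := h.conf.unit p (clu_sub P ε i hp)

theorem dot_same {P : Finset V} {ε : ℝ} (h : Fr P ε) {i : Fin 3} {p q : V}
    (hp : p ∈ clu P ε i) (hq : q ∈ clu P ε i) : 1 - 4 * ε ^ 2 ≤ dot p q ^ 2 := by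
  have h1 := fra_unit h hp
  have h2 := fra_unit h hq
  rw [fra_dot i] at h1 h2 ⊢
  have hp' := (mem_filter.1 hp).2
  have hq' := (mem_filter.1 hq).2
  have h3 := h.pos
  have h4 := h.le
  exact fra_same (by linarith) (by linarith) hp' hq' (sq_nonneg ε) (by nlinarith)

private theorem fra_coord {P : Finset V} {ε : ℝ} (h : Fr P ε) {i : Fin 3} {p : V}
    (hp : p ∈ clu P ε i) (t : Fin 3) : |p t| ≤ 1 := by
  obtain ⟨j, hj⟩ : ∃ j, i ≠ j := by
    have : ∀ i : Fin 3, ∃ j, i ≠ j := by decide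
    exact this i
  by_cases ht : i = t
  · subst ht
    exact (coord_le h hj hp).2.2
  · have h1 := (coord_le h ht hp).1
    have h2 := h.le
    linarith

theorem dot_diff {P : Finset V} {ε : ℝ} (h : Fr P ε) {i j : Fin 3} (hij : i ≠ j) {p q : V}
    (hp : p ∈ clu P ε i) (hq : q ∈ clu P ε j) : dot p q ^ 2 ≤ 9 * ε ^ 2 := by
  have key : ∀ t : Fin 3, |p t * q t| ≤ ε := by
    intro t
    rw [abs_mul]
    have h3 := h.pos
    by_cases hit : i = t
    · have hjt : j ≠ t := by rw [← hit]; exact hij.symm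
      have h1 := fra_coord h hp t
      have h2 := (coord_le h hjt hq).1
      calc |p t| * |q t| ≤ 1 * ε := mul_le_mul h1 h2 (abs_nonneg _) zero_le_one
        _ = ε := one_mul ε
    · have h1 := (coord_le h hit hp).1
      have h2 := fra_coord h hq t
      calc |p t| * |q t| ≤ ε * 1 := mul_le_mul h1 h2 (abs_nonneg _) h3.le
        _ = ε := mul_one ε
  have h1 : |dot p q| ≤ 3 * ε := by
    unfold dot
    have h2 := abs_add_three (p 0 * q 0) (p 1 * q 1) (p 2 * q 2)
    linarith [key 0, key 1, key 2]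
  rw [← sq_abs]
  nlinarith [abs_nonneg (dot p q), h.pos]

private theorem fra_notMem {P : Finset V} {ε : ℝ} (h : Fr P ε) {i j : Fin 3} (hij : i ≠ j) {q : V}
    (hq : q ∈ clu P ε i) : q ∉ clu P ε j := fun hq' =>
  Finset.disjoint_left.1 (clu_disj h hij) hq hq'

theorem bal {P : Finset V} {ε : ℝ} (h : Fr P ε) (i : Fin 3) {l : Finset V} (hl : l ∈ lines P)
    (hi : (l ∩ clu P ε i).Nonempty) :
    |kc P ε i l - oc P ε i l| ≤ Real.sqrt (Q l) + 18 * ε ^ 2 * l.card + zc P ε l := by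
  obtain ⟨p, hp⟩ := hi
  rw [mem_inter] at hp
  obtain ⟨hpl, hpi⟩ := hp
  have hlP : l ⊆ P := lines_sub hl
  set g : V → ℝ := fun q => (if q ∈ clu P ε i then (1 : ℝ) else 0) -
    ∑ j ∈ univ.erase i, (if q ∈ clu P ε j then (1 : ℝ) else 0) with hg
  have hsum : ∑ q ∈ l, g q = kc P ε i l - oc P ε i l := by
    have e : ∀ j, ∑ q ∈ l, (if q ∈ clu P ε j then (1 : ℝ) else 0) = kc P ε j l := by
      intro j
      rw [sum_boole, filter_mem_eq_inter]
      rfl
    rw [hg, sum_sub_distrib, e, sum_comm]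
    unfold oc
    rw [sum_congr rfl fun j _ => e j]
  have hz : ∑ q ∈ l, (if q ∈ rest P ε then (1 : ℝ) else 0) = zc P ε l := by
    rw [sum_boole, filter_mem_eq_inter]
    rfl
  have hR := abs_R_le h.conf hl hpl
  have hdot1 : ∀ q ∈ l, dot p q ^ 2 ≤ 1 := by
    intro q hq
    have h1 := dot_sq_le p q
    rw [h.conf.unit p (hlP hpl), h.conf.unit q (hlP hq)] at h1
    linarith
  have hterm : ∀ q ∈ l, |(2 * dot p q ^ 2 - 1) - g q| ≤
      18 * ε ^ 2 + (if q ∈ rest P ε then (1 : ℝ) else 0) := by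
    intro q hq
    by_cases hqi : q ∈ clu P ε i
    · have h1 : g q = 1 := by
        simp only [hg, if_pos hqi]
        rw [sum_eq_zero]
        · norm_num
        · intro j hj
          rw [if_neg (fra_notMem h (ne_of_mem_erase hj).symm hqi)]
      have h2 : q ∉ rest P ε := fun h3 => (mem_filter.1 h3).2 i hqi
      rw [h1, if_neg h2]
      have h3 := dot_same h hpi hqi
      have h4 := hdot1 q hq
      rw [abs_le]
      constructor <;> nlinarith [sq_nonneg ε]
    · by_cases hex : ∃ j, q ∈ clu P ε j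
      · obtain ⟨j, hj⟩ := hex
        have hij : i ≠ j := by rintro rfl; exact hqi hj
        have h1 : g q = -1 := by
          simp only [hg, if_neg hqi]
          rw [sum_eq_single_of_mem j (mem_erase.2 ⟨hij.symm, mem_univ j⟩)]
          · rw [if_pos hj]; norm_num
          · intro j' _ hj'
            rw [if_neg (fra_notMem h hj'.symm hj)]
        have h2 : q ∉ rest P ε := fun h3 => (mem_filter.1 h3).2 j hj
        rw [h1, if_neg h2]
        have h3 := dot_diff h hij hpi hj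
        rw [abs_le]
        constructor <;> nlinarith [sq_nonneg ε, sq_nonneg (dot p q)]
      · push Not at hex
        have h1 : g q = 0 := by
          simp only [hg, if_neg hqi]
          rw [sum_eq_zero]
          · norm_num
          · intro j _
            rw [if_neg (hex j)]
        have h2 : q ∈ rest P ε := mem_filter.2 ⟨hlP hq, hex⟩
        rw [h1, if_pos h2]
        have h4 := hdot1 q hq
        rw [abs_le]
        constructor <;> nlinarith [sq_nonneg ε, sq_nonneg (dot p q)]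
  have hdiff : |∑ q ∈ l, (2 * dot p q ^ 2 - 1) - ∑ q ∈ l, g q| ≤
      18 * ε ^ 2 * l.card + zc P ε l := by
    rw [← sum_sub_distrib]
    refine (abs_sum_le_sum_abs _ _).trans ((sum_le_sum hterm).trans (le_of_eq ?_))
    rw [sum_add_distrib, hz, sum_const, nsmul_eq_mul]
    ring
  rw [← hsum]
  have h5 : |∑ q ∈ l, g q| ≤ |∑ q ∈ l, (2 * dot p q ^ 2 - 1)| +
      |∑ q ∈ l, (2 * dot p q ^ 2 - 1) - ∑ q ∈ l, g q| := by
    have h6 := abs_sub_abs_le_abs_sub (∑ q ∈ l, g q) (∑ q ∈ l, (2 * dot p q ^ 2 - 1))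
    rw [abs_sub_comm] at h6
    linarith
  linarith

theorem no_three {P : Finset V} {ε : ℝ} (h : Fr P ε) {l : Finset V} (hl : l ∈ lines P)
    (h0 : (l ∩ clu P ε 0).Nonempty) (h1 : (l ∩ clu P ε 1).Nonempty) :
    ¬ (l ∩ clu P ε 2).Nonempty := by
  rintro ⟨r, hr⟩
  obtain ⟨p, hp⟩ := h0
  obtain ⟨q, hq⟩ := h1
  rw [mem_inter] at hp hq hr
  have hd := det_of_mem h.conf hl hp.1 hq.1 hr.1
  have n01 : (0 : Fin 3) ≠ 1 := by decide
  have n02 : (0 : Fin 3) ≠ 2 := by decide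
  have n12 : (1 : Fin 3) ≠ 2 := by decide
  obtain ⟨p1, p0, _⟩ := coord_le h n01 hp.2
  obtain ⟨p2, _, _⟩ := coord_le h n02 hp.2
  obtain ⟨q0, q1, _⟩ := coord_le h n01.symm hq.2
  obtain ⟨q2, _, _⟩ := coord_le h n12 hq.2
  obtain ⟨r0, r2, _⟩ := coord_le h n02.symm hr.2
  obtain ⟨r1, _, _⟩ := coord_le h n12.symm hr.2
  have P0 := fra_coord h hp.2 0
  have Q1 := fra_coord h hq.2 1
  have R2 := fra_coord h hr.2 2
  have hε := h.pos
  have hε' := h.le
  have tri : ∀ {a b c : ℝ}, |a| ≤ 1 → |b| ≤ ε → |c| ≤ ε → |a * (b * c)| ≤ ε ^ 2 := by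
    intro a b c ha hb hc
    rw [abs_mul, abs_mul]
    have h3 : |b| * |c| ≤ ε * ε := mul_le_mul hb hc (abs_nonneg _) hε.le
    calc |a| * (|b| * |c|) ≤ 1 * (ε * ε) :=
          mul_le_mul ha h3 (mul_nonneg (abs_nonneg _) (abs_nonneg _)) zero_le_one
      _ = ε ^ 2 := by ring
  have le1 : ∀ {a : ℝ}, |a| ≤ ε → |a| ≤ 1 := fun ha => by linarith
  have t1 := tri P0 q2 r1
  have t2 := tri (le1 p1) q2 r0
  have t3 := tri R2 p1 q0
  have t4 := tri (le1 p2) q0 r1
  have t5 := tri Q1 p2 r0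
  have hsq : ε ^ 2 ≤ 1 / 1000 := by nlinarith
  have hbig : 9 / 10 ≤ |p 0 * (q 1 * r 2)| := by
    rw [abs_mul, abs_mul]
    have a1 : (999 : ℝ) / 1000 ≤ |p 0| := by linarith
    have a2 : (999 : ℝ) / 1000 ≤ |q 1| := by linarith
    have a3 : (999 : ℝ) / 1000 ≤ |r 2| := by linarith
    have a4 : (999 : ℝ) / 1000 * (999 / 1000) ≤ |q 1| * |r 2| :=
      mul_le_mul a2 a3 (by norm_num) (abs_nonneg _)
    have a5 : (999 : ℝ) / 1000 * ((999 : ℝ) / 1000 * (999 / 1000)) ≤ |p 0| * (|q 1| * |r 2|) :=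
      mul_le_mul a1 a4 (by norm_num) (abs_nonneg _)
    refine le_trans (by norm_num) a5
  have e : p 0 * (q 1 * r 2) = p 0 * (q 2 * r 1) - p 1 * (q 2 * r 0) + r 2 * (p 1 * q 0) -
      p 2 * (q 0 * r 1) + q 1 * (p 2 * r 0) := by
    unfold det at hd
    linarith
  rw [e] at hbig
  rw [abs_le] at t1 t2 t3 t4 t5
  have hb : |p 0 * (q 2 * r 1) - p 1 * (q 2 * r 0) + r 2 * (p 1 * q 0) -
      p 2 * (q 0 * r 1) + q 1 * (p 2 * r 0)| ≤ 5 * ε ^ 2 := by
    rw [abs_le]
    constructor <;> linarith [t1.1, t1.2, t2.1, t2.2, t3.1, t3.2, t4.1, t4.2, t5.1, t5.2]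
  linarith

/-- on a line meeting the clusters `k` and `i` the other points in clusters are those of `i` -/
theorem oc_eq {P : Finset V} {ε : ℝ} (h : Fr P ε) {i k : Fin 3} (hik : i ≠ k) {l : Finset V}
    (hl : l ∈ Lc P ε k i) : oc P ε k l = kc P ε i l := by
  unfold Lc at hl
  rw [mem_filter] at hl
  obtain ⟨hl, hk, hi⟩ := hl
  unfold oc
  rw [sum_eq_single_of_mem i (mem_erase.2 ⟨hik, mem_univ i⟩)]
  intro j hj hji
  have hjk := ne_of_mem_erase hj
  have hall : ∀ i j k : Fin 3, i ≠ k → j ≠ i → j ≠ k → ∀ m, m = i ∨ m = j ∨ m = k := by decide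
  unfold kc
  rw [Nat.cast_eq_zero, card_eq_zero]
  by_contra hne
  have hj' : (l ∩ clu P ε j).Nonempty := nonempty_iff_ne_empty.2 hne
  have hm : ∀ m : Fin 3, (l ∩ clu P ε m).Nonempty := by
    intro m
    rcases hall i j k hik hji hjk m with rfl | rfl | rfl
    · exact hi
    · exact hj'
    · exact hk
  exact no_three h hl (hm 0) (hm 1) (hm 2)

end Pool.Agent.H89.DR
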