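import Pool.Agent.H89.DR.FrA

/-!
# Module FrB (about 120 lines): almost all lines are balanced

* `sum_zc`: `∑ zc l ^ 2 ≤ ∑ zc l * #l = ∑ p ∈ rest, ∑ l ∈ thru P p, #l` (`sum_swap` with an
  indicator), and `∑ l ∈ thru P p, #l = #P - 1 + deg p ≤ 2 n` (`sum_thru`, `deg_le`), `rest_le`.
* `sum_bal`: `bal` squared: `(a + b + c)^2 ≤ 3 (a^2 + b^2 + c^2)`, with `sqrt (Q l) ^ 2 = Q l`,
  `∑ Q ≤ ε n^2`, `324 ε^4 ∑ #l^2 ≤ 648 ε^4 n^2` (`sum_card_sq_le`), `∑ zc^2 ≤ 6 ε n^2`: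
  `3 (ε + 648 ε^4 + 6 ε) ≤ 22 ε`.
* `sum_dif`: Cauchy-Schwarz with `∑ #(l ∩ A)^2 ≤ ∑ #l^2 ≤ 2 n^2`; on lines with `l ∩ A` nonempty
  (`A ⊆ clu i`) `sum_bal` applies: `sqrt (2 n^2 * 22 ε n^2) ≤ 7 sqrt ε n^2`.
* `lonely`: `oc = 0`, so `kc^2 = (kc - oc)^2`.
-/

set_option autoImplicit false

namespace Pool.Agent.H89.DR

open Finset Classical

private theorem frb_inter_sum (l A : Finset V) :
    ((l ∩ A).card : ℝ) = ∑ p ∈ l, (if p ∈ A then (1 : ℝ) else 0) := by
  rw [Finset.sum_ite, Finset.sum_const_zero, add_zero, Finset.sum_const, nsmul_eq_mul, mul_one,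
    Finset.filter_mem_eq_inter]

private theorem frb_thru {P : Finset V} (hP : Conf P) {p : V} (hp : p ∈ P) :
    ∑ l ∈ thru P p, (l.card : ℝ) ≤ 2 * P.card := by
  have h1 := sum_thru hP hp (fun _ _ => (1 : ℝ))
  simp only [Finset.sum_const, nsmul_eq_mul, mul_one] at h1
  have h2 : ∀ l ∈ thru P p, (l.card : ℝ) = ((l.erase p).card : ℝ) + 1 := by
    intro l hl
    have hpl : p ∈ l := (Finset.mem_filter.1 hl).2
    have := Finset.card_erase_add_one hpl
    exact_mod_cast this.symm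
  rw [Finset.sum_congr rfl h2, Finset.sum_add_distrib, h1, Finset.sum_const, nsmul_eq_mul, mul_one]
  have h3 : ((P.erase p).card : ℝ) ≤ P.card := by
    exact_mod_cast Finset.card_erase_le
  have h4 := deg_le hP hp
  rw [deg] at h4
  linarith

theorem sum_zc {P : Finset V} {ε : ℝ} (h : Fr P ε) :
    ∑ l ∈ lines P, zc P ε l ^ 2 ≤ 6 * ε * (P.card : ℝ) ^ 2 := by
  have hn : (0 : ℝ) ≤ P.card := Nat.cast_nonneg _
  have h1 : ∀ l ∈ lines P, zc P ε l ^ 2 ≤
      ∑ p ∈ l, (if p ∈ rest P ε then (l.card : ℝ) else 0) := by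
    intro l _
    have e : ∑ p ∈ l, (if p ∈ rest P ε then (l.card : ℝ) else 0) = zc P ε l * l.card := by
      rw [zc, frb_inter_sum, Finset.sum_mul]
      apply Finset.sum_congr rfl
      intro p _
      split_ifs <;> simp
    rw [e, sq]
    have h2 : zc P ε l ≤ l.card := by
      rw [zc]
      exact_mod_cast Finset.card_le_card Finset.inter_subset_left
    exact mul_le_mul_of_nonneg_left h2 (Nat.cast_nonneg _)
  refine (Finset.sum_le_sum h1).trans ?_
  rw [sum_swap P (fun l p => if p ∈ rest P ε then (l.card : ℝ) else 0)]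
  have h2 : ∀ p ∈ P, ∑ l ∈ thru P p, (if p ∈ rest P ε then (l.card : ℝ) else 0) ≤
      if p ∈ rest P ε then 2 * (P.card : ℝ) else 0 := by
    intro p hp
    split_ifs with hr
    · exact frb_thru h.conf hp
    · simp
  refine (Finset.sum_le_sum h2).trans ?_
  rw [Finset.sum_ite, Finset.sum_const_zero, add_zero, Finset.sum_const, nsmul_eq_mul,
    Finset.filter_mem_eq_inter]
  have h3 : ((P ∩ rest P ε).card : ℝ) ≤ 3 * ε * P.card := by
    refine le_trans ?_ (rest_le h)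
    exact_mod_cast Finset.card_le_card Finset.inter_subset_right
  calc ((P ∩ rest P ε).card : ℝ) * (2 * P.card) ≤ 3 * ε * P.card * (2 * P.card) :=
        mul_le_mul_of_nonneg_right h3 (by positivity)
    _ = _ := by ring

theorem sum_bal {P : Finset V} {ε : ℝ} (h : Fr P ε) (i : Fin 3) :
    ∑ l ∈ (lines P).filter (fun l => (l ∩ clu P ε i).Nonempty),
      (kc P ε i l - oc P ε i l) ^ 2 ≤ 22 * ε * (P.card : ℝ) ^ 2 := by
  have hn : (0 : ℝ) ≤ P.card := Nat.cast_nonneg _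
  have h1 : ∀ l ∈ (lines P).filter (fun l => (l ∩ clu P ε i).Nonempty),
      (kc P ε i l - oc P ε i l) ^ 2 ≤
        3 * (Q l + 324 * ε ^ 4 * (l.card : ℝ) ^ 2 + zc P ε l ^ 2) := by
    intro l hl
    rw [Finset.mem_filter] at hl
    have hb := bal h i hl.1 hl.2
    have hQ := Q_nonneg h.conf hl.1
    have hs := Real.sq_sqrt hQ
    have hs0 := Real.sqrt_nonneg (Q l)
    have hz : 0 ≤ zc P ε l := Nat.cast_nonneg _
    have hc : 0 ≤ 18 * ε ^ 2 * (l.card : ℝ) := by positivity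
    have h2 : (kc P ε i l - oc P ε i l) ^ 2 ≤
        (Real.sqrt (Q l) + 18 * ε ^ 2 * l.card + zc P ε l) ^ 2 := by
      rw [← sq_abs (kc P ε i l - oc P ε i l)]
      exact pow_le_pow_left₀ (abs_nonneg _) hb 2
    refine h2.trans ?_
    rw [← hs]
    have e : (324 : ℝ) * ε ^ 4 * (l.card : ℝ) ^ 2 = (18 * ε ^ 2 * (l.card : ℝ)) ^ 2 := by ring
    rw [e, hs]
    have e2 : Q l = Real.sqrt (Q l) ^ 2 := hs.symm
    rw [e2, Real.sqrt_sq hs0]
    nlinarith [sq_nonneg (Real.sqrt (Q l) - 18 * ε ^ 2 * (l.card : ℝ)),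
      sq_nonneg (Real.sqrt (Q l) - zc P ε l), sq_nonneg (18 * ε ^ 2 * (l.card : ℝ) - zc P ε l)]
  refine (Finset.sum_le_sum h1).trans ?_
  have h2 : ∑ l ∈ (lines P).filter (fun l => (l ∩ clu P ε i).Nonempty),
      3 * (Q l + 324 * ε ^ 4 * (l.card : ℝ) ^ 2 + zc P ε l ^ 2) ≤
      ∑ l ∈ lines P, 3 * (Q l + 324 * ε ^ 4 * (l.card : ℝ) ^ 2 + zc P ε l ^ 2) := by
    apply Finset.sum_le_sum_of_subset_of_nonneg (Finset.filter_subset _ _)
    intro l hl _
    have hQ := Q_nonneg h.conf hl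
    positivity
  refine h2.trans ?_
  rw [← Finset.mul_sum, Finset.sum_add_distrib, Finset.sum_add_distrib, ← Finset.mul_sum]
  have h3 := h.sumQ
  have h4 := sum_card_sq_le h.conf
  have h5 := sum_zc h
  have h6 := h.pos
  have h7 := h.le
  have h8 : 324 * ε ^ 4 * ∑ l ∈ lines P, (l.card : ℝ) ^ 2 ≤
      324 * ε ^ 4 * (2 * (P.card : ℝ) ^ 2) := mul_le_mul_of_nonneg_left h4 (by positivity)
  have h9 : ε ^ 3 ≤ 1 / 1000 * (1 / 1000 * (1 / 1000)) := by
    have : ε ^ 3 = ε * (ε * ε) := by ring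
    rw [this]
    have a1 : ε * ε ≤ 1 / 1000 * (1 / 1000) := mul_le_mul h7 h7 h6.le (by norm_num)
    exact mul_le_mul h7 a1 (by positivity) (by norm_num)
  have h10 : 1944 * ε ^ 4 ≤ ε := by
    have : ε ^ 4 = ε * ε ^ 3 := by ring
    rw [this]
    nlinarith
  have h11 : 1944 * ε ^ 4 * (P.card : ℝ) ^ 2 ≤ ε * (P.card : ℝ) ^ 2 :=
    mul_le_mul_of_nonneg_right h10 (by positivity)
  nlinarith

theorem sum_dif {P : Finset V} {ε : ℝ} (h : Fr P ε) (i : Fin 3) {A : Finset V}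
    (hA : A ⊆ clu P ε i) :
    ∑ l ∈ lines P, ((l ∩ A).card : ℝ) * |kc P ε i l - oc P ε i l| ≤
      7 * Real.sqrt ε * (P.card : ℝ) ^ 2 := by
  have hε := Real.sq_sqrt h.pos.le
  have h0 : ∑ l ∈ lines P, ((l ∩ A).card : ℝ) * |kc P ε i l - oc P ε i l| =
      ∑ l ∈ (lines P).filter (fun l => (l ∩ clu P ε i).Nonempty),
        ((l ∩ A).card : ℝ) * |kc P ε i l - oc P ε i l| := by
    symm
    apply Finset.sum_filter_of_ne
    intro l _ hne
    by_contra hemp
    rw [Finset.not_nonempty_iff_eq_empty] at hemp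
    apply hne
    have : l ∩ A = ∅ := by
      rw [← Finset.subset_empty, ← hemp]
      exact Finset.inter_subset_inter_left hA
    rw [this, Finset.card_empty, Nat.cast_zero, zero_mul]
  rw [h0, ← pow_le_pow_iff_left₀ (n := 2) (Finset.sum_nonneg fun l _ =>
    mul_nonneg (Nat.cast_nonneg _) (abs_nonneg _)) (by positivity) two_ne_zero]
  refine (Finset.sum_mul_sq_le_sq_mul_sq _ _ _).trans ?_
  have h1 : ∑ l ∈ (lines P).filter (fun l => (l ∩ clu P ε i).Nonempty),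
      ((l ∩ A).card : ℝ) ^ 2 ≤ 2 * (P.card : ℝ) ^ 2 := by
    refine le_trans ?_ (sum_card_sq_le h.conf)
    refine le_trans (Finset.sum_le_sum_of_subset_of_nonneg (Finset.filter_subset _ _)
      (fun l _ _ => by positivity)) ?_
    apply Finset.sum_le_sum
    intro l _
    apply pow_le_pow_left₀ (Nat.cast_nonneg _)
    exact_mod_cast Finset.card_le_card Finset.inter_subset_left
  have h2 : ∑ l ∈ (lines P).filter (fun l => (l ∩ clu P ε i).Nonempty),
      |kc P ε i l - oc P ε i l| ^ 2 ≤ 22 * ε * (P.card : ℝ) ^ 2 := by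
    simp_rw [sq_abs]
    exact sum_bal h i
  have hpos := h.pos
  calc _ ≤ (2 * (P.card : ℝ) ^ 2) * (22 * ε * (P.card : ℝ) ^ 2) :=
        mul_le_mul h1 h2 (Finset.sum_nonneg fun l _ => by positivity) (by positivity)
    _ ≤ 49 * ε * ((P.card : ℝ) ^ 2) ^ 2 := by
        have : 0 ≤ ε * ((P.card : ℝ) ^ 2) ^ 2 := by positivity
        nlinarith
    _ = (7 * Real.sqrt ε * (P.card : ℝ) ^ 2) ^ 2 := by
        rw [mul_pow, mul_pow, hε]
        norm_num

/-- total number of points (squared) on the lines which meet only the cluster `i` -/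
theorem sum_lonely {P : Finset V} {ε : ℝ} (h : Fr P ε) (i : Fin 3) :
    ∑ l ∈ (lines P).filter (fun l => (l ∩ clu P ε i).Nonempty ∧
        ∀ j, j ≠ i → ¬ (l ∩ clu P ε j).Nonempty),
      kc P ε i l ^ 2 ≤ 22 * ε * (P.card : ℝ) ^ 2 := by
  refine le_trans ?_ (sum_bal h i)
  have h1 : ∀ l ∈ (lines P).filter (fun l => (l ∩ clu P ε i).Nonempty ∧
        ∀ j, j ≠ i → ¬ (l ∩ clu P ε j).Nonempty),
      kc P ε i l ^ 2 = (kc P ε i l - oc P ε i l) ^ 2 := by
    intro l hl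
    rw [Finset.mem_filter] at hl
    have h2 : oc P ε i l = 0 := by
      rw [oc]
      apply Finset.sum_eq_zero
      intro j hj
      have hji : j ≠ i := (Finset.mem_erase.1 hj).1
      have := hl.2.2 j hji
      rw [Finset.not_nonempty_iff_eq_empty] at this
      rw [kc, this, Finset.card_empty, Nat.cast_zero]
    rw [h2, sub_zero]
  rw [Finset.sum_congr rfl h1]
  apply Finset.sum_le_sum_of_subset_of_nonneg
  · intro l hl
    rw [Finset.mem_filter] at hl ⊢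
    exact ⟨hl.1, hl.2.1⟩
  · intro l _ _
    positivity

/-- the balance summed over the lines between two clusters -/
theorem sum_dif_lines {P : Finset V} {ε : ℝ} (h : Fr P ε) {i k : Fin 3} (hik : i ≠ k) :
    |∑ l ∈ Lc P ε k i, kc P ε k l - ∑ l ∈ Lc P ε k i, kc P ε i l| ≤
      5 * Real.sqrt ε * (P.card : ℝ) ^ 2 := by
  have hε := Real.sq_sqrt h.pos.le
  have h1 : ∑ l ∈ Lc P ε k i, kc P ε k l - ∑ l ∈ Lc P ε k i, kc P ε i l =
      ∑ l ∈ Lc P ε k i, 1 * (kc P ε k l - oc P ε k l) := by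
    rw [← Finset.sum_sub_distrib]
    apply Finset.sum_congr rfl
    intro l hl
    rw [oc_eq h hik hl, one_mul]
  rw [h1, ← pow_le_pow_iff_left₀ (n := 2) (abs_nonneg _) (by positivity) two_ne_zero, sq_abs]
  refine (Finset.sum_mul_sq_le_sq_mul_sq _ _ _).trans ?_
  have h2 : ∑ _l ∈ Lc P ε k i, (1 : ℝ) ^ 2 ≤ (P.card : ℝ) ^ 2 := by
    rw [one_pow, Finset.sum_const, nsmul_eq_mul, mul_one]
    refine le_trans ?_ (card_lines_le h.conf)
    exact_mod_cast Finset.card_le_card (Finset.filter_subset _ _)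
  have h3 : ∑ l ∈ Lc P ε k i, (kc P ε k l - oc P ε k l) ^ 2 ≤ 22 * ε * (P.card : ℝ) ^ 2 := by
    refine le_trans ?_ (sum_bal h k)
    apply Finset.sum_le_sum_of_subset_of_nonneg
    · intro l hl
      rw [Lc, Finset.mem_filter] at hl
      rw [Finset.mem_filter]
      exact ⟨hl.1, hl.2.1⟩
    · intro l _ _
      positivity
  have hpos := h.pos
  calc _ ≤ (P.card : ℝ) ^ 2 * (22 * ε * (P.card : ℝ) ^ 2) :=
        mul_le_mul h2 h3 (Finset.sum_nonneg fun l _ => by positivity) (by positivity)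
    _ ≤ 25 * ε * ((P.card : ℝ) ^ 2) ^ 2 := by
        have : 0 ≤ ε * ((P.card : ℝ) ^ 2) ^ 2 := by positivity
        nlinarith
    _ = (5 * Real.sqrt ε * (P.card : ℝ) ^ 2) ^ 2 := by
        rw [mul_pow, mul_pow, hε]
        norm_num

end Pool.Agent.H89.DR
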