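import Pool.Agent.H89.DR.FrB

/-!
# Module FrC (about 120 lines): number of lines between two clusters

`a i j = ∑ l ∈ Lc i j, kc i l`. For `{i, j, k} = {0, 1, 2}`:
`∑ p ∈ clu i, deg p = ∑ l, kc i l` (`sum_swap`) `= a i j + a i k + lonely`, `0 ≤ lonely ≤ 22 ε n^2`
(`kc ≤ kc^2` for the natural numbers, `sum_lonely`; `no_three` makes the three kinds of lines
disjoint). So `a i j + a i k ≤ (1/3 + ε) n (1/3 + 2 ε) n ≤ (1/9 + 2 ε) n^2`, and
`∑ i, (a i j + a i k) ≥ (1/3 - ε) n^2 - 3 ε n (1/3 + ε) n - 66 ε n^2 ≥ (1/3 - 70 ε) n^2`.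
With `|a i j - a j i| ≤ 5 sqrt ε n^2` (`sum_dif_lines`): `2 (a 0 1 + a 0 2 + a 1 2) ≥
(1/3 - 70 ε - 15 sqrt ε) n^2`, subtract twice the bound for the two pairs at `k`:
`a i j ≥ (1/18 - 37 ε - 15 sqrt ε) n^2`, for all orders of the indices with `5 sqrt ε` more.
`ε ≤ sqrt ε / 31`.
-/

set_option autoImplicit false

namespace Pool.Agent.H89.DR

open Finset Classical

private theorem frc_cover : ∀ x y z w : Fin 3, x ≠ y → x ≠ z → y ≠ z → w = x ∨ w = y ∨ w = z := by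
  decide

private theorem frc_third : ∀ i k : Fin 3, ∃ j, j ≠ i ∧ j ≠ k := by
  decide

private theorem frc_no {P : Finset V} {ε : ℝ} (h : Fr P ε) {x y z : Fin 3} (hxy : x ≠ y)
    (hxz : x ≠ z) (hyz : y ≠ z) {l : Finset V} (hl : l ∈ lines P)
    (hx : (l ∩ clu P ε x).Nonempty) (hy : (l ∩ clu P ε y).Nonempty) :
    ¬ (l ∩ clu P ε z).Nonempty := by
  intro hz
  have hall : ∀ w, (l ∩ clu P ε w).Nonempty := by
    intro w
    rcases frc_cover x y z w hxy hxz hyz with rfl | rfl | rfl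
    · exact hx
    · exact hy
    · exact hz
  exact no_three h hl (hall 0) (hall 1) (hall 2)

private theorem frc_deg {P : Finset V} {ε : ℝ} (x : Fin 3) :
    ∑ l ∈ lines P, kc P ε x l = ∑ p ∈ clu P ε x, (deg P p : ℝ) := by
  have h1 := sum_swap P fun _ p => if p ∈ clu P ε x then (1 : ℝ) else 0
  have h2 : ∀ l ∈ lines P, kc P ε x l = ∑ p ∈ l, if p ∈ clu P ε x then (1 : ℝ) else 0 := by
    intro l _
    unfold kc
    rw [sum_boole, filter_mem_eq_inter]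
  have h3 : ∀ p ∈ P, (∑ _l ∈ thru P p, if p ∈ clu P ε x then (1 : ℝ) else 0) =
      if p ∈ clu P ε x then (deg P p : ℝ) else 0 := by
    intro p _
    rw [sum_const, nsmul_eq_mul]
    unfold deg
    split_ifs
    · rw [mul_one]
    · rw [mul_zero]
  rw [sum_congr rfl h2, h1, sum_congr rfl h3, ← sum_filter]
  congr 1
  rw [filter_mem_eq_inter]
  exact inter_eq_right.2 (clu_sub P ε x)

private theorem frc_split {P : Finset V} {ε : ℝ} (h : Fr P ε) {x y z : Fin 3} (hxy : x ≠ y)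
    (hxz : x ≠ z) (hyz : y ≠ z) :
    ∑ l ∈ lines P, kc P ε x l = ∑ l ∈ Lc P ε x y, kc P ε x l + ∑ l ∈ Lc P ε x z, kc P ε x l +
      ∑ l ∈ (lines P).filter (fun l => (l ∩ clu P ε x).Nonempty ∧
        ∀ j, j ≠ x → ¬ (l ∩ clu P ε j).Nonempty), kc P ε x l := by
  unfold Lc
  rw [sum_filter, sum_filter, sum_filter, ← sum_add_distrib, ← sum_add_distrib]
  refine sum_congr rfl fun l hl => ?_
  by_cases hX : (l ∩ clu P ε x).Nonempty
  · by_cases hY : (l ∩ clu P ε y).Nonempty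
    · have hZ := frc_no h hxy hxz hyz hl hX hY
      rw [if_pos ⟨hX, hY⟩, if_neg fun hh => hZ hh.2, if_neg fun hh => hh.2 y hxy.symm hY]
      ring
    · by_cases hZ : (l ∩ clu P ε z).Nonempty
      · rw [if_neg fun hh => hY hh.2, if_pos ⟨hX, hZ⟩, if_neg fun hh => hh.2 z hxz.symm hZ]
        ring
      · have hlon : ∀ j, j ≠ x → ¬ (l ∩ clu P ε j).Nonempty := by
          intro j hj
          rcases frc_cover x y z j hxy hxz hyz with rfl | rfl | rfl
          · exact (hj rfl).elim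
          · exact hY
          · exact hZ
        rw [if_neg fun hh => hY hh.2, if_neg fun hh => hZ hh.2, if_pos ⟨hX, hlon⟩]
        ring
  · have h0 : kc P ε x l = 0 := by
      unfold kc
      rw [not_nonempty_iff_eq_empty.1 hX, card_empty, Nat.cast_zero]
    rw [if_neg fun hh => hX hh.1, if_neg fun hh => hX hh.1, if_neg fun hh => hX hh.1, h0]
    ring

private theorem frc_lonely {P : Finset V} {ε : ℝ} (h : Fr P ε) (x : Fin 3) :
    ∑ l ∈ (lines P).filter (fun l => (l ∩ clu P ε x).Nonempty ∧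
        ∀ j, j ≠ x → ¬ (l ∩ clu P ε j).Nonempty), kc P ε x l ≤ 22 * ε * (P.card : ℝ) ^ 2 := by
  refine (sum_le_sum fun l _ => ?_).trans (sum_lonely h x)
  unfold kc
  exact_mod_cast Nat.le_self_pow two_ne_zero _

private theorem frc_lonely0 {P : Finset V} {ε : ℝ} (x : Fin 3) :
    0 ≤ ∑ l ∈ (lines P).filter (fun l => (l ∩ clu P ε x).Nonempty ∧
        ∀ j, j ≠ x → ¬ (l ∩ clu P ε j).Nonempty), kc P ε x l :=
  sum_nonneg fun _ _ => Nat.cast_nonneg _

private theorem frc_deg_le {P : Finset V} {ε : ℝ} (h : Fr P ε) (x : Fin 3) :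
    ∑ p ∈ clu P ε x, (deg P p : ℝ) ≤ (1 / 9 + 2 * ε) * (P.card : ℝ) ^ 2 := by
  have hn : (0 : ℝ) ≤ P.card := Nat.cast_nonneg _
  have h1 : ∑ p ∈ clu P ε x, (deg P p : ℝ) ≤ (clu P ε x).card • ((1 / 3 + ε) * (P.card : ℝ)) :=
    sum_le_card_nsmul _ _ _ fun p hp => h.deg_le p (clu_sub P ε x hp)
  rw [nsmul_eq_mul] at h1
  have h2 := clu_le h x
  have h3 : 0 ≤ (1 / 3 + ε) * (P.card : ℝ) := by
    have := h.pos
    positivity
  have h4 := mul_le_mul_of_nonneg_right h2 h3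
  have h5 : (1 / 3 + 2 * ε) * (1 / 3 + ε) ≤ 1 / 9 + 2 * ε := by
    have := h.pos
    have := h.le
    nlinarith
  have h6 := mul_le_mul_of_nonneg_right h5 (sq_nonneg (P.card : ℝ))
  calc ∑ p ∈ clu P ε x, (deg P p : ℝ) ≤ _ := h1
    _ ≤ _ := h4
    _ = (1 / 3 + 2 * ε) * (1 / 3 + ε) * (P.card : ℝ) ^ 2 := by ring
    _ ≤ _ := h6

private theorem frc_total {P : Finset V} {ε : ℝ} (h : Fr P ε) {x y z : Fin 3} (hxy : x ≠ y)
    (hxz : x ≠ z) (hyz : y ≠ z) :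
    (1 / 3 - 4 * ε) * (P.card : ℝ) ^ 2 ≤ ∑ p ∈ clu P ε x, (deg P p : ℝ) +
      ∑ p ∈ clu P ε y, (deg P p : ℝ) + ∑ p ∈ clu P ε z, (deg P p : ℝ) := by
  have hn : (0 : ℝ) ≤ P.card := Nat.cast_nonneg _
  have hclu : ∀ w, ∑ p ∈ clu P ε w, (deg P p : ℝ) =
      ∑ p ∈ P, if p ∈ clu P ε w then (deg P p : ℝ) else 0 := by
    intro w
    rw [← sum_filter, filter_mem_eq_inter, inter_eq_right.2 (clu_sub P ε w)]
  have hrest : ∑ p ∈ rest P ε, (deg P p : ℝ) =
      ∑ p ∈ P, if p ∈ rest P ε then (deg P p : ℝ) else 0 := by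
    rw [← sum_filter, filter_mem_eq_inter, inter_eq_right.2 (show rest P ε ⊆ P from filter_subset _ _)]
  have h1 : ∑ p ∈ P, (deg P p : ℝ) ≤ ∑ p ∈ clu P ε x, (deg P p : ℝ) +
      ∑ p ∈ clu P ε y, (deg P p : ℝ) + ∑ p ∈ clu P ε z, (deg P p : ℝ) +
      ∑ p ∈ rest P ε, (deg P p : ℝ) := by
    rw [hclu x, hclu y, hclu z, hrest, ← sum_add_distrib, ← sum_add_distrib, ← sum_add_distrib]
    refine sum_le_sum fun p hp => ?_
    have hd : (0 : ℝ) ≤ deg P p := Nat.cast_nonneg _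
    have hi : ∀ (Q : Prop) [Decidable Q], (0 : ℝ) ≤ if Q then (deg P p : ℝ) else 0 := by
      intro Q _
      split_ifs
      · exact hd
      · exact le_rfl
    by_cases hr : p ∈ rest P ε
    · rw [if_pos hr]
      linarith [hi (p ∈ clu P ε x), hi (p ∈ clu P ε y), hi (p ∈ clu P ε z)]
    · obtain ⟨w, hw⟩ : ∃ w, p ∈ clu P ε w := by
        by_contra hno
        push Not at hno
        exact hr (mem_filter.2 ⟨hp, hno⟩)
      rcases frc_cover x y z w hxy hxz hyz with rfl | rfl | rfl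
      · rw [if_pos hw]
        linarith [hi (p ∈ clu P ε y), hi (p ∈ clu P ε z), hi (p ∈ rest P ε)]
      · rw [if_pos hw]
        linarith [hi (p ∈ clu P ε x), hi (p ∈ clu P ε z), hi (p ∈ rest P ε)]
      · rw [if_pos hw]
        linarith [hi (p ∈ clu P ε x), hi (p ∈ clu P ε y), hi (p ∈ rest P ε)]
  have h2 : ∑ p ∈ rest P ε, (deg P p : ℝ) ≤ (rest P ε).card • ((1 / 3 + ε) * (P.card : ℝ)) :=
    sum_le_card_nsmul _ _ _ fun p hp => h.deg_le p (mem_filter.1 hp).1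
  rw [nsmul_eq_mul] at h2
  have h3 : 0 ≤ (1 / 3 + ε) * (P.card : ℝ) := by
    have := h.pos
    positivity
  have h4 := mul_le_mul_of_nonneg_right (rest_le h) h3
  have h5 : 3 * ε * (1 / 3 + ε) ≤ 3 * ε := by
    have := h.pos
    have := h.le
    nlinarith
  have h6 := mul_le_mul_of_nonneg_right h5 (sq_nonneg (P.card : ℝ))
  have h7 : 3 * ε * (P.card : ℝ) * ((1 / 3 + ε) * (P.card : ℝ)) =
      3 * ε * (1 / 3 + ε) * (P.card : ℝ) ^ 2 := by ring
  have h8 := h.sum_deg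
  linarith

private theorem frc_comm (P : Finset V) (ε : ℝ) (i k : Fin 3) : Lc P ε i k = Lc P ε k i := by
  unfold Lc
  exact filter_congr fun l _ => and_comm

theorem sum_Lc_ge {P : Finset V} {ε : ℝ} (h : Fr P ε) {i k : Fin 3} (hik : i ≠ k) :
    (1 / 18 - 28 * Real.sqrt ε) * (P.card : ℝ) ^ 2 ≤ ∑ l ∈ Lc P ε k i, kc P ε k l := by
  obtain ⟨j, hji, hjk⟩ := frc_third i k
  have si := frc_split h hik hji.symm hjk.symm
  have sk := frc_split h hik.symm hjk.symm hji.symm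
  have sj := frc_split h hji hjk hik
  rw [frc_deg] at si sk sj
  have li := frc_lonely h i
  have lj := frc_lonely h j
  have lk := frc_lonely h k
  have lj0 := frc_lonely0 (P := P) (ε := ε) j
  have tot := frc_total h hik hji.symm hjk.symm
  have dj := frc_deg_le h j
  have d1 := abs_le.1 (sum_dif_lines h hik)
  have d2 := abs_le.1 (sum_dif_lines h hjk)
  have d3 := abs_le.1 (sum_dif_lines h hji)
  rw [frc_comm P ε k i] at d1 ⊢
  rw [frc_comm P ε k j] at d2 sk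
  rw [frc_comm P ε i j] at d3 si
  rw [frc_comm P ε k i] at sk
  have hsq : ε * (P.card : ℝ) ^ 2 ≤ Real.sqrt ε / 31 * (P.card : ℝ) ^ 2 := by
    refine mul_le_mul_of_nonneg_right ?_ (sq_nonneg _)
    have h1 := Real.mul_self_sqrt h.pos.le
    have h2 : Real.sqrt ε ≤ 1 / 31 := by
      rw [Real.sqrt_le_left (by norm_num)]
      have := h.le
      linarith [show (1 / 1000 : ℝ) ≤ (1 / 31) ^ 2 by norm_num]
    nlinarith [Real.sqrt_nonneg ε]
  have hs0 : 0 ≤ Real.sqrt ε * (P.card : ℝ) ^ 2 := by positivity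
  have e1 : (1 / 18 - 28 * Real.sqrt ε) * (P.card : ℝ) ^ 2 =
      1 / 18 * (P.card : ℝ) ^ 2 - 28 * (Real.sqrt ε * (P.card : ℝ) ^ 2) := by ring
  have e2 : (1 / 3 - 4 * ε) * (P.card : ℝ) ^ 2 =
      1 / 3 * (P.card : ℝ) ^ 2 - 4 * (ε * (P.card : ℝ) ^ 2) := by ring
  have e3 : (1 / 9 + 2 * ε) * (P.card : ℝ) ^ 2 =
      1 / 9 * (P.card : ℝ) ^ 2 + 2 * (ε * (P.card : ℝ) ^ 2) := by ring
  have e4 : 5 * Real.sqrt ε * (P.card : ℝ) ^ 2 = 5 * (Real.sqrt ε * (P.card : ℝ) ^ 2) := by ring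
  have e5 : 22 * ε * (P.card : ℝ) ^ 2 = 22 * (ε * (P.card : ℝ) ^ 2) := by ring
  have e6 : Real.sqrt ε / 31 * (P.card : ℝ) ^ 2 = (Real.sqrt ε * (P.card : ℝ) ^ 2) / 31 := by ring
  rw [e4] at d1 d2 d3
  rw [e5] at li lj lk
  rw [e3] at dj
  rw [e2] at tot
  rw [e6] at hsq
  rw [e1]
  linarith
end Pool.Agent.H89.DR
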