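import Pool.Agent.H89.DR.JR

/-!
# Module FrDef (about 110 lines): the frame case, definitions and sizes

`clu P ε i`: points within `ε` of the `i`-th axis. `kc P ε i l`: number of points of `clu P ε i` on
`l`; `oc P ε i l`: number of points of the two other clusters on `l`; `zc P ε l`: number of points of
`l` in no cluster. `Lc P ε i j`: lines meeting the clusters `i` and `j`.

* `clu_disj`: `p i ^ 2 ≥ 1 - ε^2 > 1/2` and `p j ^ 2 > 1/2` contradict `dot p p = 1`.
* `clu_le`: the three clusters are disjoint subsets of `P`, the two others have at least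
  `(1/3 - ε) n` points each.
* `rest_le`: the points of `P` in no cluster are at most `n - 3 (1/3 - ε) n = 3 ε n`.
-/

set_option autoImplicit false

namespace Pool.Agent.H89.DR

open Finset Classical

/-- the cluster at the `i`-th axis -/
noncomputable def clu (P : Finset V) (ε : ℝ) (i : Fin 3) : Finset V :=
  P.filter fun p => 1 - ε ^ 2 ≤ p i ^ 2

/-- number of points of the cluster `i` on `l` -/
noncomputable def kc (P : Finset V) (ε : ℝ) (i : Fin 3) (l : Finset V) : ℝ :=
  ((l ∩ clu P ε i).card : ℝ)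

/-- number of points of the other two clusters on `l` -/
noncomputable def oc (P : Finset V) (ε : ℝ) (i : Fin 3) (l : Finset V) : ℝ :=
  ∑ j ∈ univ.erase i, kc P ε j l

/-- the points in no cluster -/
noncomputable def rest (P : Finset V) (ε : ℝ) : Finset V :=
  P.filter fun p => ∀ i, p ∉ clu P ε i

/-- number of points of `l` in no cluster -/
noncomputable def zc (P : Finset V) (ε : ℝ) (l : Finset V) : ℝ :=
  ((l ∩ rest P ε).card : ℝ)

/-- the lines meeting the clusters `i` and `j` -/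
noncomputable def Lc (P : Finset V) (ε : ℝ) (i j : Fin 3) : Finset (Finset V) :=
  (lines P).filter fun l => (l ∩ clu P ε i).Nonempty ∧ (l ∩ clu P ε j).Nonempty

/-- hypotheses of the frame case -/
structure Fr (P : Finset V) (ε : ℝ) : Prop where
  conf : Conf P
  pos : 0 < ε
  le : ε ≤ 1 / 1000
  big : 1 ≤ ε * P.card
  clu_ge : ∀ i, (1 / 3 - ε) * P.card ≤ ((clu P ε i).card : ℝ)
  sumQ : ∑ l ∈ lines P, Q l ≤ ε * (P.card : ℝ) ^ 2
  deg_le : ∀ p ∈ P, (deg P p : ℝ) ≤ (1 / 3 + ε) * P.card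
  line_le : ∀ l ∈ lines P, (l.card : ℝ) ≤ (1 / 3 + ε) * P.card
  sum_deg : (1 / 3 - ε) * (P.card : ℝ) ^ 2 ≤ ∑ p ∈ P, (deg P p : ℝ)

theorem clu_sub (P : Finset V) (ε : ℝ) (i : Fin 3) : clu P ε i ⊆ P := filter_subset _ _

private theorem frdef_two_le {i j : Fin 3} (hij : i ≠ j) (p : V) :
    p i ^ 2 + p j ^ 2 ≤ dot p p := by
  unfold dot
  fin_cases i <;> fin_cases j <;> simp at hij ⊢ <;>
    nlinarith [sq_nonneg (p 0), sq_nonneg (p 1), sq_nonneg (p 2)]

private theorem frdef_unit {P : Finset V} {ε : ℝ} (h : Fr P ε) {i : Fin 3} {p : V}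
    (hp : p ∈ clu P ε i) : dot p p = 1 ∧ 1 - ε ^ 2 ≤ p i ^ 2 := by
  rw [clu, mem_filter] at hp
  exact ⟨h.conf.unit p hp.1, hp.2⟩

private theorem frdef_eps {P : Finset V} {ε : ℝ} (h : Fr P ε) : ε ^ 2 ≤ 1 / 1000000 := by
  have h1 := h.pos
  have h2 := h.le
  nlinarith

theorem clu_disj {P : Finset V} {ε : ℝ} (h : Fr P ε) {i j : Fin 3} (hij : i ≠ j) :
    Disjoint (clu P ε i) (clu P ε j) := by
  rw [Finset.disjoint_left]
  intro p hi hj
  have h1 := frdef_unit h hi
  have h2 := frdef_unit h hj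
  have h3 := frdef_two_le hij p
  have h4 := frdef_eps h
  linarith [h1.1, h1.2, h2.2]

private theorem frdef_pair {P : Finset V} {ε : ℝ} (h : Fr P ε) (l : Finset V) :
    ((univ : Finset (Fin 3)) : Set (Fin 3)).PairwiseDisjoint fun j => l ∩ clu P ε j := by
  intro i _ j _ hij
  have := clu_disj h hij
  rw [Function.onFun, Finset.disjoint_left]
  intro p hp hp'
  exact Finset.disjoint_left.1 this (mem_inter.1 hp).2 (mem_inter.1 hp').2

private theorem frdef_split {P : Finset V} {ε : ℝ} (h : Fr P ε) {l : Finset V} (hl : l ⊆ P) :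
    (l.card : ℝ) = (∑ j, kc P ε j l) + zc P ε l := by
  have h1 : l = (univ.biUnion fun j => l ∩ clu P ε j) ∪ (l ∩ rest P ε) := by
    ext p
    simp only [mem_union, mem_biUnion, mem_univ, true_and, mem_inter, rest, mem_filter]
    constructor
    · intro hp
      by_cases hc : ∃ j, p ∈ clu P ε j
      · obtain ⟨j, hj⟩ := hc
        exact Or.inl ⟨j, hp, hj⟩
      · push Not at hc
        exact Or.inr ⟨hp, hl hp, hc⟩
    · rintro (⟨j, hp, _⟩ | ⟨hp, _⟩) <;> exact hp
  have h2 : Disjoint (univ.biUnion fun j => l ∩ clu P ε j) (l ∩ rest P ε) := by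
    rw [Finset.disjoint_left]
    intro p hp hp'
    simp only [mem_biUnion, mem_univ, true_and, mem_inter, rest, mem_filter] at hp hp'
    obtain ⟨j, _, hj⟩ := hp
    exact hp'.2.2 j hj
  have h3 : l.card = (∑ j, (l ∩ clu P ε j).card) + (l ∩ rest P ε).card := by
    conv_lhs => rw [h1]
    rw [card_union_of_disjoint h2, card_biUnion (frdef_pair h l)]
  unfold kc zc
  rw [h3]
  push_cast
  rfl

private theorem frdef_total {P : Finset V} {ε : ℝ} (h : Fr P ε) :
    (P.card : ℝ) = (∑ j, ((clu P ε j).card : ℝ)) + ((rest P ε).card : ℝ) := by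
  have h1 := frdef_split h (l := P) (Subset.refl _)
  have h2 : ∀ j, P ∩ clu P ε j = clu P ε j := fun j => inter_eq_right.2 (clu_sub P ε j)
  have h3 : P ∩ rest P ε = rest P ε := inter_eq_right.2 (filter_subset _ _)
  simpa only [kc, zc, h2, h3] using h1

theorem clu_le {P : Finset V} {ε : ℝ} (h : Fr P ε) (i : Fin 3) :
    ((clu P ε i).card : ℝ) ≤ (1 / 3 + 2 * ε) * P.card := by
  have h1 := frdef_total h
  rw [Fin.sum_univ_three] at h1
  have h0 : (0 : ℝ) ≤ ((rest P ε).card : ℝ) := Nat.cast_nonneg _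
  have g0 := h.clu_ge 0
  have g1 := h.clu_ge 1
  have g2 := h.clu_ge 2
  fin_cases i <;> simp <;> linarith

theorem rest_le {P : Finset V} {ε : ℝ} (h : Fr P ε) :
    ((rest P ε).card : ℝ) ≤ 3 * ε * P.card := by
  have h1 := frdef_total h
  rw [Fin.sum_univ_three] at h1
  have g0 := h.clu_ge 0
  have g1 := h.clu_ge 1
  have g2 := h.clu_ge 2
  linarith

/-- the points of a line, sorted by clusters -/
theorem card_split {P : Finset V} {ε : ℝ} (h : Fr P ε) {l : Finset V} (hl : l ⊆ P) (i : Fin 3) :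
    (l.card : ℝ) = kc P ε i l + oc P ε i l + zc P ε l := by
  rw [frdef_split h hl, oc, add_sum_erase univ (fun j => kc P ε j l) (mem_univ i)]

/-- the other coordinates of a point of a cluster are small -/
theorem coord_le {P : Finset V} {ε : ℝ} (h : Fr P ε) {i j : Fin 3} (hij : i ≠ j) {p : V}
    (hp : p ∈ clu P ε i) : |p j| ≤ ε ∧ 1 - ε ^ 2 ≤ |p i| ∧ |p i| ≤ 1 := by
  obtain ⟨h1, h2⟩ := frdef_unit h hp
  have h3 := frdef_two_le hij p
  have h4 := frdef_eps h
  have h5 : |p i| ≤ 1 := by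
    rw [← sq_le_one_iff_abs_le_one]
    nlinarith [sq_nonneg (p j)]
  refine ⟨abs_le_of_sq_le_sq (by linarith) h.pos.le, ?_, h5⟩
  have h6 : p i ^ 2 = |p i| * |p i| := by rw [← sq, sq_abs]
  nlinarith [abs_nonneg (p i)]

end Pool.Agent.H89.DR
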