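import Pool.Agent.H89.DR.FrDef

/-!
# Module FrE (about 80 lines): the chart of a cluster

`{i, j, k} = {0, 1, 2}`, `c, c'` in the cluster `k`, `q` in the cluster `i`, dependent. With
`x = c i / c k`, `y = c j / c k` (and `x', y'`) the determinant is, up to sign and the factor
`c k * c' k`: `(x' - x) (q j - y q k) - (y' - y) (q i - x q k) = 0`, where `|q j - y q k| ≤ 1.01 ε`
and `|q i - x q k| ≥ 0.99` (`coord_le`, `|x|, |y| ≤ 1.01 ε`). So `|y' - y| ≤ 2 ε |x' - x|`.
(Prove it for `i, j, k` explicit: `fin_cases` gives six cases.)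
`chart_inj`: two points with the same chart coordinates are dependent.
-/

set_option autoImplicit false

namespace Pool.Agent.H89.DR

open Finset Classical

/-- Basic data of a point of a cluster. -/
private theorem fre_basic {P : Finset V} {ε : ℝ} (h : Fr P ε) {i k : Fin 3} (hik : i ≠ k)
    {c : V} (hc : c ∈ clu P ε k) :
    c k ≠ 0 ∧ |c i / c k| ≤ 101 / 100 * ε := by
  obtain ⟨h1, h2, h3⟩ := coord_le h hik.symm hc
  have hε := h.pos
  have hε' := h.le
  have h4 : (99 / 100 : ℝ) < |c k| := by nlinarith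
  have h5 : c k ≠ 0 := by
    intro h0
    rw [h0, abs_zero] at h4
    norm_num at h4
  refine ⟨h5, ?_⟩
  rw [abs_div, div_le_iff₀ (by linarith)]
  nlinarith

/-- The estimate behind `chart`, for numbers. -/
private theorem fre_num {ε x y x' y' q1 q2 q3 : ℝ} (hε : 0 < ε) (hε' : ε ≤ 1 / 1000)
    (hx : |x| ≤ 101 / 100 * ε) (hy : |y| ≤ 101 / 100 * ε) (h1 : |q2| ≤ ε) (h2 : |q3| ≤ ε)
    (h3 : 1 - ε ^ 2 ≤ |q1|)
    (hd : (x' - x) * (q2 - y * q3) = (y' - y) * (q1 - x * q3)) :
    |y' - y| ≤ 2 * ε * |x' - x| := by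
  have e1 : |q2 - y * q3| ≤ 102 / 100 * ε := by
    have : |y * q3| ≤ (101 / 100 * ε) * ε := by
      rw [abs_mul]; exact mul_le_mul hy h2 (abs_nonneg _) (by positivity)
    have := abs_sub q2 (y * q3)
    nlinarith
  have e2 : 98 / 100 ≤ |q1 - x * q3| := by
    have : |x * q3| ≤ (101 / 100 * ε) * ε := by
      rw [abs_mul]; exact mul_le_mul hx h2 (abs_nonneg _) (by positivity)
    have := abs_sub_abs_le_abs_sub q1 (x * q3)
    nlinarith
  have e3 := congrArg abs hd
  rw [abs_mul, abs_mul] at e3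
  have e4 : |y' - y| * (98 / 100) ≤ |x' - x| * (102 / 100 * ε) := by
    calc |y' - y| * (98 / 100) ≤ |y' - y| * |q1 - x * q3| :=
          mul_le_mul_of_nonneg_left e2 (abs_nonneg _)
      _ = |x' - x| * |q2 - y * q3| := e3.symm
      _ ≤ _ := mul_le_mul_of_nonneg_left e1 (abs_nonneg _)
  have e5 : 0 ≤ |x' - x| * ε := mul_nonneg (abs_nonneg _) hε.le
  nlinarith

/-- The determinant in the chart. -/
private theorem fre_det {i j k : Fin 3} (hij : i ≠ j) (hik : i ≠ k)
    (hjk : j ≠ k) {c c' q : V} (hk : c k ≠ 0) (hk' : c' k ≠ 0) (hd : det c c' q = 0) :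
    (c' i / c' k - c i / c k) * (q j - c j / c k * q k) =
      (c' j / c' k - c j / c k) * (q i - c i / c k * q k) := by
  have hd' : (c' i * c k - c i * c' k) * (q j * c k - c j * q k) =
      (c' j * c k - c j * c' k) * (q i * c k - c i * q k) := by
    unfold det at hd
    fin_cases i <;> fin_cases j <;> fin_cases k <;> simp at hij hik hjk ⊢ <;> 
      first
        | linear_combination (c 0) * hd
        | linear_combination (c 1) * hd
        | linear_combination (c 2) * hd
        | linear_combination (-(c 0)) * hd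
        | linear_combination (-(c 1)) * hd
        | linear_combination (-(c 2)) * hd
  field_simp
  linear_combination hd'

theorem chart {P : Finset V} {ε : ℝ} (h : Fr P ε) {i j k : Fin 3} (hij : i ≠ j) (hik : i ≠ k)
    (hjk : j ≠ k) {c c' q : V} (hc : c ∈ clu P ε k) (hc' : c' ∈ clu P ε k) (hq : q ∈ clu P ε i)
    (hd : det c c' q = 0) :
    |c' j / c' k - c j / c k| ≤ 2 * ε * |c' i / c' k - c i / c k| := by
  obtain ⟨h1, h2⟩ := fre_basic h hik hc
  obtain ⟨_, h3⟩ := fre_basic h hjk hc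
  obtain ⟨h4, _⟩ := fre_basic h hik hc'
  obtain ⟨h5, h6, _⟩ := coord_le h hij hq
  obtain ⟨h7, _, _⟩ := coord_le h hik hq
  exact fre_num h.pos h.le h2 h3 h5 h7 h6 (fre_det hij hik hjk h1 h4 hd)

private theorem fre_crq {i j k : Fin 3} (hij : i ≠ j) (hik : i ≠ k)
    (hjk : j ≠ k) {c c' : V} (e1 : c' i * c k = c i * c' k) (e2 : c' j * c k = c j * c' k)
    (hk : c k ≠ 0) : crq c c' = 0 := by
  have e3 : c' i * c j = c i * c' j := by
    have : (c' i * c j - c i * c' j) * c k = 0 := by
      linear_combination (c j) * e1 - (c i) * e2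
    rcases mul_eq_zero.1 this with h | h
    · linarith
    · exact absurd h hk
  have : crq c c' = (c' i * c k - c i * c' k) ^ 2 + (c' j * c k - c j * c' k) ^ 2 +
      (c' i * c j - c i * c' j) ^ 2 := by
    unfold crq
    fin_cases i <;> fin_cases j <;> fin_cases k <;> simp at hij hik hjk ⊢ <;> ring
  rw [this, e1, e2, e3]
  ring

theorem chart_inj {P : Finset V} {ε : ℝ} (h : Fr P ε) {i j k : Fin 3} (hij : i ≠ j)
    (hik : i ≠ k) (hjk : j ≠ k) {c c' : V} (hc : c ∈ clu P ε k) (hc' : c' ∈ clu P ε k)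
    (h1 : c' i / c' k = c i / c k) (h2 : c' j / c' k = c j / c k) : c = c' := by
  by_contra hne
  obtain ⟨hk, _⟩ := fre_basic h hik hc
  obtain ⟨hk', _⟩ := fre_basic h hik hc'
  rw [div_eq_div_iff hk' hk] at h1 h2
  have h3 := h.conf.ind c (clu_sub P ε k hc) c' (clu_sub P ε k hc') hne
  rw [fre_crq hij hik hjk h1 h2 hk] at h3
  exact lt_irrefl _ h3

/-- the order of the points of a cluster `k` as seen from the plane of the axes `k` and `i` -/
theorem chart_order {P : Finset V} {ε : ℝ} (h : Fr P ε) {i k : Fin 3} (hik : i ≠ k) :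
    ∃ v : V, (∀ a ∈ clu P ε k, ∀ b ∈ clu P ε k, a i / a k < b i / b k →
        0 < (1 / a k) * (1 / b k) * det v a b) ∧
      (∀ a ∈ clu P ε k, ∀ q ∈ clu P ε i, 0 < (1 / a k) * (1 / q i) * det v a q) := by
  obtain ⟨v, hv⟩ : ∃ v : V, ∀ a b : V, det v a b = a k * b i - a i * b k := by
    fin_cases i <;> fin_cases k <;> simp at hik ⊢
    · exact ⟨![0, 0, -1], fun a b => by simp [det]⟩
    · exact ⟨![0, 1, 0], fun a b => by simp [det]⟩
    · exact ⟨![0, 0, 1], fun a b => by simp [det]⟩
    · exact ⟨![-1, 0, 0], fun a b => by simp [det]⟩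
    · exact ⟨![0, -1, 0], fun a b => by simp [det]⟩
    · exact ⟨![1, 0, 0], fun a b => by simp [det]⟩
  refine ⟨v, fun a ha b hb hab => ?_, fun a ha q hq => ?_⟩
  · obtain ⟨h1, _⟩ := fre_basic h hik ha
    obtain ⟨h2, _⟩ := fre_basic h hik hb
    rw [hv]
    have : 1 / a k * (1 / b k) * (a k * b i - a i * b k) = b i / b k - a i / a k := by
      field_simp
    rw [this]; linarith
  · obtain ⟨h1, h2⟩ := fre_basic h hik ha
    obtain ⟨h3, h4⟩ := fre_basic h hik.symm hq
    rw [hv]
    have : 1 / a k * (1 / q i) * (a k * q i - a i * q k) = 1 - (a i / a k) * (q k / q i) := by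
      field_simp
    rw [this]
    have h5 : |(a i / a k) * (q k / q i)| ≤ (101 / 100 * ε) * (101 / 100 * ε) := by
      rw [abs_mul]
      exact mul_le_mul h2 h4 (abs_nonneg _) (by have := h.pos; positivity)
    have h6 := (abs_le.1 h5).2
    have h7 := h.pos
    have h8 := h.le
    nlinarith

end Pool.Agent.H89.DR
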