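import Pool.Agent.H89.DR.FrB

/-!
# Module FrG1 (about 110 lines): the lines meeting a far set carry much of the core

`{i, j, k} = {0,1,2}`, `C = clu k`; `A`, `Z` disjoint subsets of `C`; no line meeting `Z` and `A`
meets the cluster `j`.

* `pairs_ge`: `∑ l ∈ Lc k i, #(l ∩ Z) #(l ∩ A)` is the number of pairs `(z, a)` with line in `Lc k i`
  (`sum_prod_filter`); the other pairs are on lines meeting only the cluster `k`
  (by hypothesis and `left_mem_line`), at most `∑ kc^2 ≤ 22 ε n^2` pairs (`sum_lonely`).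
* `sq_le`: `#(l ∩ Z)^2 ≤ #(l ∩ Z) (kc k l - #(l ∩ A))`, and `∑ l ∈ Lc k i, #(l ∩ Z) kc k l
  ≤ ∑ #(l ∩ Z) kc i l + 7 sqrt ε n^2 = #Z #(clu i) + 7 sqrt ε n^2` (`sum_dif`, `oc_eq`, `sum_prod`);
  `22 ε ≤ sqrt ε`.
* `carry`: for `t ≥ 0`: `#(l ∩ A)^2 ≥ 2 t #(l ∩ A) #(l ∩ Z) - t^2 #(l ∩ Z)^2` on the lines meeting `Z`.
-/

set_option autoImplicit false

namespace Pool.Agent.H89.DR

open Finset Classical

private theorem frg1_third {i j k m : Fin 3} (hij : i ≠ j) (hik : i ≠ k) (hjk : j ≠ k)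
    (hm : m ≠ k) : m = i ∨ m = j := by
  have h1 := i.2
  have h2 := j.2
  have h3 := k.2
  have h4 := m.2
  simp only [ne_eq, Fin.ext_iff] at *
  omega

private theorem frg1_mono {P : Finset V} {ε : ℝ} {k : Fin 3} {A l : Finset V}
    (hA : A ⊆ clu P ε k) : ((l ∩ A).card : ℝ) ≤ kc P ε k l := by
  unfold kc
  exact_mod_cast card_le_card (inter_subset_inter_left hA)

theorem pairs_ge {P : Finset V} {ε : ℝ} (h : Fr P ε) {i j k : Fin 3} (hij : i ≠ j)
    (hik : i ≠ k) (hjk : j ≠ k) {A Z : Finset V} (hA : A ⊆ clu P ε k) (hZ : Z ⊆ clu P ε k)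
    (hAZ : Disjoint Z A)
    (hno : ∀ z ∈ Z, ∀ a ∈ A, ¬ (line P z a ∩ clu P ε j).Nonempty) :
    (Z.card : ℝ) * A.card - 22 * ε * (P.card : ℝ) ^ 2 ≤
      ∑ l ∈ Lc P ε k i, ((l ∩ Z).card : ℝ) * (l ∩ A).card := by
  have hAP : A ⊆ P := hA.trans (clu_sub P ε k)
  have hZP : Z ⊆ P := hZ.trans (clu_sub P ε k)
  have e1 := sum_prod_filter h.conf hZP hAP hAZ
    (fun l => (l ∩ clu P ε k).Nonempty ∧ (l ∩ clu P ε i).Nonempty)
  have e2 := sum_prod_filter h.conf hZP hAP hAZ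
    (fun l => (l ∩ clu P ε k).Nonempty ∧ ∀ j, j ≠ k → ¬ (l ∩ clu P ε j).Nonempty)
  have e3 : ∑ l ∈ (lines P).filter (fun l => (l ∩ clu P ε k).Nonempty ∧
      ∀ j, j ≠ k → ¬ (l ∩ clu P ε j).Nonempty), ((l ∩ Z).card : ℝ) * (l ∩ A).card ≤
      22 * ε * (P.card : ℝ) ^ 2 := by
    refine le_trans (sum_le_sum fun l _ => ?_) (sum_lonely h k)
    rw [sq]
    exact mul_le_mul (frg1_mono hZ) (frg1_mono hA) (Nat.cast_nonneg _)
      (Nat.cast_nonneg _)
  have e4 : (Z.card : ℝ) * A.card ≤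
      (((Z ×ˢ A).filter fun x => (line P x.1 x.2 ∩ clu P ε k).Nonempty ∧
        (line P x.1 x.2 ∩ clu P ε i).Nonempty).card : ℝ) +
      (((Z ×ˢ A).filter fun x => (line P x.1 x.2 ∩ clu P ε k).Nonempty ∧
        ∀ j, j ≠ k → ¬ (line P x.1 x.2 ∩ clu P ε j).Nonempty).card : ℝ) := by
    have h1 : Z.card * A.card ≤
      ((Z ×ˢ A).filter fun x => (line P x.1 x.2 ∩ clu P ε k).Nonempty ∧
        (line P x.1 x.2 ∩ clu P ε i).Nonempty).card +
      ((Z ×ˢ A).filter fun x => (line P x.1 x.2 ∩ clu P ε k).Nonempty ∧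
        ∀ j, j ≠ k → ¬ (line P x.1 x.2 ∩ clu P ε j).Nonempty).card := by
      rw [← card_product]
      refine le_trans (card_le_card ?_) (card_union_le _ _)
      intro x hx
      have hx' := mem_product.1 hx
      rw [mem_union, mem_filter, mem_filter]
      have hk : (line P x.1 x.2 ∩ clu P ε k).Nonempty :=
        ⟨x.1, mem_inter.2 ⟨left_mem_line (hZP hx'.1) _, hZ hx'.1⟩⟩
      by_cases hi : (line P x.1 x.2 ∩ clu P ε i).Nonempty
      · exact Or.inl ⟨hx, hk, hi⟩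
      · refine Or.inr ⟨hx, hk, fun m hm => ?_⟩
        rcases frg1_third hij hik hjk hm with h2 | h2
        · rw [h2]
          exact hi
        · rw [h2]
          exact hno _ hx'.1 _ hx'.2
    exact_mod_cast h1
  have e5 : ∑ l ∈ Lc P ε k i, ((l ∩ Z).card : ℝ) * (l ∩ A).card =
      (((Z ×ˢ A).filter fun x => (line P x.1 x.2 ∩ clu P ε k).Nonempty ∧
        (line P x.1 x.2 ∩ clu P ε i).Nonempty).card : ℝ) := by
    unfold Lc
    convert e1
  have e6 : ∑ l ∈ (lines P).filter (fun l => (l ∩ clu P ε k).Nonempty ∧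
      ∀ j, j ≠ k → ¬ (l ∩ clu P ε j).Nonempty), ((l ∩ Z).card : ℝ) * (l ∩ A).card =
      (((Z ×ˢ A).filter fun x => (line P x.1 x.2 ∩ clu P ε k).Nonempty ∧
        ∀ j, j ≠ k → ¬ (line P x.1 x.2 ∩ clu P ε j).Nonempty).card : ℝ) := by
    convert e2
  rw [e5]
  rw [e6] at e3
  linarith

theorem sum_cross_le {P : Finset V} {ε : ℝ} (h : Fr P ε) {i k : Fin 3} (hik : i ≠ k)
    {A : Finset V} (hA : A ⊆ clu P ε k) :
    ∑ l ∈ Lc P ε k i, ((l ∩ A).card : ℝ) * kc P ε k l ≤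
      (A.card : ℝ) * (clu P ε i).card + 7 * Real.sqrt ε * (P.card : ℝ) ^ 2 := by
  have hAP : A ⊆ P := hA.trans (clu_sub P ε k)
  have hd : Disjoint A (clu P ε i) := (clu_disj h hik.symm).mono_left hA
  have e1 := sum_prod h.conf hAP (clu_sub P ε i) hd
  have e2 := sum_dif h k hA
  have hsub : Lc P ε k i ⊆ lines P := filter_subset _ _
  calc ∑ l ∈ Lc P ε k i, ((l ∩ A).card : ℝ) * kc P ε k l
      ≤ ∑ l ∈ Lc P ε k i, (((l ∩ A).card : ℝ) * (l ∩ clu P ε i).card +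
          ((l ∩ A).card : ℝ) * |kc P ε k l - oc P ε k l|) := by
        refine sum_le_sum fun l hl => ?_
        rw [oc_eq h hik hl, ← mul_add]
        refine mul_le_mul_of_nonneg_left ?_ (Nat.cast_nonneg _)
        have h1 := le_abs_self (kc P ε k l - kc P ε i l)
        have h2 : kc P ε i l = ((l ∩ clu P ε i).card : ℝ) := rfl
        rw [← h2]
        linarith
    _ = ∑ l ∈ Lc P ε k i, ((l ∩ A).card : ℝ) * (l ∩ clu P ε i).card +
          ∑ l ∈ Lc P ε k i, ((l ∩ A).card : ℝ) * |kc P ε k l - oc P ε k l| := sum_add_distrib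
    _ ≤ ∑ l ∈ lines P, ((l ∩ A).card : ℝ) * (l ∩ clu P ε i).card +
          ∑ l ∈ lines P, ((l ∩ A).card : ℝ) * |kc P ε k l - oc P ε k l| := by
        refine add_le_add ?_ ?_
        · exact sum_le_sum_of_subset_of_nonneg hsub fun l _ _ => by positivity
        · exact sum_le_sum_of_subset_of_nonneg hsub fun l _ _ => by positivity
    _ ≤ _ := by
        rw [e1]
        linarith

theorem sq_le {P : Finset V} {ε : ℝ} (h : Fr P ε) {i j k : Fin 3} (hij : i ≠ j)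
    (hik : i ≠ k) (hjk : j ≠ k) {A Z : Finset V} (hA : A ⊆ clu P ε k) (hZ : Z ⊆ clu P ε k)
    (hAZ : Disjoint Z A)
    (hno : ∀ z ∈ Z, ∀ a ∈ A, ¬ (line P z a ∩ clu P ε j).Nonempty) :
    ∑ l ∈ Lc P ε k i, ((l ∩ Z).card : ℝ) ^ 2 ≤
      (Z.card : ℝ) * (((clu P ε i).card : ℝ) - A.card) +
        8 * Real.sqrt ε * (P.card : ℝ) ^ 2 := by
  have e1 := pairs_ge h hij hik hjk hA hZ hAZ hno
  have e2 := sum_cross_le h hik hZ
  have e3 : ∑ l ∈ Lc P ε k i, ((l ∩ Z).card : ℝ) ^ 2 ≤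
      ∑ l ∈ Lc P ε k i, ((l ∩ Z).card : ℝ) * kc P ε k l -
        ∑ l ∈ Lc P ε k i, ((l ∩ Z).card : ℝ) * (l ∩ A).card := by
    rw [← sum_sub_distrib]
    refine sum_le_sum fun l _ => ?_
    rw [sq, ← mul_sub]
    refine mul_le_mul_of_nonneg_left ?_ (Nat.cast_nonneg _)
    have h1 : (l ∩ Z).card + (l ∩ A).card ≤ (l ∩ clu P ε k).card := by
      rw [← card_union_of_disjoint]
      · exact card_le_card (union_subset (inter_subset_inter_left hZ)
          (inter_subset_inter_left hA))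
      · exact hAZ.mono inter_subset_right inter_subset_right
    have h2 : ((l ∩ Z).card : ℝ) + (l ∩ A).card ≤ kc P ε k l := by
      unfold kc
      exact_mod_cast h1
    linarith
  have e4 : 22 * ε ≤ Real.sqrt ε := by
    have h1 := Real.sq_sqrt h.pos.le
    have h2 := Real.sqrt_pos.2 h.pos
    have h3 : Real.sqrt ε ≤ 1 / 22 := by
      rw [Real.sqrt_le_left (by norm_num)]
      have := h.le
      norm_num
      linarith
    nlinarith
  have e5 : 22 * ε * (P.card : ℝ) ^ 2 ≤ Real.sqrt ε * (P.card : ℝ) ^ 2 :=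
    mul_le_mul_of_nonneg_right e4 (sq_nonneg _)
  linarith

theorem carry {P : Finset V} {ε : ℝ} (h : Fr P ε) {i j k : Fin 3} (hij : i ≠ j)
    (hik : i ≠ k) (hjk : j ≠ k) {A Z : Finset V} (hA : A ⊆ clu P ε k) (hZ : Z ⊆ clu P ε k)
    (hAZ : Disjoint Z A)
    (hno : ∀ z ∈ Z, ∀ a ∈ A, ¬ (line P z a ∩ clu P ε j).Nonempty) {t : ℝ} (ht : 0 ≤ t) :
    2 * t * ((Z.card : ℝ) * A.card - 22 * ε * (P.card : ℝ) ^ 2) -
      t ^ 2 * ((Z.card : ℝ) * (((clu P ε i).card : ℝ) - A.card) +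
        8 * Real.sqrt ε * (P.card : ℝ) ^ 2) ≤
      ∑ l ∈ (Lc P ε k i).filter (fun l => (l ∩ Z).Nonempty), ((l ∩ A).card : ℝ) ^ 2 := by
  have e1 := pairs_ge h hij hik hjk hA hZ hAZ hno
  have e2 := sq_le h hij hik hjk hA hZ hAZ hno
  have e3 : 2 * t * ∑ l ∈ Lc P ε k i, ((l ∩ Z).card : ℝ) * (l ∩ A).card -
      t ^ 2 * ∑ l ∈ Lc P ε k i, ((l ∩ Z).card : ℝ) ^ 2 ≤
      ∑ l ∈ (Lc P ε k i).filter (fun l => (l ∩ Z).Nonempty), ((l ∩ A).card : ℝ) ^ 2 := by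
    rw [mul_sum, mul_sum, ← sum_sub_distrib, sum_filter]
    refine sum_le_sum fun l _ => ?_
    by_cases hl : (l ∩ Z).Nonempty
    · rw [if_pos hl]
      nlinarith [sq_nonneg (((l ∩ A).card : ℝ) - t * (l ∩ Z).card)]
    · rw [if_neg hl, not_nonempty_iff_eq_empty.1 hl]
      simp
  have e4 := mul_le_mul_of_nonneg_left e1 (by linarith : 0 ≤ 2 * t)
  have e5 := mul_le_mul_of_nonneg_left e2 (sq_nonneg t)
  linarith

end Pool.Agent.H89.DR
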