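import Pool.Agent.H89.DR.FrG1
import Pool.Agent.H89.DR.FrC

/-!
# Module FrG2 (about 200 lines): case I, counting

`{i, j, k} = {0,1,2}`; the cluster `C = clu k`, `N = #C`, is the disjoint union of `A`, `Y`, `Z1`,
`Z2`; lines meeting `Z1` and `A` miss the cluster `j`, lines meeting `Z2` and `A` miss the cluster
`i`; `z = #Z1 + #Z2`, `δ N ≤ z ≤ N / 10000`, `#Y ≤ δ N / 100`, `δ ≤ 1/10000`,
`s = sqrt ε ≤ δ^2 / 100000`. `Di = #(clu i)`, `n = #P`, all four cardinalities `N, Di, Dj` are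
between `(1/3 - ε) n` and `(1/3 + 2 ε) n`.

(1) `carry` for `(i, Z1)` and for `(j, Z2)` (indices `i`, `j` exchanged) with
`t = #A / (z + #Y) ≤ 1/δ`: because `Di - #A ≤ 3 ε n + z + #Y`, the sum `X1` over the lines of
`Lc k i` meeting `Z1` is at least `#A^2 #Z1 / (z + #Y) - (44 t ε + t^2 (3 ε + 8 s)) n^2`, the same for
`X2`; together `X1 + X2 ≥ #A^2 z / (z + #Y) - 22 s/δ^2 n^2 ≥ 0.99 #A^2 - 0.0003 n^2`.
(2) `∑ l ∈ Lc k i, #(l ∩ A)^2 ≤ #A Di + 7 s n^2` (`sum_cross_le`), the same for `j`. So over the lines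
of `Lc k i` missing `Z1` (set `H0`) and of `Lc k j` missing `Z2` (set `W0`) the sum of `#(l ∩ A)^2` is
at most `#A (Di + Dj) - 0.99 #A^2 + 0.0005 n^2 ≤ 1.01 (1/3 + 2ε)^2 n^2 + 0.0005 n^2 ≤ 0.1135 n^2`
(`a (2D - 0.99 a) ≤ 1.01 D^2` for `a ≤ D`).
(3) The lines meeting `Z1` are at most `#Z1 (1/3 + ε) n ≤ 0.0000116 n^2` (`card_meet_le`), and on them
`∑ #(l ∩ A) ≤ sqrt (0.0000116 * 0.12) n^2 ≤ 0.0012 n^2` (Cauchy-Schwarz with (2)).
(4) `∑ l ∈ Lc k i, #(l ∩ A) ≥ ∑ kc k l - ∑ #(l ∩ (Y ∪ Z1 ∪ Z2)) ≥ (1/18 - 28 s) n^2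
- (z + #Y)(1/3 + ε) n ≥ 0.0555 n^2` (`sum_Lc_ge`), so `∑ l ∈ H0, #(l ∩ A) ≥ 0.054 n^2`, the same for
`W0`.
(5) So `∑ (H0, W0) (#(l ∩ A)^2 - #(l ∩ A)) ≤ 0.1135 n^2 - 0.108 n^2 = 0.0055 n^2`. A line with at
least two points of `A` is in `Lc k i` or `Lc k j` or meets only the cluster `k` (`no_three`); the last
ones contribute at most `22 ε n^2` (`sum_lonely`). Lines of `H0`, `W0` with `#(l ∩ A) ≥ 2` have
`#(l ∩ A) ≤ #(l ∩ A)^2 - #(l ∩ A)`. Total: `≤ (0.0024 + 0.0055 + 22 ε) n^2 ≤ n^2 / 100`.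
-/

set_option autoImplicit false

namespace Pool.Agent.H89.DR

open Finset Classical

private theorem FrG2_fin {i j k x : Fin 3} (hij : i ≠ j) (hik : i ≠ k) (hjk : j ≠ k)
    (hx : x ≠ k) : x = i ∨ x = j := by
  revert i j k x
  decide

private theorem FrG2_eps {P : Finset V} {ε : ℝ} (h : Fr P ε) {b : ℝ} (hs : Real.sqrt ε ≤ b) :
    0 < Real.sqrt ε ∧ ε = Real.sqrt ε ^ 2 ∧ ε ≤ b * Real.sqrt ε ∧ 0 < b := by
  have h1 : 0 < Real.sqrt ε := Real.sqrt_pos.2 h.pos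
  have h2 : ε = Real.sqrt ε ^ 2 := (Real.sq_sqrt h.pos.le).symm
  refine ⟨h1, h2, ?_, lt_of_lt_of_le h1 hs⟩
  calc ε = Real.sqrt ε * Real.sqrt ε := by rw [← sq]; exact h2
    _ ≤ b * Real.sqrt ε := mul_le_mul_of_nonneg_right hs h1.le

private theorem FrG2_npos {P : Finset V} {ε : ℝ} (h : Fr P ε) : 0 < (P.card : ℝ) := by
  have h1 := h.big
  have h2 := h.pos
  by_contra hc
  have h3 : (P.card : ℝ) ≤ 0 := not_lt.1 hc
  nlinarith

/-- the arithmetic of (1) -/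
private theorem FrG2_real {a z1 z2 y n ε s δ X1 X2 D1 D2 : ℝ} (hδ : 0 < δ)
    (hδ' : δ ≤ 1 / 10000) (hs0 : 0 ≤ s) (hs : s ≤ δ ^ 2 / 100000) (hε0 : 0 ≤ ε)
    (hε : ε ≤ s / 1000) (ha : 0 ≤ a) (hn : 0 < n) (hz1 : 0 ≤ z1) (hz2 : 0 ≤ z2) (hy : 0 ≤ y)
    (hz : 0 < z1 + z2) (hzn : z1 + z2 ≤ n) (hyz : y ≤ (z1 + z2) / 100)
    (haz : a * δ ≤ z1 + z2) (hD1 : D1 - a ≤ 3 * ε * n + y + (z1 + z2))
    (hD2 : D2 - a ≤ 3 * ε * n + y + (z1 + z2))
    (H1 : ∀ t : ℝ, 0 ≤ t → 2 * t * (z1 * a - 22 * ε * n ^ 2) -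
      t ^ 2 * (z1 * (D1 - a) + 8 * s * n ^ 2) ≤ X1)
    (H2 : ∀ t : ℝ, 0 ≤ t → 2 * t * (z2 * a - 22 * ε * n ^ 2) -
      t ^ 2 * (z2 * (D2 - a) + 8 * s * n ^ 2) ≤ X2) :
    0.99 * a ^ 2 - 0.0003 * n ^ 2 ≤ X1 + X2 := by
  obtain ⟨z, hzdef⟩ : ∃ z, z = z1 + z2 := ⟨_, rfl⟩
  rw [← hzdef] at hz hzn hyz haz hD1 hD2
  have hzy : 0 < z + y := by linarith
  obtain ⟨t, ht⟩ : ∃ t, t = a / (z + y) := ⟨_, rfl⟩
  have ht0 : 0 ≤ t := by rw [ht]; positivity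
  have hta : t * (z + y) = a := by rw [ht]; field_simp
  obtain ⟨T, hT⟩ : ∃ T, T = 1 / δ := ⟨_, rfl⟩
  have hT1 : 10000 ≤ T := by
    rw [hT, le_div_iff₀ hδ]
    linarith
  have hTδ : T * δ = 1 := by rw [hT]; field_simp
  have htT : t ≤ T := by
    rw [ht, hT, div_le_div_iff₀ hzy hδ]
    linarith
  have hT2 : T ^ 2 * s ≤ 1 / 100000 := by
    calc T ^ 2 * s ≤ T ^ 2 * (δ ^ 2 / 100000) := mul_le_mul_of_nonneg_left hs (by positivity)
      _ = (T * δ) ^ 2 / 100000 := by ring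
      _ = 1 / 100000 := by rw [hTδ]; norm_num
  have hTT : T ≤ T ^ 2 := by nlinarith
  have ht2 : t ^ 2 ≤ T ^ 2 := by gcongr
  have h1 := H1 t ht0
  have h2 := H2 t ht0
  have hn2 : 0 < n ^ 2 := by positivity
  -- upper bounds of the two negative terms
  have g1 : z1 * (D1 - a) ≤ z1 * (3 * ε * n + y + z) := mul_le_mul_of_nonneg_left hD1 hz1
  have g2 : z2 * (D2 - a) ≤ z2 * (3 * ε * n + y + z) := mul_le_mul_of_nonneg_left hD2 hz2
  have g3 : t ^ 2 * (z1 * (D1 - a) + z2 * (D2 - a)) ≤ t ^ 2 * (z * (3 * ε * n + y + z)) := by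
    apply mul_le_mul_of_nonneg_left _ (by positivity)
    rw [hzdef] at g1 g2 ⊢
    linarith
  -- the main term
  have g4 : t ^ 2 * (z * (y + z)) = t * z * a := by
    rw [← hta]; ring
  have hty : t * y ≤ t * z / 100 := by
    have := mul_le_mul_of_nonneg_left hyz ht0
    linarith
  have htz : 0.99 * a ≤ t * z := by
    have e1 : a = t * z + t * y := by rw [← hta]; ring
    have e2 : 0 ≤ t * z := by positivity
    nlinarith
  have g5 : 0.99 * a ^ 2 ≤ t * z * a := by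
    have := mul_le_mul_of_nonneg_right htz ha
    nlinarith
  -- the errors
  have e1 : 88 * t * ε * n ^ 2 ≤ 88 * (T ^ 2 * s / 1000) * n ^ 2 := by
    have e11 : t * ε ≤ T ^ 2 * (s / 1000) :=
      mul_le_mul (htT.trans hTT) hε hε0 (by positivity)
    nlinarith
  have e2 : t ^ 2 * (z * (3 * ε * n)) ≤ 3 * (T ^ 2 * s / 1000) * n ^ 2 := by
    have e21 : t ^ 2 * ε ≤ T ^ 2 * (s / 1000) := mul_le_mul ht2 hε hε0 (by positivity)
    have e22 : z * n ≤ n ^ 2 := by nlinarith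
    calc t ^ 2 * (z * (3 * ε * n)) = 3 * (t ^ 2 * ε) * (z * n) := by ring
      _ ≤ 3 * (T ^ 2 * (s / 1000)) * (n ^ 2) := by
          apply mul_le_mul _ e22 (by positivity) (by positivity)
          linarith
      _ = _ := by ring
  have e3 : t ^ 2 * (16 * s * n ^ 2) ≤ 16 * (T ^ 2 * s) * n ^ 2 := by
    have := mul_le_mul_of_nonneg_right ht2 (by positivity : 0 ≤ 16 * s * n ^ 2)
    linarith
  have e4 : 88 * (T ^ 2 * s / 1000) * n ^ 2 ≤ 88 * (1 / 100000 / 1000) * n ^ 2 := by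
    gcongr
  have e5 : 3 * (T ^ 2 * s / 1000) * n ^ 2 ≤ 3 * (1 / 100000 / 1000) * n ^ 2 := by
    gcongr
  have e6 : 16 * (T ^ 2 * s) * n ^ 2 ≤ 16 * (1 / 100000) * n ^ 2 := by
    gcongr
  have key : X1 + X2 ≥ 2 * t * (z * a) - 88 * t * ε * n ^ 2 -
      (t ^ 2 * (z1 * (D1 - a) + z2 * (D2 - a)) + t ^ 2 * (16 * s * n ^ 2)) := by
    rw [hzdef]
    linarith
  have g6 : t ^ 2 * (z * (3 * ε * n + y + z)) = t ^ 2 * (z * (3 * ε * n)) + t * z * a := by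
    rw [← g4]; ring
  nlinarith

/-- (1) -/
theorem caseI_carry {P : Finset V} {ε : ℝ} (h : Fr P ε) {i j k : Fin 3} (hij : i ≠ j)
    (hik : i ≠ k) (hjk : j ≠ k) {A Y Z1 Z2 : Finset V} {δ : ℝ} (hδ : 0 < δ)
    (hδ' : δ ≤ 1 / 10000) (hs : Real.sqrt ε ≤ δ ^ 2 / 100000)
    (hC : ((A ∪ Y) ∪ (Z1 ∪ Z2)) = clu P ε k) (d1 : Disjoint A Y) (d2 : Disjoint Z1 Z2)
    (d3 : Disjoint (A ∪ Y) (Z1 ∪ Z2))
    (hY : (Y.card : ℝ) ≤ δ / 100 * (clu P ε k).card)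
    (hZ : δ * (clu P ε k).card ≤ (Z1.card : ℝ) + Z2.card)
    (n1 : ∀ z ∈ Z1, ∀ a ∈ A, ¬ (line P z a ∩ clu P ε j).Nonempty)
    (n2 : ∀ z ∈ Z2, ∀ a ∈ A, ¬ (line P z a ∩ clu P ε i).Nonempty) :
    0.99 * (A.card : ℝ) ^ 2 - 0.0003 * (P.card : ℝ) ^ 2 ≤
      ∑ l ∈ (Lc P ε k i).filter (fun l => (l ∩ Z1).Nonempty), ((l ∩ A).card : ℝ) ^ 2 +
      ∑ l ∈ (Lc P ε k j).filter (fun l => (l ∩ Z2).Nonempty), ((l ∩ A).card : ℝ) ^ 2 := by
  obtain ⟨s0, s1, s2, s3⟩ := FrG2_eps h hs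
  have hn := FrG2_npos h
  have hA : A ⊆ clu P ε k := by
    rw [← hC]
    exact subset_union_left.trans subset_union_left
  have hZ1 : Z1 ⊆ clu P ε k := by
    rw [← hC]
    exact subset_union_left.trans subset_union_right
  have hZ2 : Z2 ⊆ clu P ε k := by
    rw [← hC]
    exact subset_union_right.trans subset_union_right
  have hZ1A : Disjoint Z1 A := by
    refine (Finset.disjoint_of_subset_left subset_union_left
      (Finset.disjoint_of_subset_right subset_union_left d3)).symm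
  have hZ2A : Disjoint Z2 A := by
    refine (Finset.disjoint_of_subset_left subset_union_left
      (Finset.disjoint_of_subset_right subset_union_right d3)).symm
  have hcard : (A.card : ℝ) + Y.card + (Z1.card + Z2.card) = (clu P ε k).card := by
    rw [← hC, Finset.card_union_of_disjoint d3, Finset.card_union_of_disjoint d1,
      Finset.card_union_of_disjoint d2]
    push_cast
    ring
  have hkge := h.clu_ge k
  have hile := clu_le h i
  have hjle := clu_le h j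
  have hεle := h.le
  have hkn : ((clu P ε k).card : ℝ) ≤ P.card := by
    exact_mod_cast Finset.card_le_card (clu_sub P ε k)
  have hkpos : 0 < ((clu P ε k).card : ℝ) := by
    have : 0 < (1 / 3 - ε) * (P.card : ℝ) := mul_pos (by linarith) hn
    linarith
  have hε' : ε ≤ Real.sqrt ε / 1000 := by
    have : δ ^ 2 / 100000 ≤ 1 / 1000 := by nlinarith
    calc ε ≤ δ ^ 2 / 100000 * Real.sqrt ε := s2
      _ ≤ 1 / 1000 * Real.sqrt ε := mul_le_mul_of_nonneg_right this s0.le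
      _ = _ := by ring
  have c1 : (0:ℝ) ≤ A.card := Nat.cast_nonneg _
  have c2 : (0:ℝ) ≤ Z1.card := Nat.cast_nonneg _
  have c3 : (0:ℝ) ≤ Z2.card := Nat.cast_nonneg _
  have c4 : (0:ℝ) ≤ Y.card := Nat.cast_nonneg _
  refine FrG2_real (a := (A.card : ℝ)) (z1 := (Z1.card : ℝ)) (z2 := (Z2.card : ℝ))
    (y := (Y.card : ℝ)) (n := (P.card : ℝ)) (ε := ε) (s := Real.sqrt ε) (δ := δ)
    (D1 := ((clu P ε i).card : ℝ)) (D2 := ((clu P ε j).card : ℝ)) hδ hδ' s0.le hs h.pos.le hε'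
    c1 hn c2 c3 c4 ?_ ?_ ?_ ?_ ?_ ?_ ?_ ?_
  · exact lt_of_lt_of_le (mul_pos hδ hkpos) hZ
  · linarith
  · have : δ / 100 * ((clu P ε k).card : ℝ) = (δ * (clu P ε k).card) / 100 := by ring
    rw [this] at hY
    linarith
  · have : (A.card : ℝ) * δ ≤ (clu P ε k).card * δ :=
      mul_le_mul_of_nonneg_right (by linarith) hδ.le
    linarith
  · linarith
  · linarith
  · intro t ht
    exact carry h hij hik hjk hA hZ1 hZ1A n1 ht
  · intro t ht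
    exact carry h hij.symm hjk hik hA hZ2 hZ2A n2 ht

private theorem FrG2_small {P : Finset V} {ε : ℝ} (h : Fr P ε)
    (hs : Real.sqrt ε ≤ 1 / 10 ^ 10) : 0 < Real.sqrt ε ∧ ε ≤ 1 / 10 ^ 20 ∧ 0 < ε := by
  obtain ⟨s0, s1, s2, s3⟩ := FrG2_eps h hs
  refine ⟨s0, ?_, h.pos⟩
  calc ε ≤ 1 / 10 ^ 10 * Real.sqrt ε := s2
    _ ≤ 1 / 10 ^ 10 * (1 / 10 ^ 10) := by gcongr
    _ = _ := by norm_num

/-- `∑ #(l ∩ A)^2` over the lines between two clusters -/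
private theorem FrG2_sq {P : Finset V} {ε : ℝ} (h : Fr P ε) {i k : Fin 3} (hik : i ≠ k)
    {A : Finset V} (hA : A ⊆ clu P ε k) :
    ∑ l ∈ Lc P ε k i, ((l ∩ A).card : ℝ) ^ 2 ≤
      (A.card : ℝ) * (clu P ε i).card + 7 * Real.sqrt ε * (P.card : ℝ) ^ 2 := by
  refine le_trans (Finset.sum_le_sum fun l _ => ?_) (sum_cross_le h hik hA)
  have h1 : ((l ∩ A).card : ℝ) ≤ kc P ε k l := by
    unfold kc
    exact_mod_cast Finset.card_le_card (Finset.inter_subset_inter_left hA)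
  rw [sq]
  exact mul_le_mul_of_nonneg_left h1 (Nat.cast_nonneg _)

/-- (3) -/
theorem caseI_few {P : Finset V} {ε : ℝ} (h : Fr P ε) {i k : Fin 3} (hik : i ≠ k)
    {A Z : Finset V} (hs : Real.sqrt ε ≤ 1 / 10 ^ 10) (hA : A ⊆ clu P ε k) (hZ : Z ⊆ clu P ε k)
    (hZ' : (Z.card : ℝ) ≤ 1 / 10000 * (clu P ε k).card) :
    ∑ l ∈ (Lc P ε k i).filter (fun l => (l ∩ Z).Nonempty), ((l ∩ A).card : ℝ) ≤
      0.0013 * (P.card : ℝ) ^ 2 := by
  obtain ⟨s0, e0, e1⟩ := FrG2_small h hs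
  have hn := FrG2_npos h
  obtain ⟨n, hndef⟩ : ∃ n : ℝ, n = P.card := ⟨_, rfl⟩
  obtain ⟨S, hS⟩ : ∃ S, S = (Lc P ε k i).filter (fun l => (l ∩ Z).Nonempty) := ⟨_, rfl⟩
  rw [← hS]
  have hZP : Z ⊆ P := hZ.trans (clu_sub P ε k)
  have hcount : (S.card : ℝ) ≤ (Z.card : ℝ) * ((1 / 3 + ε) * P.card) := by
    refine le_trans ?_ (card_meet_le hZP ((1 / 3 + ε) * P.card) fun p hp =>
      h.deg_le p (hZP hp))
    have : S ⊆ (lines P).filter fun l => (l ∩ Z).Nonempty := by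
      rw [hS]
      exact Finset.filter_subset_filter _ (Finset.filter_subset _ _)
    exact_mod_cast Finset.card_le_card this
  have hsq : ∑ l ∈ S, ((l ∩ A).card : ℝ) ^ 2 ≤
      (A.card : ℝ) * (clu P ε i).card + 7 * Real.sqrt ε * (P.card : ℝ) ^ 2 := by
    refine le_trans ?_ (FrG2_sq h hik hA)
    rw [hS]
    exact Finset.sum_le_sum_of_subset_of_nonneg (Finset.filter_subset _ _)
      fun _ _ _ => by positivity
  have hcs : (∑ l ∈ S, ((l ∩ A).card : ℝ)) ^ 2 ≤ (S.card : ℝ) * ∑ l ∈ S, ((l ∩ A).card : ℝ) ^ 2 :=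
    sq_sum_le_card_mul_sum_sq
  have hk := clu_le h k
  have hi := clu_le h i
  have hAk : (A.card : ℝ) ≤ (clu P ε k).card := by exact_mod_cast Finset.card_le_card hA
  rw [← hndef] at hn hcount hsq hk hi ⊢
  have hD : (1 / 3 + 2 * ε) * n ≤ 0.33334 * n := by
    apply mul_le_mul_of_nonneg_right _ hn.le
    linarith
  have c0 : (0:ℝ) ≤ (A.card : ℝ) := Nat.cast_nonneg _
  have c1 : (0:ℝ) ≤ ((clu P ε i).card : ℝ) := Nat.cast_nonneg _
  have b1 : (S.card : ℝ) ≤ 0.00001112 * n ^ 2 := by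
    have b11 : (Z.card : ℝ) ≤ 0.000033334 * n := by linarith
    have b12 : (1 / 3 + ε) * n ≤ 0.33334 * n := by
      apply mul_le_mul_of_nonneg_right _ hn.le
      linarith
    calc (S.card : ℝ) ≤ (Z.card : ℝ) * ((1 / 3 + ε) * n) := hcount
      _ ≤ (0.000033334 * n) * (0.33334 * n) :=
          mul_le_mul b11 b12 (by positivity) (by positivity)
      _ ≤ _ := by nlinarith [mul_pos hn hn]
  have b2 : ∑ l ∈ S, ((l ∩ A).card : ℝ) ^ 2 ≤ 0.1113 * n ^ 2 := by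
    have b21 : (A.card : ℝ) * (clu P ε i).card ≤ (0.33334 * n) * (0.33334 * n) :=
      mul_le_mul (by linarith) (by linarith) c1 (by positivity)
    have b22 : 7 * Real.sqrt ε * n ^ 2 ≤ 7 * (1 / 10 ^ 10) * n ^ 2 := by gcongr
    nlinarith [mul_pos hn hn]
  have b0 : 0 ≤ ∑ l ∈ S, ((l ∩ A).card : ℝ) ^ 2 := Finset.sum_nonneg fun _ _ => by positivity
  have b3 : (∑ l ∈ S, ((l ∩ A).card : ℝ)) ^ 2 ≤ (0.0013 * n ^ 2) ^ 2 := by
    calc (∑ l ∈ S, ((l ∩ A).card : ℝ)) ^ 2 ≤ (S.card : ℝ) * ∑ l ∈ S, ((l ∩ A).card : ℝ) ^ 2 := hcs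
      _ ≤ (0.00001112 * n ^ 2) * (0.1113 * n ^ 2) := mul_le_mul b1 b2 b0 (by positivity)
      _ ≤ _ := by
          have : 0 < n ^ 2 * n ^ 2 := by positivity
          nlinarith
  exact le_of_sq_le_sq b3 (by positivity)

/-- points on lines, sorted by points -/
private theorem FrG2_inc {P R : Finset V} (hR : R ⊆ P) :
    ∑ l ∈ lines P, ((l ∩ R).card : ℝ) = ∑ p ∈ R, (deg P p : ℝ) := by
  have h1 := sum_swap P (fun _ p => if p ∈ R then (1 : ℝ) else 0)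
  have h2 : ∀ l : Finset V, ∑ p ∈ l, (if p ∈ R then (1 : ℝ) else 0) = ((l ∩ R).card : ℝ) := by
    intro l
    rw [← Finset.sum_filter, Finset.sum_const, nsmul_eq_mul, mul_one,
      Finset.filter_mem_eq_inter]
  have h3 : ∀ p ∈ P, ∑ l ∈ thru P p, (if p ∈ R then (1 : ℝ) else 0) =
      if p ∈ R then (deg P p : ℝ) else 0 := by
    intro p _
    unfold deg
    split_ifs with h
    · rw [Finset.sum_const, nsmul_eq_mul, mul_one]
    · simp
  rw [Finset.sum_congr rfl (fun l _ => h2 l), Finset.sum_congr rfl h3,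
    ← Finset.sum_filter, Finset.filter_mem_eq_inter, Finset.inter_eq_right.2 hR] at h1
  exact h1

/-- (4) -/
theorem caseI_many {P : Finset V} {ε : ℝ} (h : Fr P ε) {i k : Fin 3} (hik : i ≠ k)
    {A R : Finset V} (hs : Real.sqrt ε ≤ 1 / 10 ^ 10) (hC : A ∪ R = clu P ε k)
    (hR : (R.card : ℝ) ≤ 2 / 10000 * (clu P ε k).card) :
    0.0555 * (P.card : ℝ) ^ 2 ≤ ∑ l ∈ Lc P ε k i, ((l ∩ A).card : ℝ) := by
  obtain ⟨s0, e0, e1⟩ := FrG2_small h hs
  have hn := FrG2_npos h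
  have hRk : R ⊆ clu P ε k := by
    rw [← hC]
    exact subset_union_right
  have hRP : R ⊆ P := hRk.trans (clu_sub P ε k)
  have h1 := sum_Lc_ge h hik
  have h2 : ∑ l ∈ Lc P ε k i, kc P ε k l ≤
      ∑ l ∈ Lc P ε k i, ((l ∩ A).card : ℝ) + ∑ l ∈ Lc P ε k i, ((l ∩ R).card : ℝ) := by
    rw [← Finset.sum_add_distrib]
    refine Finset.sum_le_sum fun l _ => ?_
    unfold kc
    rw [← hC, Finset.inter_union_distrib_left]
    exact_mod_cast Finset.card_union_le _ _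
  have h3 : ∑ l ∈ Lc P ε k i, ((l ∩ R).card : ℝ) ≤ ∑ l ∈ lines P, ((l ∩ R).card : ℝ) :=
    Finset.sum_le_sum_of_subset_of_nonneg (Finset.filter_subset _ _)
      fun _ _ _ => Nat.cast_nonneg _
  rw [FrG2_inc hRP] at h3
  have h4 : ∑ p ∈ R, (deg P p : ℝ) ≤ (R.card : ℝ) * ((1 / 3 + ε) * P.card) := by
    rw [← nsmul_eq_mul]
    exact Finset.sum_le_card_nsmul _ _ _ fun p hp => h.deg_le p (hRP hp)
  have hk := clu_le h k
  obtain ⟨n, hndef⟩ : ∃ n : ℝ, n = P.card := ⟨_, rfl⟩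
  rw [← hndef] at hn h1 h4 hk ⊢
  have b1 : (R.card : ℝ) ≤ 0.000066668 * n := by
    have : (1 / 3 + 2 * ε) * n ≤ 0.33334 * n := by
      apply mul_le_mul_of_nonneg_right _ hn.le
      linarith
    linarith
  have b2 : (1 / 3 + ε) * n ≤ 0.33334 * n := by
    apply mul_le_mul_of_nonneg_right _ hn.le
    linarith
  have b3 : (R.card : ℝ) * ((1 / 3 + ε) * n) ≤ (0.000066668 * n) * (0.33334 * n) :=
    mul_le_mul b1 b2 (by positivity) (by positivity)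
  have b4 : (1 / 18 - 28 * Real.sqrt ε) * n ^ 2 ≥ (1 / 18 - 28 * (1 / 10 ^ 10)) * n ^ 2 := by
    apply mul_le_mul_of_nonneg_right _ (by positivity)
    linarith
  nlinarith [mul_pos hn hn]

/-- a sum over lines with a property that has three cases -/
private theorem FrG2_three {S : Finset (Finset V)} {p q r t : Finset V → Prop}
    [DecidablePred p] [DecidablePred q] [DecidablePred r] [DecidablePred t] {f : Finset V → ℝ} (hf : ∀ l, 0 ≤ f l) (hp : ∀ l ∈ S, p l → q l ∨ r l ∨ t l) :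
    ∑ l ∈ S.filter p, f l ≤
      ∑ l ∈ S.filter q, f l + ∑ l ∈ S.filter r, f l + ∑ l ∈ S.filter t, f l := by
  simp only [Finset.sum_filter]
  rw [← Finset.sum_add_distrib, ← Finset.sum_add_distrib]
  refine Finset.sum_le_sum fun l hl => ?_
  have h0 := hf l
  have h1 := hp l hl
  split_ifs <;> first | linarith | (exfalso; tauto)

private theorem FrG2_nat (c : ℕ) (hc : 2 ≤ c) : (c : ℝ) ≤ (c : ℝ) ^ 2 - c := by
  have : (2 : ℝ) ≤ c := by exact_mod_cast hc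
  nlinarith

private theorem FrG2_nat0 (c : ℕ) : 0 ≤ (c : ℝ) ^ 2 - c := by
  rcases Nat.eq_zero_or_pos c with rfl | hc
  · simp
  · have : (1 : ℝ) ≤ c := by exact_mod_cast hc
    nlinarith

/-- the lines of `Lc k i` with at least two points of `A` -/
private theorem FrG2_part {P : Finset V} {ε : ℝ} {i k : Fin 3} {A Z : Finset V} :
    ∑ l ∈ (lines P).filter (fun l => l ∈ Lc P ε k i ∧ 2 ≤ (l ∩ A).card), ((l ∩ A).card : ℝ) ≤
      ∑ l ∈ (Lc P ε k i).filter (fun l => (l ∩ Z).Nonempty), ((l ∩ A).card : ℝ) +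
      ((∑ l ∈ Lc P ε k i, ((l ∩ A).card : ℝ) ^ 2 -
        ∑ l ∈ (Lc P ε k i).filter (fun l => (l ∩ Z).Nonempty), ((l ∩ A).card : ℝ) ^ 2) -
      (∑ l ∈ Lc P ε k i, ((l ∩ A).card : ℝ) -
        ∑ l ∈ (Lc P ε k i).filter (fun l => (l ∩ Z).Nonempty), ((l ∩ A).card : ℝ))) := by
  have e1 : (lines P).filter (fun l => l ∈ Lc P ε k i ∧ 2 ≤ (l ∩ A).card) =
      (Lc P ε k i).filter (fun l => 2 ≤ (l ∩ A).card) := by
    ext l
    simp only [Finset.mem_filter]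
    constructor
    · rintro ⟨_, h2, h3⟩
      exact ⟨h2, h3⟩
    · rintro ⟨h2, h3⟩
      exact ⟨(Finset.mem_filter.1 h2).1, h2, h3⟩
  rw [e1]
  simp only [Finset.sum_filter]
  rw [← Finset.sum_sub_distrib, ← Finset.sum_sub_distrib, ← Finset.sum_sub_distrib,
    ← Finset.sum_add_distrib]
  refine Finset.sum_le_sum fun l _ => ?_
  have h0 := FrG2_nat0 (l ∩ A).card
  have h1 : (0 : ℝ) ≤ ((l ∩ A).card : ℝ) := Nat.cast_nonneg _
  by_cases hc : 2 ≤ (l ∩ A).card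
  · have h2 := FrG2_nat _ hc
    rw [if_pos hc]
    split_ifs <;> linarith
  · rw [if_neg hc]
    split_ifs <;> linarith

theorem caseI_sum {P : Finset V} {ε : ℝ} (h : Fr P ε) {i j k : Fin 3} (hij : i ≠ j)
    (hik : i ≠ k) (hjk : j ≠ k) {A Y Z1 Z2 : Finset V} {δ : ℝ} (hδ : 0 < δ)
    (hδ' : δ ≤ 1 / 10000) (hs : Real.sqrt ε ≤ δ ^ 2 / 100000)
    (hC : ((A ∪ Y) ∪ (Z1 ∪ Z2)) = clu P ε k) (d1 : Disjoint A Y) (d2 : Disjoint Z1 Z2)
    (d3 : Disjoint (A ∪ Y) (Z1 ∪ Z2))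
    (hY : (Y.card : ℝ) ≤ δ / 100 * (clu P ε k).card)
    (hZ : δ * (clu P ε k).card ≤ (Z1.card : ℝ) + Z2.card)
    (hZ' : (Z1.card : ℝ) + Z2.card ≤ 1 / 10000 * (clu P ε k).card)
    (n1 : ∀ z ∈ Z1, ∀ a ∈ A, ¬ (line P z a ∩ clu P ε j).Nonempty)
    (n2 : ∀ z ∈ Z2, ∀ a ∈ A, ¬ (line P z a ∩ clu P ε i).Nonempty) :
    ∑ l ∈ (lines P).filter (fun l => 2 ≤ (l ∩ A).card), ((l ∩ A).card : ℝ) ≤
      (P.card : ℝ) ^ 2 / 100 := by
  have hs' : Real.sqrt ε ≤ 1 / 10 ^ 10 := by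
    refine hs.trans ?_
    have : δ ^ 2 ≤ (1 / 10000) ^ 2 := by gcongr
    linarith
  obtain ⟨s0, e0, e1⟩ := FrG2_small h hs'
  have hn := FrG2_npos h
  have hA : A ⊆ clu P ε k := by
    rw [← hC]
    exact subset_union_left.trans subset_union_left
  have hZ1 : Z1 ⊆ clu P ε k := by
    rw [← hC]
    exact subset_union_left.trans subset_union_right
  have hZ2 : Z2 ⊆ clu P ε k := by
    rw [← hC]
    exact subset_union_right.trans subset_union_right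
  have hN0 : (0:ℝ) ≤ ((clu P ε k).card : ℝ) := Nat.cast_nonneg _
  have c2 : (0:ℝ) ≤ Z1.card := Nat.cast_nonneg _
  have c3 : (0:ℝ) ≤ Z2.card := Nat.cast_nonneg _
  have hCR : A ∪ (Y ∪ (Z1 ∪ Z2)) = clu P ε k := by rw [← hC, Finset.union_assoc]
  have hRcard : ((Y ∪ (Z1 ∪ Z2)).card : ℝ) ≤ 2 / 10000 * (clu P ε k).card := by
    have r1 : ((Y ∪ (Z1 ∪ Z2)).card : ℝ) ≤ Y.card + (Z1.card + Z2.card) := by
      have a1 := Finset.card_union_le Y (Z1 ∪ Z2)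
      have a2 := Finset.card_union_le Z1 Z2
      exact_mod_cast a1.trans (by omega)
    have r2 : δ / 100 * ((clu P ε k).card : ℝ) ≤ 1 / 10000 * (clu P ε k).card := by
      apply mul_le_mul_of_nonneg_right _ hN0
      linarith
    linarith
  have hcar := caseI_carry h hij hik hjk hδ hδ' hs hC d1 d2 d3 hY hZ n1 n2
  have hf1 := caseI_few h hik hs' hA hZ1 (by linarith)
  have hf2 := caseI_few h hjk hs' hA hZ2 (by linarith)
  have hm1 := caseI_many h hik hs' hCR hRcard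
  have hm2 := caseI_many h hjk hs' hCR hRcard
  have hq1 := FrG2_sq h hik hA
  have hq2 := FrG2_sq h hjk hA
  have hp1 := FrG2_part (P := P) (ε := ε) (i := i) (k := k) (A := A) (Z := Z1)
  have hp2 := FrG2_part (P := P) (ε := ε) (i := j) (k := k) (A := A) (Z := Z2)
  have hthree := FrG2_three (S := lines P) (p := fun l => 2 ≤ (l ∩ A).card)
    (q := fun l => l ∈ Lc P ε k i ∧ 2 ≤ (l ∩ A).card)
    (r := fun l => l ∈ Lc P ε k j ∧ 2 ≤ (l ∩ A).card)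
    (t := fun l => (l ∩ clu P ε k).Nonempty ∧ ∀ x, x ≠ k → ¬ (l ∩ clu P ε x).Nonempty)
    (f := fun l => ((l ∩ A).card : ℝ)) (fun l => Nat.cast_nonneg _) (by
      intro l hl hc
      have hne : (l ∩ clu P ε k).Nonempty := by
        have h1 : (l ∩ A).Nonempty := Finset.card_pos.1 (by omega)
        exact h1.mono (Finset.inter_subset_inter_left hA)
      by_cases h1 : (l ∩ clu P ε i).Nonempty
      · exact Or.inl ⟨Finset.mem_filter.2 ⟨hl, hne, h1⟩, hc⟩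
      · by_cases h2 : (l ∩ clu P ε j).Nonempty
        · exact Or.inr (Or.inl ⟨Finset.mem_filter.2 ⟨hl, hne, h2⟩, hc⟩)
        · refine Or.inr (Or.inr ⟨hne, fun x hx => ?_⟩)
          rcases FrG2_fin hij hik hjk hx with rfl | rfl
          · exact h1
          · exact h2)
  have hlon : ∑ l ∈ (lines P).filter (fun l => (l ∩ clu P ε k).Nonempty ∧
      ∀ x, x ≠ k → ¬ (l ∩ clu P ε x).Nonempty), ((l ∩ A).card : ℝ) ≤
      22 * ε * (P.card : ℝ) ^ 2 := by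
    refine le_trans (Finset.sum_le_sum fun l _ => ?_) (sum_lonely h k)
    have l1 : (l ∩ A).card ≤ (l ∩ clu P ε k).card :=
      Finset.card_le_card (Finset.inter_subset_inter_left hA)
    have l2 : (l ∩ clu P ε k).card ≤ (l ∩ clu P ε k).card ^ 2 := Nat.le_self_pow (by norm_num) _
    unfold kc
    exact_mod_cast l1.trans l2
  have hi := clu_le h i
  have hj := clu_le h j
  have hk := clu_le h k
  have hAk : (A.card : ℝ) ≤ (clu P ε k).card := by exact_mod_cast Finset.card_le_card hA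
  have c0 : (0:ℝ) ≤ (A.card : ℝ) := Nat.cast_nonneg _
  obtain ⟨n, hndef⟩ : ∃ n : ℝ, n = P.card := ⟨_, rfl⟩
  rw [← hndef] at hn hcar hf1 hf2 hm1 hm2 hq1 hq2 hlon hi hj hk ⊢
  obtain ⟨D, hD⟩ : ∃ D : ℝ, D = (1 / 3 + 2 * ε) * n := ⟨_, rfl⟩
  rw [← hD] at hi hj hk
  have hD0 : 0 ≤ D := by rw [hD]; positivity
  have hDn : D ≤ 0.33334 * n := by
    rw [hD]
    apply mul_le_mul_of_nonneg_right _ hn.le
    linarith
  have hDD : D ^ 2 ≤ 0.1111156 * n ^ 2 := by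
    have : D ^ 2 ≤ (0.33334 * n) ^ 2 := by gcongr
    nlinarith [mul_pos hn hn]
  have hquad : (A.card : ℝ) * (clu P ε i).card + (A.card : ℝ) * (clu P ε j).card -
      0.99 * (A.card : ℝ) ^ 2 ≤ 1.01 * D ^ 2 := by
    have u1 : (A.card : ℝ) * (clu P ε i).card ≤ (A.card : ℝ) * D :=
      mul_le_mul_of_nonneg_left hi c0
    have u2 : (A.card : ℝ) * (clu P ε j).card ≤ (A.card : ℝ) * D :=
      mul_le_mul_of_nonneg_left hj c0
    have u3 : (A.card : ℝ) ≤ D := by linarith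
    nlinarith [sq_nonneg (D - A.card), mul_nonneg (sub_nonneg.2 u3) (add_nonneg c0 hD0)]
  have v1 : 7 * Real.sqrt ε * n ^ 2 ≤ 0.00001 * n ^ 2 := by
    apply mul_le_mul_of_nonneg_right _ (by positivity)
    linarith
  have v2 : 22 * ε * n ^ 2 ≤ 0.00001 * n ^ 2 := by
    apply mul_le_mul_of_nonneg_right _ (by positivity)
    linarith
  have hn2 : 0 < n ^ 2 := by positivity
  linarith

end Pool.Agent.H89.DR
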