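import Pool.Agent.H89.DR.JR
import Pool.Agent.H47.DR.Wt

/-!
# Module Han (about 120 lines): the isotropic inequality

For `A` a configuration all of whose lines have at most two thirds of the points (and `3 ≤ #A`):
`∑ deg ≥ n^2 / 3`.

Proof. Build `C : H47.DR.Cfg A.card`: enumerate `A` by `φ = A.equivFin.symm`, `C.u i` = the vector
`WithLp.toLp 2 (φ i)` of `E` (inner product = `dot`: `EuclideanSpace.inner_eq_star_dotProduct`,
`PiLp.inner_apply`, `Fin.sum_univ_three`), `C.L` = the images of the lines of `A` under `φ⁻¹`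
(`(lines A).image fun l => univ.filter fun i => φ i ∈ l`); `two`, `ex`, `uniq` from the lemmas of
`LinA`/`LinB` on `lines`; `indep`: `crq p q = 1 - dot p q ^ 2 > 0` (Lagrange); `nu`: the normal is the
normalised `crs p q`. Apply `H47.DR.Cfg.wt` with the weights `w = 1`: `A.card ^ 2 / 3 ≤ ∑ i, #{l ∈ C.L :
i ∈ l ∧ ..} ≤ ∑ i, C.deg i`, and `C.deg i = deg A (φ i)` (a bijection of lines).
(Alternatively directly from `H66.Iso.low` and `H66.Iso.iso_pos` as in `H47.DR.IsoPos`.)
-/

set_option autoImplicit false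

namespace Pool.Agent.H89.DR

open Finset Classical

private noncomputable def Han_v (A : Finset V) (i : Fin A.card) : V := (A.equivFin.symm i).1

private theorem Han_v_mem (A : Finset V) (i : Fin A.card) : Han_v A i ∈ A :=
  (A.equivFin.symm i).2

private theorem Han_v_inj (A : Finset V) : Function.Injective (Han_v A) := by
  intro i j h
  exact A.equivFin.symm.injective (Subtype.ext h)

private theorem Han_v_surj (A : Finset V) {p : V} (hp : p ∈ A) : ∃ i, Han_v A i = p := by
  refine ⟨A.equivFin ⟨p, hp⟩, ?_⟩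
  unfold Han_v
  simp

private noncomputable def Han_pre (A : Finset V) (l : Finset V) : Finset (Fin A.card) :=
  univ.filter (fun i => Han_v A i ∈ l)

private theorem Han_mem_pre {A l : Finset V} {i : Fin A.card} : i ∈ Han_pre A l ↔ Han_v A i ∈ l := by
  simp [Han_pre]

private theorem Han_card_pre {A l : Finset V} (hl : l ⊆ A) : (Han_pre A l).card = l.card := by
  have h : (Han_pre A l).image (Han_v A) = l := by
    ext p
    rw [mem_image]
    constructor
    · rintro ⟨i, hi, rfl⟩
      exact Han_mem_pre.1 hi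
    · intro hp
      obtain ⟨i, hi⟩ := Han_v_surj A (hl hp)
      exact ⟨i, Han_mem_pre.2 (by rw [hi]; exact hp), hi⟩
  rw [← h, card_image_of_injective _ (Han_v_inj A), h]

private theorem Han_ip (x y : V) :
    (inner ℝ (WithLp.toLp 2 x : H47.DR.E) (WithLp.toLp 2 y : H47.DR.E) : ℝ) = dot x y := by
  rw [PiLp.inner_apply, Fin.sum_univ_three]
  simp only [dot, RCLike.inner_apply, conj_trivial]
  ring

private theorem Han_norm {x : V} (hx : dot x x = 1) : ‖(WithLp.toLp 2 x : H47.DR.E)‖ = 1 := by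
  have h := real_inner_self_eq_norm_sq (WithLp.toLp 2 x : H47.DR.E)
  rw [Han_ip, hx] at h
  have h0 : 0 ≤ ‖(WithLp.toLp 2 x : H47.DR.E)‖ := norm_nonneg _
  nlinarith

private noncomputable def Han_cfg {A : Finset V} (hA : Conf A) : H47.DR.Cfg A.card where
  L := (lines A).image (Han_pre A)
  two := by
    intro m hm
    obtain ⟨l, hl, rfl⟩ := mem_image.1 hm
    rw [Han_card_pre (lines_sub hl)]
    exact two_le_card hl
  ex := by
    intro i j hij
    have hne : Han_v A i ≠ Han_v A j := fun h => hij (Han_v_inj A h)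
    refine ⟨Han_pre A (line A (Han_v A i) (Han_v A j)), mem_image_of_mem _
      (line_mem_lines (Han_v_mem A i) (Han_v_mem A j) hne), ?_, ?_⟩
    · exact Han_mem_pre.2 (left_mem_line (Han_v_mem A i) _)
    · exact Han_mem_pre.2 (right_mem_line _ (Han_v_mem A j))
  uniq := by
    intro m hm m' hm' i j hij hi hj hi' hj'
    obtain ⟨l, hl, rfl⟩ := mem_image.1 hm
    obtain ⟨l', hl', rfl⟩ := mem_image.1 hm'
    have hne : Han_v A i ≠ Han_v A j := fun h => hij (Han_v_inj A h)
    rw [Han_mem_pre] at hi hj hi' hj'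
    rw [line_unique hA hl hi hj hne, line_unique hA hl' hi' hj' hne]
  u := fun i => WithLp.toLp 2 (Han_v A i)
  unit := by
    intro i
    exact Han_norm (hA.unit _ (Han_v_mem A i))
  indep := by
    intro i j hij
    have hne : Han_v A i ≠ Han_v A j := fun h => hij (Han_v_inj A h)
    have h := hA.ind _ (Han_v_mem A i) _ (Han_v_mem A j) hne
    rw [crq_eq, hA.unit _ (Han_v_mem A i), hA.unit _ (Han_v_mem A j)] at h
    have h2 : (inner ℝ (WithLp.toLp 2 (Han_v A i) : H47.DR.E)
      (WithLp.toLp 2 (Han_v A j) : H47.DR.E) : ℝ) = dot (Han_v A i) (Han_v A j) := Han_ip _ _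
    unfold H47.DR.ip
    rw [h2, ← sq_lt_one_iff_abs_lt_one]
    linarith
  nu := by
    intro m hm
    obtain ⟨l, hl, rfl⟩ := mem_image.1 hm
    obtain ⟨w, hw, hwl⟩ := exists_normal hA hl
    refine ⟨WithLp.toLp 2 w, Han_norm hw, fun i => ?_⟩
    rw [Han_mem_pre, hwl _ (Han_v_mem A i)]
    unfold H47.DR.ip
    rw [Han_ip, dot_comm]

theorem han {A : Finset V} (hA : Conf A) (h3 : 3 ≤ A.card)
    (h : ∀ l ∈ lines A, 3 * l.card ≤ 2 * A.card) :
    (A.card : ℝ) ^ 2 / 3 ≤ ∑ p ∈ A, (deg A p : ℝ) := by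
  have h1 := (Han_cfg hA).wt (fun _ => 1) (by intro i; simpa using h3) (by
    intro m hm
    have hm' : m ∈ (lines A).image (Han_pre A) := hm
    obtain ⟨l, hl, rfl⟩ := mem_image.1 hm'
    simp only [sum_const, card_univ, Fintype.card_fin, smul_eq_mul, mul_one]
    rw [Han_card_pre (lines_sub hl)]
    exact h l hl)
  simp only [Nat.cast_one, sum_const, card_univ, Fintype.card_fin, nsmul_eq_mul, mul_one, one_pow,
    one_mul] at h1
  refine le_trans h1 ?_
  have h2 : ∑ p ∈ A, (deg A p : ℝ) = ∑ i : Fin A.card, (deg A (Han_v A i) : ℝ) := by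
    have e : A = univ.image (Han_v A) := by
      ext p
      rw [mem_image]
      constructor
      · intro hp
        obtain ⟨i, hi⟩ := Han_v_surj A hp
        exact ⟨i, mem_univ _, hi⟩
      · rintro ⟨i, _, rfl⟩
        exact Han_v_mem A i
    have e2 : ∑ p ∈ A, (deg A p : ℝ) = ∑ p ∈ univ.image (Han_v A), (deg A p : ℝ) := by
      rw [← e]
    rw [e2, sum_image (fun i _ j _ hij => Han_v_inj A hij)]
  rw [h2]
  apply sum_le_sum
  intro i _
  rw [Nat.cast_le]
  unfold deg
  refine le_trans (card_le_card ?_) (card_image_le (s := thru A (Han_v A i)) (f := Han_pre A))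
  intro m hm
  rw [mem_filter] at hm
  have hm' : m ∈ (lines A).image (Han_pre A) := hm.1
  obtain ⟨l, hl, rfl⟩ := mem_image.1 hm'
  refine mem_image_of_mem _ ?_
  unfold thru
  rw [mem_filter]
  exact ⟨hl, Han_mem_pre.1 hm.2.1⟩

end Pool.Agent.H89.DR
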