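import Pool.Agent.H89.DR.LinB

/-!
# Module Sub (about 70 lines): the lines of a subset

The lines of `A ⊆ P` are the sets `l ∩ A`, `l ∈ lines P`, with at least two points, and `l ↦ l ∩ A`
is injective on these lines (`line_unique`).
-/

set_option autoImplicit false

namespace Pool.Agent.H89.DR

open Finset Classical

theorem Conf.mono {P A : Finset V} (hP : Conf P) (hA : A ⊆ P) : Conf A :=
  ⟨fun p hp => hP.unit p (hA hp), fun p hp q hq h => hP.ind p (hA hp) q (hA hq) h⟩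

private theorem Sub_line {P A : Finset V} (hA : A ⊆ P) (p q : V) :
    line A p q = line P p q ∩ A := by
  ext t
  simp only [line, Finset.mem_filter, Finset.mem_inter]
  constructor
  · rintro ⟨h1, h2⟩; exact ⟨⟨hA h1, h2⟩, h1⟩
  · rintro ⟨⟨_, h2⟩, h1⟩; exact ⟨h1, h2⟩

theorem mem_lines_sub {P A : Finset V} (hP : Conf P) (hA : A ⊆ P) (m : Finset V) :
    m ∈ lines A ↔ ∃ l ∈ lines P, m = l ∩ A ∧ 2 ≤ (l ∩ A).card := by
  constructor
  · intro hm
    have h2 := two_le_card hm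
    obtain ⟨p, hp, q, hq, hpq, rfl⟩ := (mem_lines A m).1 hm
    rw [Sub_line hA] at h2 ⊢
    exact ⟨line P p q, line_mem_lines (hA hp) (hA hq) hpq, rfl, h2⟩
  · rintro ⟨l, hl, rfl, h2⟩
    obtain ⟨p, hp, q, hq, hpq⟩ := Finset.one_lt_card.1 h2
    rw [Finset.mem_inter] at hp hq
    have e : l = line P p q := line_unique hP hl hp.1 hq.1 hpq
    rw [mem_lines]
    refine ⟨p, hp.2, q, hq.2, hpq, ?_⟩
    rw [Sub_line hA, ← e]

theorem sum_lines_sub {P A : Finset V} (hP : Conf P) (hA : A ⊆ P) (F : Finset V → ℝ) :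
    ∑ m ∈ lines A, F m = ∑ l ∈ (lines P).filter (fun l => 2 ≤ (l ∩ A).card), F (l ∩ A) := by
  symm
  refine Finset.sum_bij (fun l _ => l ∩ A) ?_ ?_ ?_ ?_
  · intro l hl
    rw [Finset.mem_filter] at hl
    exact (mem_lines_sub hP hA _).2 ⟨l, hl.1, rfl, hl.2⟩
  · intro l hl l' hl' e
    rw [Finset.mem_filter] at hl hl'
    obtain ⟨p, hp, q, hq, hpq⟩ := Finset.one_lt_card.1 hl.2
    have hp' : p ∈ l' ∩ A := by
      have e' : l ∩ A = l' ∩ A := e
      rw [← e']; exact hp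
    have hq' : q ∈ l' ∩ A := by
      have e' : l ∩ A = l' ∩ A := e
      rw [← e']; exact hq
    rw [Finset.mem_inter] at hp hq hp' hq'
    rw [line_unique hP hl.1 hp.1 hq.1 hpq, line_unique hP hl'.1 hp'.1 hq'.1 hpq]
  · intro m hm
    obtain ⟨l, hl, e, h2⟩ := (mem_lines_sub hP hA m).1 hm
    exact ⟨l, Finset.mem_filter.2 ⟨hl, h2⟩, e.symm⟩
  · intro l _
    rfl

end Pool.Agent.H89.DR
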