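import Pool.Agent.H89.DR.FrG2
import Pool.Agent.H89.DR.Han
import Pool.Agent.H89.DR.Sub

/-!
# Module FrG3 (about 80 lines): case I is impossible

The configuration `A` has `#A ≥ 0.999 N ≥ 0.33 n` points. A line `m = l ∩ A` of `A` with
`3 #m > 2 #A` would have `kc k l ≥ 0.22 n`, by `bal` (`sqrt (Q l) ≤ sqrt (ε n^2)` because every `Q` is
nonnegative and the sum is `≤ ε n^2`, `zc ≤ 3 ε n`) `oc k l ≥ 0.21 n`, so `#l ≥ 0.43 n` against
`line_le`. So `han` gives `#A^2 / 3 ≤ ∑ p ∈ A, deg A p = ∑ m ∈ lines A, #m` (`sum_deg`)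
`= ∑ (l ∈ lines P, 2 ≤ #(l ∩ A)) #(l ∩ A)` (`sum_lines_sub`) `≤ n^2 / 100` (`caseI_sum`), but
`#A^2 / 3 ≥ 0.036 n^2`. (`n` is large because `1 ≤ ε n`.)
-/

set_option autoImplicit false

namespace Pool.Agent.H89.DR

open Finset Classical

theorem caseI {P : Finset V} {ε : ℝ} (h : Fr P ε) {i j k : Fin 3} (hij : i ≠ j)
    (hik : i ≠ k) (hjk : j ≠ k) {A Y Z1 Z2 : Finset V} {δ : ℝ} (hδ : 0 < δ)
    (hδ' : δ ≤ 1 / 10000) (hs : Real.sqrt ε ≤ δ ^ 2 / 100000)
    (hC : ((A ∪ Y) ∪ (Z1 ∪ Z2)) = clu P ε k) (d1 : Disjoint A Y) (d2 : Disjoint Z1 Z2)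
    (d3 : Disjoint (A ∪ Y) (Z1 ∪ Z2))
    (hY : (Y.card : ℝ) ≤ δ / 100 * (clu P ε k).card)
    (hZ : δ * (clu P ε k).card ≤ (Z1.card : ℝ) + Z2.card)
    (hZ' : (Z1.card : ℝ) + Z2.card ≤ 1 / 10000 * (clu P ε k).card)
    (n1 : ∀ z ∈ Z1, ∀ a ∈ A, ¬ (line P z a ∩ clu P ε j).Nonempty)
    (n2 : ∀ z ∈ Z2, ∀ a ∈ A, ¬ (line P z a ∩ clu P ε i).Nonempty) : False := by
  have hsum := caseI_sum h hij hik hjk hδ hδ' hs hC d1 d2 d3 hY hZ hZ' n1 n2
  have hsub : A ⊆ clu P ε k := by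
    rw [← hC]
    exact subset_union_left.trans subset_union_left
  have hAP : A ⊆ P := hsub.trans (clu_sub P ε k)
  -- sizes
  have hs1 : Real.sqrt ε ≤ 1 / 10 ^ 10 := by
    have h1 : δ ^ 2 ≤ (1 / 10000) ^ 2 := pow_le_pow_left₀ hδ.le hδ' 2
    refine hs.trans ?_
    linarith
  have hs0 : 0 ≤ Real.sqrt ε := Real.sqrt_nonneg ε
  have hε : ε ≤ 1 / 10 ^ 10 := by
    have h1 := Real.mul_self_sqrt h.pos.le
    nlinarith
  have hn : (0 : ℝ) ≤ P.card := Nat.cast_nonneg _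
  have hnbig : (10 : ℝ) ^ 10 ≤ P.card := by
    have h1 := h.big
    have h2 : ε * (P.card : ℝ) ≤ 1 / 10 ^ 10 * P.card := mul_le_mul_of_nonneg_right hε hn
    linarith
  have hcardC : ((clu P ε k).card : ℝ) = (A.card : ℝ) + Y.card + ((Z1.card : ℝ) + Z2.card) := by
    rw [← hC, card_union_of_disjoint d3, card_union_of_disjoint d1, card_union_of_disjoint d2]
    push_cast
    ring
  have hN1 := h.clu_ge k
  have hN2 := clu_le h k
  have hA1 : 0.33 * (P.card : ℝ) ≤ A.card := by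
    have h1 : δ / 100 * ((clu P ε k).card : ℝ) ≤ 1 / 1000000 * (clu P ε k).card := by
      refine mul_le_mul_of_nonneg_right ?_ (Nat.cast_nonneg _)
      linarith
    have h2 : ε * (P.card : ℝ) ≤ 1 / 10 ^ 10 * P.card := mul_le_mul_of_nonneg_right hε hn
    linarith
  have hAC := Conf.mono h.conf hAP
  have h3 : 3 ≤ A.card := by
    have h1 : (3 : ℝ) ≤ A.card := by linarith
    exact_mod_cast h1
  have hlines : ∀ m ∈ lines A, 3 * m.card ≤ 2 * A.card := by
    intro m hm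
    obtain ⟨l, hl, rfl, h2⟩ := (mem_lines_sub h.conf hAP m).1 hm
    by_contra hlt
    push Not at hlt
    have hlt' : (2 : ℝ) * A.card < 3 * (l ∩ A).card := by exact_mod_cast hlt
    have hkc : ((l ∩ A).card : ℝ) ≤ kc P ε k l := by
      unfold kc
      exact_mod_cast card_le_card (inter_subset_inter_left hsub)
    have hne : (l ∩ clu P ε k).Nonempty := by
      have h4 : (l ∩ A).Nonempty := card_pos.1 (by omega)
      exact h4.mono (inter_subset_inter_left hsub)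
    have hb := bal h k hl hne
    have hsp := card_split h (lines_sub hl) k
    have hzc0 : 0 ≤ zc P ε l := Nat.cast_nonneg _
    have hzc : zc P ε l ≤ 3 * ε * P.card := by
      refine le_trans ?_ (rest_le h)
      unfold zc
      exact_mod_cast card_le_card inter_subset_right
    have hQ : Real.sqrt (Q l) ≤ Real.sqrt ε * P.card := by
      have h5 : Q l ≤ ε * (P.card : ℝ) ^ 2 := by
        refine le_trans ?_ h.sumQ
        exact single_le_sum (f := Q) (fun m hm => Q_nonneg h.conf hm) hl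
      refine (Real.sqrt_le_sqrt h5).trans (le_of_eq ?_)
      rw [Real.sqrt_mul h.pos.le, Real.sqrt_sq hn]
    have hln : (l.card : ℝ) ≤ P.card := by exact_mod_cast card_le_card (lines_sub hl)
    have hll := h.line_le l hl
    have h6 := (abs_le.1 hb).2
    have h7 : Real.sqrt ε * (P.card : ℝ) ≤ 1 / 10 ^ 10 * P.card :=
      mul_le_mul_of_nonneg_right hs1 hn
    have h8 : ε * (P.card : ℝ) ≤ 1 / 10 ^ 10 * P.card := mul_le_mul_of_nonneg_right hε hn
    have h9 : 18 * ε ^ 2 * (l.card : ℝ) ≤ 18 * (1 / 10 ^ 10) * P.card := by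
      have h10 : ε ^ 2 ≤ 1 / 10 ^ 10 := by
        have := h.pos
        nlinarith
      refine mul_le_mul ?_ hln (Nat.cast_nonneg _) (by positivity)
      linarith
    nlinarith
  have key := han hAC h3 hlines
  rw [← sum_deg A, sum_lines_sub h.conf hAP (fun m => (m.card : ℝ))] at key
  have h11 : (0.33 * (P.card : ℝ)) ^ 2 ≤ (A.card : ℝ) ^ 2 :=
    pow_le_pow_left₀ (by positivity) hA1 2
  have h12 : (0 : ℝ) < (P.card : ℝ) ^ 2 := by positivity
  nlinarith

end Pool.Agent.H89.DR
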