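import Pool.Agent.H89.DR.FrG1
import Pool.Agent.H89.DR.FrE

/-!
# Module FrH1 (about 150 lines): case II, proportionality on the lines of a pencil

`{i, j, k} = {0,1,2}`, `C = clu k`, `A, B ⊆ C` with `#A, #B ≥ N/80000`, all but `4 δ N` points of `C` in
`A ∪ B`, `X a < X b` for `a ∈ A`, `b ∈ B`, lines meeting `A` and `B` miss the cluster `j`; `D = clu i`,
`s = sqrt ε`. Sums over `l ∈ Lc k i`; `α = #(l ∩ A)`, `β = #(l ∩ B)`, `γ = kc i l = #(l ∩ D)`,
`a = #A`, `b = #B`, `d = #D`, `u = 241000`, `n ≤ u a`, `n ≤ u b`, `n ≤ 3.01 d`.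
* `∑ α γ = a d`, `∑ β γ = b d` (`sum_prod`; only lines of `Lc k i` contribute), `∑ α β ≥ a b - 22 ε n^2`
  (`pairs_ge`).
* `∑ α^2 ≤ a (d - b) + 8 s n^2` (`sq_le`), and `d - b ≤ a + 4 δ N + 3 ε n`, so
  `∑ α^2 ≤ a^2 + (0.5 δ + 9 s) n^2`; the same for `β`.
* `∑ γ^2 ≤ ∑ γ kc k + 7 s n^2 = d N + 7 s n^2 ≤ d^2 + 8 s n^2` (`sum_dif` for the cluster `i`).
Expand the squares: `∑ (α/a - γ/d)^2 ≤ (0.5 δ + 9 s) u^2 + 74 s`, the same for `β`, and
`∑ (α/a - β/b)^2 ≤ (δ + 18 s + 44 ε) u^2`. All are at most `θ = (δ + 100 s) u^2`.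
-/

set_option autoImplicit false

namespace Pool.Agent.H89.DR

open Finset Classical

private theorem FrH1_expand {ι : Type*} (T : Finset ι) (f g : ι → ℝ) {p q e1 e2 e3 : ℝ}
    (hp : 0 < p) (hq : 0 < q) (hf : ∑ l ∈ T, f l ^ 2 ≤ p ^ 2 * (1 + e1))
    (hg : ∑ l ∈ T, g l ^ 2 ≤ q ^ 2 * (1 + e2)) (hfg : p * q * (1 - e3) ≤ ∑ l ∈ T, f l * g l) :
    ∑ l ∈ T, (f l / p - g l / q) ^ 2 ≤ e1 + e2 + 2 * e3 := by
  have h0 : ∑ l ∈ T, (f l / p - g l / q) ^ 2 =
      (∑ l ∈ T, f l ^ 2) / p ^ 2 - 2 * ((∑ l ∈ T, f l * g l) / (p * q)) +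
        (∑ l ∈ T, g l ^ 2) / q ^ 2 := by
    rw [Finset.sum_div, Finset.sum_div, Finset.sum_div, Finset.mul_sum, ← Finset.sum_sub_distrib,
      ← Finset.sum_add_distrib]
    refine Finset.sum_congr rfl fun l _ => ?_
    field_simp
    ring
  have h1 : (∑ l ∈ T, f l ^ 2) / p ^ 2 ≤ 1 + e1 := by
    rw [div_le_iff₀ (by positivity)]
    linarith
  have h2 : (∑ l ∈ T, g l ^ 2) / q ^ 2 ≤ 1 + e2 := by
    rw [div_le_iff₀ (by positivity)]
    linarith
  have h3 : 1 - e3 ≤ (∑ l ∈ T, f l * g l) / (p * q) := by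
    rw [le_div_iff₀ (by positivity)]
    linarith
  rw [h0]
  linarith

private theorem FrH1_Lc_comm (P : Finset V) (ε : ℝ) (i k : Fin 3) : Lc P ε k i = Lc P ε i k := by
  unfold Lc
  ext l
  simp only [mem_filter]
  tauto

/-- the pairs between a part of the cluster `k` and a part of the cluster `i` -/
private theorem FrH1_prod {P : Finset V} {ε : ℝ} (h : Fr P ε) {i k : Fin 3} (hik : i ≠ k)
    {A : Finset V} (hA : A ⊆ clu P ε k) :
    ∑ l ∈ Lc P ε k i, ((l ∩ A).card : ℝ) * (l ∩ clu P ε i).card =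
      (A.card : ℝ) * (clu P ε i).card := by
  rw [← sum_prod h.conf (hA.trans (clu_sub P ε k)) (clu_sub P ε i)
    (Disjoint.mono_left hA (clu_disj h hik.symm))]
  unfold Lc
  refine Finset.sum_subset (Finset.filter_subset _ _) fun l hl hn => ?_
  by_contra hne
  apply hn
  rw [mul_eq_zero, not_or] at hne
  obtain ⟨h1, h2⟩ := hne
  have g1 : (l ∩ A).Nonempty := by
    rw [← Finset.card_pos]
    exact Nat.pos_of_ne_zero fun h0 => h1 (by rw [h0, Nat.cast_zero])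
  have g2 : (l ∩ clu P ε i).Nonempty := by
    rw [← Finset.card_pos]
    exact Nat.pos_of_ne_zero fun h0 => h2 (by rw [h0, Nat.cast_zero])
  refine mem_filter.2 ⟨hl, ?_, g2⟩
  obtain ⟨x, hx⟩ := g1
  rw [mem_inter] at hx
  exact ⟨x, mem_inter.2 ⟨hx.1, hA hx.2⟩⟩

theorem caseII_L2 {P : Finset V} {ε : ℝ} (h : Fr P ε) {i j k : Fin 3} (hij : i ≠ j)
    (hik : i ≠ k) (hjk : j ≠ k) {A B : Finset V} {δ : ℝ} (hδ : 0 < δ) (hδ' : δ ≤ 1 / 10 ^ 6)
    (hA : A ⊆ clu P ε k) (hB : B ⊆ clu P ε k)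
    (hA' : ((clu P ε k).card : ℝ) / 80000 ≤ A.card)
    (hB' : ((clu P ε k).card : ℝ) / 80000 ≤ B.card)
    (hR : (((clu P ε k) \ (A ∪ B)).card : ℝ) ≤ 4 * δ * (clu P ε k).card)
    (hsep : ∀ a ∈ A, ∀ b ∈ B, a i / a k < b i / b k ∧ ¬ (line P a b ∩ clu P ε j).Nonempty) :
    ∑ l ∈ Lc P ε k i, (((l ∩ B).card : ℝ) / B.card -
        ((l ∩ clu P ε i).card : ℝ) / (clu P ε i).card) ^ 2 ≤
      (δ + 100 * Real.sqrt ε) * 241000 ^ 2 ∧
    ∑ l ∈ Lc P ε k i, (((l ∩ A).card : ℝ) / A.card -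
        ((l ∩ clu P ε i).card : ℝ) / (clu P ε i).card) ^ 2 ≤
      (δ + 100 * Real.sqrt ε) * 241000 ^ 2 ∧
    ∑ l ∈ Lc P ε k i, (((l ∩ A).card : ℝ) / A.card - ((l ∩ B).card : ℝ) / B.card) ^ 2 ≤
      (δ + 100 * Real.sqrt ε) * 241000 ^ 2 := by
  have hε := h.pos
  have hε' := h.le
  have hbig := h.big
  have hNk := h.clu_ge k
  have hNi := h.clu_ge i
  have hNk' := clu_le h k
  have hNi' := clu_le h i
  have hdisj : Disjoint A B := by
    rw [Finset.disjoint_left]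
    intro x hx hx'
    exact absurd (hsep x hx x hx').1 (lt_irrefl _)
  have hnoAB : ∀ z ∈ A, ∀ a ∈ B, ¬ (line P z a ∩ clu P ε j).Nonempty :=
    fun z hz a ha => (hsep z hz a ha).2
  have hnoBA : ∀ z ∈ B, ∀ a ∈ A, ¬ (line P z a ∩ clu P ε j).Nonempty := by
    intro z hz a ha
    rw [line_comm]
    exact (hsep a ha z hz).2
  have p1 := FrH1_prod h hik hA
  have p2 := FrH1_prod h hik hB
  have p3 := pairs_ge h hij hik hjk hB hA hdisj hnoAB
  have q1 := sq_le h hij hik hjk hB hA hdisj hnoAB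
  have q2 := sq_le h hij hik hjk hA hB hdisj.symm hnoBA
  have q3 := sum_cross_le h hik.symm (A := clu P ε i) (Finset.Subset.refl _)
  rw [← FrH1_Lc_comm P ε i k] at q3
  have hN3 : ((clu P ε k).card : ℝ) ≤ A.card + B.card + 4 * δ * (clu P ε k).card := by
    have h1 : (clu P ε k) ⊆ (A ∪ B) ∪ ((clu P ε k) \ (A ∪ B)) := by
      intro x hx
      by_cases hx' : x ∈ A ∪ B
      · exact mem_union_left _ hx'
      · exact mem_union_right _ (mem_sdiff.2 ⟨hx, hx'⟩)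
    have h2 := (Finset.card_le_card h1).trans (Finset.card_union_le _ _)
    have h3 : ((clu P ε k).card : ℝ) ≤
        ((A ∪ B).card : ℝ) + ((clu P ε k) \ (A ∪ B)).card := by exact_mod_cast h2
    have h4 : ((A ∪ B).card : ℝ) ≤ (A.card : ℝ) + B.card := by
      exact_mod_cast Finset.card_union_le A B
    linarith
  have hAN : (A.card : ℝ) ≤ (clu P ε k).card := by exact_mod_cast Finset.card_le_card hA
  have hBN : (B.card : ℝ) ≤ (clu P ε k).card := by exact_mod_cast Finset.card_le_card hB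
  have hkc : ∀ l, kc P ε i l = ((l ∩ clu P ε i).card : ℝ) := fun l => rfl
  simp only [hkc] at q3
  set s := Real.sqrt ε with hsdef
  have hs2 : s ^ 2 = ε := Real.sq_sqrt hε.le
  have hs0 : 0 < s := Real.sqrt_pos.2 hε
  have hs1 : s ≤ 1 / 30 := by
    have : s ≤ Real.sqrt ((1 / 30) ^ 2) := Real.sqrt_le_sqrt (by linarith)
    rwa [Real.sqrt_sq (by norm_num)] at this
  have hεs : ε ≤ s / 30 := by
    have := mul_le_mul_of_nonneg_left hs1 hs0.le
    rw [← hs2, pow_two]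
    linarith
  set n : ℝ := (P.card : ℝ) with hn
  set N : ℝ := ((clu P ε k).card : ℝ) with hN
  set d : ℝ := ((clu P ε i).card : ℝ) with hd
  set a : ℝ := (A.card : ℝ) with ha
  set b : ℝ := (B.card : ℝ) with hb
  have hn0 : 0 < n := by
    by_contra hcon
    have : n ≤ 0 := not_lt.1 hcon
    have := mul_nonpos_of_nonneg_of_nonpos hε.le this
    linarith
  have hεn : ε * n ≤ (1 / 1000) * n := mul_le_mul_of_nonneg_right hε' hn0.le
  have hεn0 : 0 < ε * n := mul_pos hε hn0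
  have hua : n ≤ 241000 * a := by linarith
  have hub : n ≤ 241000 * b := by linarith
  have hud : n ≤ 3.01 * d := by
    norm_num
    linarith
  have ha0 : 0 < a := by linarith
  have hb0 : 0 < b := by linarith
  have hd0 : 0 < d := by
    norm_num at hud
    linarith
  have hn2a : n ^ 2 ≤ 241000 ^ 2 * a ^ 2 := by
    have := pow_le_pow_left₀ hn0.le hua 2
    linarith [mul_pow 241000 a 2]
  have hn2b : n ^ 2 ≤ 241000 ^ 2 * b ^ 2 := by
    have := pow_le_pow_left₀ hn0.le hub 2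
    linarith [mul_pow 241000 b 2]
  have hn2ab : n ^ 2 ≤ 241000 ^ 2 * (a * b) := by
    have := mul_le_mul hua hub hn0.le (by positivity)
    linarith
  have hn2d : n ^ 2 ≤ 9.25 * d ^ 2 := by
    have := pow_le_pow_left₀ hn0.le hud 2
    rw [mul_pow] at this
    have h0 : 0 < d ^ 2 := by positivity
    norm_num at this ⊢
    linarith
  have hNn : N ≤ 0.336 * n := by
    norm_num
    linarith
  have hdn : d ≤ 0.336 * n := by
    norm_num
    linarith
  have hn2 : 0 < n ^ 2 := by positivity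
  -- the second moments
  have gen : ∀ x y : ℝ, 0 < x → x ≤ N → N ≤ x + y + 4 * δ * N → 0 < y →
      x * (d - y) + 8 * s * n ^ 2 ≤ x ^ 2 + (δ / 2 + 9 * s) * n ^ 2 := by
    intro x y hx hxN hxy hy
    have e1 : d - y ≤ x + 4 * δ * N + 3 * (ε * n) := by linarith
    have e2 : x * (d - y) ≤ x * (x + 4 * δ * N + 3 * (ε * n)) := mul_le_mul_of_nonneg_left e1 hx.le
    have e3 : x ≤ 0.336 * n := hxN.trans hNn
    have e4 : x * N ≤ (0.336 * n) * (0.336 * n) :=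
      mul_le_mul e3 hNn (by positivity) (by positivity)
    have e5 : δ * (x * N) ≤ δ * ((0.336 * n) * (0.336 * n)) := mul_le_mul_of_nonneg_left e4 hδ.le
    have e6 : x * (ε * n) ≤ (0.336 * n) * (ε * n) := mul_le_mul_of_nonneg_right e3 hεn0.le
    have e7 : ε * n ^ 2 ≤ (s / 30) * n ^ 2 := mul_le_mul_of_nonneg_right hεs hn2.le
    have e8 : 0 < δ * n ^ 2 := by positivity
    have e9 : 0 < s * n ^ 2 := by positivity
    norm_num at e5 e6
    linarith
  have m1 : ∑ l ∈ Lc P ε k i, ((l ∩ A).card : ℝ) ^ 2 ≤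
      a ^ 2 * (1 + (δ / 2 + 9 * s) * 241000 ^ 2) := by
    have e1 := gen a b ha0 hAN hN3 hb0
    have e2 : (δ / 2 + 9 * s) * n ^ 2 ≤ (δ / 2 + 9 * s) * (241000 ^ 2 * a ^ 2) :=
      mul_le_mul_of_nonneg_left hn2a (by positivity)
    linarith
  have m2 : ∑ l ∈ Lc P ε k i, ((l ∩ B).card : ℝ) ^ 2 ≤
      b ^ 2 * (1 + (δ / 2 + 9 * s) * 241000 ^ 2) := by
    have e1 := gen b a hb0 hBN (by linarith) ha0
    have e2 : (δ / 2 + 9 * s) * n ^ 2 ≤ (δ / 2 + 9 * s) * (241000 ^ 2 * b ^ 2) :=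
      mul_le_mul_of_nonneg_left hn2b (by positivity)
    linarith
  have m3 : ∑ l ∈ Lc P ε k i, ((l ∩ clu P ε i).card : ℝ) ^ 2 ≤ d ^ 2 * (1 + 74 * s) := by
    have e0 : ∑ l ∈ Lc P ε k i, ((l ∩ clu P ε i).card : ℝ) ^ 2 =
        ∑ l ∈ Lc P ε k i, ((l ∩ clu P ε i).card : ℝ) * (l ∩ clu P ε i).card :=
      Finset.sum_congr rfl fun l _ => pow_two _
    rw [e0]
    have e1 : N - d ≤ 3 * (ε * n) := by linarith
    have e2 : d * (N - d) ≤ d * (3 * (ε * n)) := mul_le_mul_of_nonneg_left e1 hd0.le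
    have e3 : d * (ε * n) ≤ (0.336 * n) * (ε * n) := mul_le_mul_of_nonneg_right hdn hεn0.le
    have e7 : ε * n ^ 2 ≤ (s / 30) * n ^ 2 := mul_le_mul_of_nonneg_right hεs hn2.le
    have e9 : 0 < s * n ^ 2 := by positivity
    have e10 : s * n ^ 2 ≤ s * (9.25 * d ^ 2) := mul_le_mul_of_nonneg_left hn2d hs0.le
    have e11 : d * N + 8 * (s * n ^ 2) ≤ d ^ 2 * (1 + 74 * s) + (d * N - d * d) := by
      norm_num at e10
      linarith
    norm_num at e3
    linarith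
  have c1 : a * d * (1 - 0) ≤
      ∑ l ∈ Lc P ε k i, ((l ∩ A).card : ℝ) * ((l ∩ clu P ε i).card : ℝ) := by
    rw [p1]; linarith
  have c2 : b * d * (1 - 0) ≤
      ∑ l ∈ Lc P ε k i, ((l ∩ B).card : ℝ) * ((l ∩ clu P ε i).card : ℝ) := by
    rw [p2]; linarith
  have c3 : a * b * (1 - s * 241000 ^ 2) ≤
      ∑ l ∈ Lc P ε k i, ((l ∩ A).card : ℝ) * ((l ∩ B).card : ℝ) := by
    refine le_trans ?_ p3
    have e7 : ε * n ^ 2 ≤ (s / 30) * n ^ 2 := mul_le_mul_of_nonneg_right hεs hn2.le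
    have e8 : s * n ^ 2 ≤ s * (241000 ^ 2 * (a * b)) := mul_le_mul_of_nonneg_left hn2ab hs0.le
    have e9 : 0 < s * n ^ 2 := by positivity
    linarith
  refine ⟨?_, ?_, ?_⟩
  · have := FrH1_expand (Lc P ε k i) (fun l => ((l ∩ B).card : ℝ))
      (fun l => ((l ∩ clu P ε i).card : ℝ)) hb0 hd0 m2 m3 c2
    refine this.trans ?_
    norm_num
    linarith
  · have := FrH1_expand (Lc P ε k i) (fun l => ((l ∩ A).card : ℝ))
      (fun l => ((l ∩ clu P ε i).card : ℝ)) ha0 hd0 m1 m3 c1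
    refine this.trans ?_
    norm_num
    linarith
  · have := FrH1_expand (Lc P ε k i) (fun l => ((l ∩ A).card : ℝ))
      (fun l => ((l ∩ B).card : ℝ)) ha0 hb0 m1 m2 c3
    refine this.trans ?_
    norm_num
    linarith

end Pool.Agent.H89.DR
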