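import Pool.Agent.H89.DR.Defs

/-!
# Module FrM1 (about 110 lines): the centre, the annuli and the gap (pure finite sets)

`dd X Y a b = max |X b - X a| |Y b - Y a|`.

* `centre`: among the finitely many pairs `(c, r)` with `c ∈ C`, `r` a value `dd X Y c c'`, with
  `#{dd c · ≤ r} ≥ (1 - δ) #C` (there is one: the largest value) take one with the least `r`. If some
  `c` and `r' < r` had `#{dd c · ≤ r'} ≥ (1 - δ) #C`, replace `r'` by the largest value `dd c c' ≤ r'`:
  contradiction. `r > 0`: `dd c c' ≤ 0` only for `c' = c` (`hinj`), and `1 < (1 - δ) #C`.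
* `annulus`: the `I` annuli are disjoint subsets of `{dd c0 · > r}`, which has at most `δ #C`
  elements.
* `gap`: let `u` be the least value of `X` on `S` with `#{X ≤ u} ≥ a`, `w` the greatest value with
  `#{X ≥ w} ≥ a`. Then `#{X < u} < a` (consider the greatest value below `u`), `#{X > w} < a`, so
  `#{u ≤ X ≤ w} > #S - 2 a`, so `w > u + L` by `h`. The `m` open intervals
  `(u + j (w - u)/m, u + (j+1)(w - u)/m)` are disjoint: one contains at most `#S / m` points.
-/

set_option autoImplicit false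

namespace Pool.Agent.H89.DR

open Finset Classical

/-- distance in the maximum norm of the coordinates `X`, `Y` -/
noncomputable def dd (X Y : V → ℝ) (a b : V) : ℝ := max |X b - X a| |Y b - Y a|

theorem centre (C : Finset V) (X Y : V → ℝ)
    (hinj : ∀ a ∈ C, ∀ b ∈ C, X a = X b → Y a = Y b → a = b) {δ : ℝ} (hδ : 0 < δ)
    (hC : 1 < (1 - δ) * C.card) :
    ∃ c0 ∈ C, ∃ r : ℝ, 0 < r ∧
      (1 - δ) * C.card ≤ ((C.filter fun c => dd X Y c0 c ≤ r).card : ℝ) ∧
      ∀ c ∈ C, ∀ r' < r, ((C.filter fun c' => dd X Y c c' ≤ r').card : ℝ) < (1 - δ) * C.card := by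
  have hne : C.Nonempty := by
    rw [Finset.nonempty_iff_ne_empty]
    intro h
    rw [h] at hC
    simp at hC
    linarith
  set S : Finset ℝ := (C ×ˢ C).image fun p => dd X Y p.1 p.2 with hS
  have hmemS : ∀ a ∈ C, ∀ b ∈ C, dd X Y a b ∈ S := by
    intro a ha b hb
    rw [hS, mem_image]
    exact ⟨(a, b), mem_product.2 ⟨ha, hb⟩, rfl⟩
  set T : Finset (V × ℝ) := (C ×ˢ S).filter fun z =>
    (1 - δ) * (C.card : ℝ) ≤ ((C.filter fun c => dd X Y z.1 c ≤ z.2).card : ℝ) with hT
  obtain ⟨c1, hc1⟩ := hne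
  have hTne : T.Nonempty := by
    obtain ⟨b, hb, hmax⟩ := exists_max_image C (fun c => dd X Y c1 c) ⟨c1, hc1⟩
    refine ⟨(c1, dd X Y c1 b), ?_⟩
    rw [hT, mem_filter]
    refine ⟨mem_product.2 ⟨hc1, hmemS _ hc1 _ hb⟩, ?_⟩
    have : (C.filter fun c => dd X Y c1 c ≤ dd X Y c1 b) = C :=
      filter_true_of_mem fun c hc => hmax c hc
    simp only [this]
    have : (0 : ℝ) ≤ C.card := Nat.cast_nonneg _
    nlinarith
  obtain ⟨⟨c0, r⟩, hz, hmin⟩ := exists_min_image T (fun z => z.2) hTne
  rw [hT, mem_filter, mem_product] at hz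
  obtain ⟨⟨hc0, hr⟩, hcnt⟩ := hz
  simp only at hc0 hr hcnt hmin
  refine ⟨c0, hc0, r, ?_, hcnt, ?_⟩
  · by_contra hr0
    push Not at hr0
    have hsub : (C.filter fun c => dd X Y c0 c ≤ r) ⊆ {c0} := by
      intro c hc
      rw [mem_filter] at hc
      have h1 : dd X Y c0 c ≤ 0 := hc.2.trans hr0
      unfold dd at h1
      have h2 : |X c - X c0| ≤ 0 := (le_max_left _ _).trans h1
      have h3 : |Y c - Y c0| ≤ 0 := (le_max_right _ _).trans h1
      rw [mem_singleton]
      refine hinj c hc.1 c0 hc0 ?_ ?_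
      · have := abs_nonpos_iff.1 h2
        linarith
      · have := abs_nonpos_iff.1 h3
        linarith
    have h4 := card_le_card hsub
    rw [card_singleton] at h4
    have h5 : ((C.filter fun c => dd X Y c0 c ≤ r).card : ℝ) ≤ 1 := by exact_mod_cast h4
    linarith
  · intro c hc r' hr'
    by_contra hcon
    push Not at hcon
    have hne2 : (C.filter fun c' => dd X Y c c' ≤ r').Nonempty := by
      rw [← card_pos]
      have : (0 : ℝ) < ((C.filter fun c' => dd X Y c c' ≤ r').card : ℝ) := by linarith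
      exact_mod_cast this
    obtain ⟨b, hb, hmax⟩ := exists_max_image _ (fun c' => dd X Y c c') hne2
    rw [mem_filter] at hb
    have hin : (c, dd X Y c b) ∈ T := by
      rw [hT, mem_filter]
      refine ⟨mem_product.2 ⟨hc, hmemS _ hc _ hb.1⟩, ?_⟩
      refine hcon.trans ?_
      have : (C.filter fun c' => dd X Y c c' ≤ r') ⊆
          (C.filter fun c' => dd X Y c c' ≤ dd X Y c b) := by
        intro c' hc'
        have h6 := hmax c' hc'
        rw [mem_filter] at hc' ⊢
        exact ⟨hc'.1, h6⟩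
      exact_mod_cast card_le_card this
    have := hmin _ hin
    simp only at this
    linarith [hb.2]

private theorem pick1 (T : Finset V) (A : ℕ → Finset V) {I : ℕ} (hI : 0 < I)
    (hsub : ∀ i < I, A i ⊆ T) (hd : ∀ i < I, ∀ j < I, i < j → Disjoint (A i) (A j)) :
    ∃ i < I, ((A i).card : ℝ) ≤ T.card / I := by
  by_contra hcon
  push Not at hcon
  have hI' : (0 : ℝ) < I := by exact_mod_cast hI
  have h1 : ((range I).biUnion A).card = ∑ i ∈ range I, (A i).card := by
    apply card_biUnion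
    intro i hi j hj hij
    rw [mem_coe, mem_range] at hi hj
    rcases lt_or_gt_of_ne hij with h | h
    · exact hd i hi j hj h
    · exact (hd j hj i hi h).symm
  have h2 : ((range I).biUnion A).card ≤ T.card := by
    apply card_le_card
    rw [biUnion_subset]
    intro i hi
    exact hsub i (mem_range.1 hi)
  have h3 : ∑ i ∈ range I, ((T.card : ℝ) / I) < ∑ i ∈ range I, ((A i).card : ℝ) := by
    apply sum_lt_sum_of_nonempty
    · exact ⟨0, mem_range.2 hI⟩
    · intro i hi
      exact hcon i (mem_range.1 hi)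
  rw [sum_const, card_range, nsmul_eq_mul, mul_div_cancel₀ _ hI'.ne'] at h3
  have h4 : ((∑ i ∈ range I, (A i).card : ℕ) : ℝ) ≤ T.card := by
    rw [← h1]
    exact_mod_cast h2
  push_cast at h4
  linarith

theorem annulus (C : Finset V) (D : V → ℝ) {δ r : ℝ} (hr : 0 < r)
    (h : (1 - δ) * C.card ≤ ((C.filter fun c => D c ≤ r).card : ℝ)) {I : ℕ} (hI : 0 < I) :
    ∃ i < I, ((C.filter fun c => 2 ^ i * r < D c ∧ D c ≤ 2 ^ (i + 1) * r).card : ℝ) ≤
      δ * C.card / I := by
  obtain ⟨i, hi, h1⟩ := pick1 (C.filter fun c => ¬ (D c ≤ r))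
    (fun i => C.filter fun c => 2 ^ i * r < D c ∧ D c ≤ 2 ^ (i + 1) * r) hI
    (by
      intro i _ c hc
      simp only [mem_filter] at hc ⊢
      refine ⟨hc.1, ?_⟩
      push Not
      have h2 : (1 : ℝ) ≤ 2 ^ i := one_le_pow₀ (by norm_num)
      nlinarith [hc.2.1])
    (by
      intro i _ j _ hij
      rw [disjoint_left]
      intro c hc1 hc2
      simp only [mem_filter] at hc1 hc2
      have h2 : (2 : ℝ) ^ (i + 1) ≤ 2 ^ j := pow_le_pow_right₀ (by norm_num) hij
      nlinarith [hc1.2.2, hc2.2.1])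
  refine ⟨i, hi, h1.trans ?_⟩
  have h3 := card_filter_add_card_filter_not (s := C) (fun c => D c ≤ r)
  have h4 : ((C.filter fun c => D c ≤ r).card : ℝ) +
      ((C.filter fun c => ¬ (D c ≤ r)).card : ℝ) = C.card := by exact_mod_cast h3
  have hI' : (0 : ℝ) < I := by exact_mod_cast hI
  apply div_le_div_of_nonneg_right _ hI'.le
  linarith

private theorem low1 (S : Finset V) (X : V → ℝ) {a : ℝ} (ha : 0 < a) (hS : a ≤ (S.card : ℝ)) :
    ∃ u : ℝ, a ≤ ((S.filter fun c => X c ≤ u).card : ℝ) ∧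
      ((S.filter fun c => X c < u).card : ℝ) < a := by
  have hne : S.Nonempty := by
    rw [← card_pos]
    have : (0 : ℝ) < S.card := lt_of_lt_of_le ha hS
    exact_mod_cast this
  obtain ⟨b, hb, hmax⟩ := exists_max_image S X hne
  have hT : (S.filter fun s => a ≤ ((S.filter fun c => X c ≤ X s).card : ℝ)).Nonempty := by
    refine ⟨b, mem_filter.2 ⟨hb, ?_⟩⟩
    have : (S.filter fun c => X c ≤ X b) = S := filter_true_of_mem fun c hc => hmax c hc
    rw [this]
    exact hS
  obtain ⟨s, hs, hmin⟩ := exists_min_image _ X hT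
  rw [mem_filter] at hs
  refine ⟨X s, hs.2, ?_⟩
  rcases (S.filter fun c => X c < X s).eq_empty_or_nonempty with h0 | h0
  · rw [h0]
    simpa using ha
  · obtain ⟨t, ht, hmax2⟩ := exists_max_image _ X h0
    rw [mem_filter] at ht
    by_contra hcon
    push Not at hcon
    have hin : t ∈ S.filter fun s => a ≤ ((S.filter fun c => X c ≤ X s).card : ℝ) := by
      rw [mem_filter]
      refine ⟨ht.1, hcon.trans ?_⟩
      have : (S.filter fun c => X c < X s) ⊆ (S.filter fun c => X c ≤ X t) := by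
        intro c hc
        have h1 := hmax2 c hc
        rw [mem_filter] at hc ⊢
        exact ⟨hc.1, h1⟩
      exact_mod_cast card_le_card this
    have := hmin t hin
    linarith [ht.2]

theorem gap (S : Finset V) (X : V → ℝ) {L a : ℝ} (hL : 0 < L) (ha : 0 < a)
    (h : ∀ u : ℝ, ((S.filter fun c => u ≤ X c ∧ X c ≤ u + L).card : ℝ) < S.card - 2 * a)
    {m : ℕ} (hm : 0 < m) :
    ∃ t1 t2 : ℝ, t1 + L / m ≤ t2 ∧ a ≤ ((S.filter fun c => X c ≤ t1).card : ℝ) ∧
      a ≤ ((S.filter fun c => t2 ≤ X c).card : ℝ) ∧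
      ((S.filter fun c => t1 < X c ∧ X c < t2).card : ℝ) ≤ S.card / m := by
  have hcard : a ≤ (S.card : ℝ) := by
    have h1 := h 0
    have h2 : (0 : ℝ) ≤ ((S.filter fun c => (0 : ℝ) ≤ X c ∧ X c ≤ 0 + L).card : ℝ) :=
      Nat.cast_nonneg _
    linarith
  obtain ⟨u, hu1, hu2⟩ := low1 S X ha hcard
  obtain ⟨w', hw1, hw2⟩ := low1 S (fun c => - X c) ha hcard
  obtain ⟨w, rfl⟩ : ∃ w, w' = - w := ⟨-w', by ring⟩
  simp only [neg_le_neg_iff, neg_lt_neg_iff] at hw1 hw2
  have hm' : (0 : ℝ) < m := by exact_mod_cast hm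
  have huw : u + L < w := by
    by_contra hcon
    push Not at hcon
    have h1 := h u
    have h2 : S ⊆ ((S.filter fun c => X c < u) ∪ (S.filter fun c => w < X c)) ∪
        (S.filter fun c => u ≤ X c ∧ X c ≤ u + L) := by
      intro c hc
      simp only [mem_union, mem_filter]
      by_cases h3 : X c < u
      · exact Or.inl (Or.inl ⟨hc, h3⟩)
      · by_cases h4 : w < X c
        · exact Or.inl (Or.inr ⟨hc, h4⟩)
        · push Not at h3 h4
          exact Or.inr ⟨hc, h3, h4.trans hcon⟩
    have h3 := (card_le_card h2).trans ((card_union_le _ _).trans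
      (Nat.add_le_add_right (card_union_le _ _) _))
    have h4 : (S.card : ℝ) ≤ ((S.filter fun c => X c < u).card : ℝ) +
        ((S.filter fun c => w < X c).card : ℝ) +
        ((S.filter fun c => u ≤ X c ∧ X c ≤ u + L).card : ℝ) := by exact_mod_cast h3
    linarith
  obtain ⟨j, hj, h1⟩ := pick1 S
    (fun j => S.filter fun c => u + j * ((w - u) / m) < X c ∧
      X c < u + (j + 1) * ((w - u) / m)) hm
    (fun i _ => filter_subset _ _)
    (by
      intro i _ j _ hij
      rw [disjoint_left]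
      intro c hc1 hc2
      simp only [mem_filter] at hc1 hc2
      have h2 : ((i : ℝ) + 1) ≤ j := by exact_mod_cast hij
      have h3 : 0 < (w - u) / m := div_pos (by linarith) hm'
      nlinarith [hc1.2.2, hc2.2.1])
  have hstep : 0 < (w - u) / m := div_pos (by linarith) hm'
  refine ⟨u + j * ((w - u) / m), u + (j + 1) * ((w - u) / m), ?_, ?_, ?_, h1⟩
  · have : L / m ≤ (w - u) / m := div_le_div_of_nonneg_right (by linarith) hm'.le
    nlinarith
  · refine hu1.trans ?_
    have hsub : (S.filter fun c => X c ≤ u) ⊆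
        (S.filter fun c => X c ≤ u + j * ((w - u) / m)) := by
      intro c hc
      rw [mem_filter] at hc ⊢
      have : 0 ≤ (j : ℝ) * ((w - u) / m) := by positivity
      exact ⟨hc.1, by linarith [hc.2]⟩
    exact_mod_cast card_le_card hsub
  · refine hw1.trans ?_
    have hsub : (S.filter fun c => w ≤ X c) ⊆
        (S.filter fun c => u + (j + 1) * ((w - u) / m) ≤ X c) := by
      intro c hc
      rw [mem_filter] at hc ⊢
      have h2 : ((j : ℝ) + 1) ≤ m := by exact_mod_cast hj
      have h3 : ((j : ℝ) + 1) * ((w - u) / m) ≤ m * ((w - u) / m) :=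
        mul_le_mul_of_nonneg_right h2 hstep.le
      have h4 : (m : ℝ) * ((w - u) / m) = w - u := by field_simp
      exact ⟨hc.1, by linarith [hc.2]⟩
    exact_mod_cast card_le_card hsub

end Pool.Agent.H89.DR
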