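import Pool.Agent.H89.DR.FrM1
import Pool.Agent.H89.DR.FrB
import Pool.Agent.H89.DR.FrE

/-!
# Module FrM2 (about 170 lines): the cluster is in a thin strip

`{i, j, k} = {0,1,2}`, `C = clu k`, `N = #C`, `n = #P`, chart `X c = c i / c k`, `Y c = c j / c k`,
`s = sqrt ε`, `1000 Λ s ≤ δ ≤ 10^(-6)`, `1 ≤ Λ`. All but `δ N` points of `C` are within `Λ r` of `c0`,
and no ball of radius `r / 2` around a point of `C` contains `(1 - 1/10000) N` points of `C`.

* `unrel`: ordered pairs `(c, c')` of `C` whose line meets neither the cluster `i` nor `j`: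
  at most `22 ε n^2` (`sum_lonely`: such a line contains at most `kc^2` pairs).
* `rel`: if the line of `c ≠ c'` meets the cluster `i`: `|dY| ≤ 2 ε |dX|`, if it meets `j`:
  `|dX| ≤ 2 ε |dY|` (`chart`, the points of a line are dependent).
* `strip`: call `c ∈ C` good if at most `5 s n` points are unrelated to it; at most `5 s n` points are
  not good (`22 ε / (5 s) ≤ 5 s`), and `5 s n ≤ 16 s N ≤ 0.02 δ N`. Take `c1` good within `Λ r` of `c0`;
  at least `N/10000 - δ N` points within `Λ r` of `c0` have distance `> r/2` from `c1`; one of them, `c2`,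
  is good and related to `c1`. Distances between points within `Λ r` of `c0` are `≤ 2 Λ r`. Say the
  line `c1 c2` meets the cluster `i` (otherwise exchange the roles, second alternative): `|dY| ≤
  4 ε Λ r =: θ r` with `θ < 1/4`, so `|dX| > r/2`. Every `c` within `Λ r` of `c0` and related to `c1` and
  `c2` has `|Y c - Y c1| ≤ 2 θ r`: if its line with `c1` meets `i`: `≤ θ r`; if it meets `j`:
  `|X c - X c1| ≤ θ r`, so `|X c - X c2| > r/2 - θ r > θ r`, so the line `c c2` cannot meet `j`, it meets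
  `i` and `|Y c - Y c2| ≤ θ r`. These are at least `(1 - δ) N - 2 * 0.02 δ N ≥ (1 - 2 δ) N` points.
-/

set_option autoImplicit false

namespace Pool.Agent.H89.DR

open Finset Classical

theorem unrel {P : Finset V} {ε : ℝ} (h : Fr P ε) {i j k : Fin 3} (hij : i ≠ j) (hik : i ≠ k)
    (hjk : j ≠ k) :
    ((((clu P ε k) ×ˢ (clu P ε k)).filter fun x => x.1 ≠ x.2 ∧
      ¬ (line P x.1 x.2 ∩ clu P ε i).Nonempty ∧
      ¬ (line P x.1 x.2 ∩ clu P ε j).Nonempty).card : ℝ) ≤ 22 * ε * (P.card : ℝ) ^ 2 := by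
  have hsub := clu_sub P ε k
  have h3 : ∀ m : Fin 3, m ≠ k → m = i ∨ m = j := by
    intro m hm
    fin_cases i <;> fin_cases j <;> fin_cases k <;> fin_cases m <;> simp_all
  refine le_trans ?_ (sum_lonely h k)
  set S := ((clu P ε k) ×ˢ (clu P ε k)).filter fun x => x.1 ≠ x.2 ∧
      ¬ (line P x.1 x.2 ∩ clu P ε i).Nonempty ∧
      ¬ (line P x.1 x.2 ∩ clu P ε j).Nonempty with hS
  set T := (lines P).filter (fun l => (l ∩ clu P ε k).Nonempty ∧
        ∀ j, j ≠ k → ¬ (l ∩ clu P ε j).Nonempty) with hT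
  have hmap : ∀ x ∈ S, line P x.1 x.2 ∈ T := by
    intro x hx
    rw [hS, mem_filter, mem_product] at hx
    obtain ⟨⟨hx1, hx2⟩, hne, hni, hnj⟩ := hx
    rw [hT, mem_filter]
    refine ⟨line_mem_lines (hsub hx1) (hsub hx2) hne, ⟨x.1, mem_inter.2 ⟨?_, hx1⟩⟩, ?_⟩
    · exact left_mem_line (hsub hx1) _
    · intro m hm
      rcases h3 m hm with rfl | rfl
      · exact hni
      · exact hnj
  have hcard := Finset.card_eq_sum_card_fiberwise (f := fun x : V × V => line P x.1 x.2)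
    (s := S) (t := T) (fun x hx => hmap x hx)
  rw [hcard]
  push_cast
  refine Finset.sum_le_sum fun l hl => ?_
  unfold kc
  have : (S.filter fun x => line P x.1 x.2 = l) ⊆ (l ∩ clu P ε k) ×ˢ (l ∩ clu P ε k) := by
    intro x hx
    rw [mem_filter] at hx
    obtain ⟨hxS, hxl⟩ := hx
    rw [hS, mem_filter, mem_product] at hxS
    obtain ⟨⟨hx1, hx2⟩, -⟩ := hxS
    rw [mem_product, mem_inter, mem_inter]
    refine ⟨⟨?_, hx1⟩, ?_, hx2⟩
    · rw [← hxl]; exact left_mem_line (hsub hx1) _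
    · rw [← hxl]; exact right_mem_line _ (hsub hx2)
  have h4 := Finset.card_le_card this
  rw [Finset.card_product] at h4
  have h5 : (((S.filter fun x => line P x.1 x.2 = l).card : ℕ) : ℝ) ≤
      (((l ∩ clu P ε k).card * (l ∩ clu P ε k).card : ℕ) : ℝ) := by exact_mod_cast h4
  rw [pow_two]
  push_cast at h5
  exact h5

theorem rel {P : Finset V} {ε : ℝ} (h : Fr P ε) {i j k : Fin 3} (hij : i ≠ j) (hik : i ≠ k)
    (hjk : j ≠ k) {c c' : V} (hc : c ∈ clu P ε k) (hc' : c' ∈ clu P ε k)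
    (hi : (line P c c' ∩ clu P ε i).Nonempty) :
    |c' j / c' k - c j / c k| ≤ 2 * ε * |c' i / c' k - c i / c k| := by
  obtain ⟨q, hq⟩ := hi
  rw [mem_inter] at hq
  have hd : det c c' q = 0 := by
    have := hq.1
    unfold line at this
    exact (mem_filter.1 this).2
  exact chart h hij hik hjk hc hc' hq.2 hd

private theorem FrM2_arith {ε Λ r x y x0 y0 x1 y1 x2 y2 : ℝ} (hε : 0 < ε) (hr : 0 < r)
    (hε' : ε ≤ 1 / 1000) (hθ : 4 * ε * Λ ≤ 1 / 8)
    (nx1 : |x1 - x0| ≤ Λ * r) (ny1 : |y1 - y0| ≤ Λ * r)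
    (nx2 : |x2 - x0| ≤ Λ * r) (ny2 : |y2 - y0| ≤ Λ * r)
    (nx : |x - x0| ≤ Λ * r) (ny : |y - y0| ≤ Λ * r)
    (hd : r / 2 < |x2 - x1| ∨ r / 2 < |y2 - y1|)
    (R12 : |y2 - y1| ≤ 2 * ε * |x2 - x1|)
    (R1 : (|y - y1| ≤ 2 * ε * |x - x1|) ∨ (|x - x1| ≤ 2 * ε * |y - y1|))
    (R2 : (|y - y2| ≤ 2 * ε * |x - x2|) ∨ (|x - x2| ≤ 2 * ε * |y - y2|)) :
    |y - y1| ≤ 8 * ε * Λ * r := by
  have tri : ∀ a b c : ℝ, |a - b| ≤ |a - c| + |b - c| := by
    intro a b c
    rw [abs_sub_comm b c]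
    exact abs_sub_le a c b
  have e1 : |x - x1| ≤ 2 * (Λ * r) := by linarith [tri x x1 x0]
  have e2 : |x - x2| ≤ 2 * (Λ * r) := by linarith [tri x x2 x0]
  have e3 : |y - y1| ≤ 2 * (Λ * r) := by linarith [tri y y1 y0]
  have e4 : |y - y2| ≤ 2 * (Λ * r) := by linarith [tri y y2 y0]
  have e5 : |x2 - x1| ≤ 2 * (Λ * r) := by linarith [tri x2 x1 x0]
  have hT : 4 * ε * (Λ * r) ≤ r / 8 := by
    have := mul_le_mul_of_nonneg_right hθ hr.le
    linarith
  have hT0 : 0 ≤ Λ * r := le_trans (abs_nonneg _) nx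
  have hT1 : 0 ≤ ε * (Λ * r) := mul_nonneg hε.le hT0
  have g : ∀ u v : ℝ, |u| ≤ 2 * ε * |v| → |v| ≤ 2 * (Λ * r) → |u| ≤ 4 * ε * (Λ * r) := by
    intro u v huv hv
    have := mul_le_mul_of_nonneg_left hv (by linarith : (0 : ℝ) ≤ 2 * ε)
    linarith
  rcases R1 with R1 | R1
  · have := g _ _ R1 e1
    linarith
  · have f1 := g _ _ R1 e3
    have f2 : r / 2 < |x2 - x1| := by
      rcases hd with hd | hd
      · exact hd
      · have : 2 * ε * |x2 - x1| ≤ 1 * |x2 - x1| :=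
          mul_le_mul_of_nonneg_right (by linarith) (abs_nonneg _)
        linarith
    have f3 : |x2 - x1| ≤ |x - x2| + |x - x1| := by
      have := tri x2 x1 x
      rw [abs_sub_comm x2 x, abs_sub_comm x1 x] at this
      exact this
    rcases R2 with R2 | R2
    · have f4 := g _ _ R2 e2
      have f5 := g _ _ R12 e5
      have f6 : |y - y1| ≤ |y - y2| + |y2 - y1| := abs_sub_le y y2 y1
      linarith
    · have f4 := g _ _ R2 e4
      exfalso
      linarith

private theorem FrM2_pick {C W : Finset V} (h : (W.card : ℝ) < C.card) : ∃ c ∈ C, c ∉ W := by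
  by_contra hcon
  push Not at hcon
  have := Finset.card_le_card (show C ⊆ W from hcon)
  have h2 : (C.card : ℝ) ≤ W.card := by exact_mod_cast this
  linarith

private theorem FrM2_union (A B : Finset V) :
    (((A ∪ B).card : ℕ) : ℝ) ≤ (A.card : ℝ) + B.card := by
  exact_mod_cast Finset.card_union_le A B

theorem strip {P : Finset V} {ε : ℝ} (h : Fr P ε) {i j k : Fin 3} (hij : i ≠ j) (hik : i ≠ k)
    (hjk : j ≠ k) {c0 : V} (hc0 : c0 ∈ clu P ε k) {r Λ δ : ℝ} (hr : 0 < r) (hΛ : 1 ≤ Λ)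
    (hδ : δ ≤ 1 / 10 ^ 6) (hs : 1000 * Λ * Real.sqrt ε ≤ δ)
    (hmin : ∀ c ∈ clu P ε k, (((clu P ε k).filter fun c' =>
      dd (fun x => x i / x k) (fun x => x j / x k) c c' ≤ r / 2).card : ℝ) <
        (1 - 1 / 10000) * (clu P ε k).card)
    (hfar : (((clu P ε k).filter fun c =>
      Λ * r < dd (fun x => x i / x k) (fun x => x j / x k) c0 c).card : ℝ) ≤
        δ * (clu P ε k).card) :
    (∃ c1 ∈ clu P ε k, (1 - 2 * δ) * (clu P ε k).card ≤ (((clu P ε k).filter fun c =>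
      |c j / c k - c1 j / c1 k| ≤ 8 * ε * Λ * r).card : ℝ)) ∨
    (∃ c1 ∈ clu P ε k, (1 - 2 * δ) * (clu P ε k).card ≤ (((clu P ε k).filter fun c =>
      |c i / c k - c1 i / c1 k| ≤ 8 * ε * Λ * r).card : ℝ)) := by
  have hε := h.pos
  have hε' := h.le
  have hsum := unrel h hij hik hjk
  have hN := h.clu_ge k
  have hbig := h.big
  set C := clu P ε k with hC
  set s := Real.sqrt ε with hsdef
  set n : ℝ := (P.card : ℝ) with hn
  have hs2 : s ^ 2 = ε := Real.sq_sqrt hε.le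
  have hs0 : 0 < s := Real.sqrt_pos.2 hε
  have hn0 : 0 < n := by
    by_contra hcon
    have : n ≤ 0 := not_lt.1 hcon
    have := mul_nonpos_of_nonneg_of_nonpos hε.le this
    linarith
  have hNn : n ≤ (16 / 5) * (C.card : ℝ) := by
    have : ε * n ≤ (1 / 1000) * n := mul_le_mul_of_nonneg_right hε' hn0.le
    linarith
  have hNpos : (0 : ℝ) < C.card := by linarith
  have hsδ : 1000 * s ≤ δ := by
    have : 1 * s ≤ Λ * s := mul_le_mul_of_nonneg_right hΛ hs0.le
    linarith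
  have hδ0 : 0 < δ := by linarith
  have h5 : 5 * s * n ≤ (16 / 1000) * δ * C.card := by
    have e1 : s * n ≤ s * ((16 / 5) * (C.card : ℝ)) := mul_le_mul_of_nonneg_left hNn hs0.le
    have e2 : (1000 * s) * (C.card : ℝ) ≤ δ * C.card := mul_le_mul_of_nonneg_right hsδ hNpos.le
    linarith
  set R : V → V → Prop := fun c c' => c ≠ c' ∧ ¬ (line P c c' ∩ clu P ε i).Nonempty ∧
    ¬ (line P c c' ∩ clu P ε j).Nonempty with hR
  set U : V → Finset V := fun c => C.filter fun c' => R c c' with hU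
  have hUsum : ∑ c ∈ C, ((U c).card : ℝ) ≤ 22 * ε * n ^ 2 := by
    refine le_trans (le_of_eq ?_) hsum
    rw [Finset.card_filter, Finset.sum_product]
    push_cast
    refine Finset.sum_congr rfl fun c _ => ?_
    rw [hU]
    simp only [Finset.card_filter]
    push_cast
    rfl
  set B := C.filter fun c => 5 * s * n < ((U c).card : ℝ) with hB
  have hBc : (B.card : ℝ) ≤ 5 * s * n := by
    have e1 : ∑ c ∈ B, (5 * s * n) ≤ ∑ c ∈ B, ((U c).card : ℝ) :=
      Finset.sum_le_sum fun c hc => (Finset.mem_filter.1 hc).2.le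
    have e2 : ∑ c ∈ B, ((U c).card : ℝ) ≤ ∑ c ∈ C, ((U c).card : ℝ) :=
      Finset.sum_le_sum_of_subset_of_nonneg (Finset.filter_subset _ _) fun _ _ _ => by positivity
    rw [Finset.sum_const, nsmul_eq_mul] at e1
    have e3 : (B.card : ℝ) * (5 * s * n) ≤ (5 * s * n) * (5 * s * n) := by
      have : 22 * ε * n ^ 2 ≤ (5 * s * n) * (5 * s * n) := by
        rw [← hs2]
        nlinarith [sq_nonneg (s * n)]
      linarith
    have hpos : 0 < 5 * s * n := by positivity
    exact le_of_mul_le_mul_right e3 hpos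
  set D : V → V → ℝ := dd (fun x => x i / x k) (fun x => x j / x k) with hD
  set F := C.filter fun c => Λ * r < D c0 c with hF
  -- the point `c1`
  obtain ⟨c1, h1C, h1⟩ : ∃ c ∈ C, c ∉ B ∪ F := by
    refine FrM2_pick ?_
    have := FrM2_union B F
    have e : δ * (C.card : ℝ) ≤ (1 / 10 ^ 6) * C.card := mul_le_mul_of_nonneg_right hδ hNpos.le
    linarith
  rw [mem_union, not_or] at h1
  obtain ⟨c2, h2C, h2⟩ : ∃ c ∈ C, c ∉ ((B ∪ F) ∪ U c1) ∪ (C.filter fun c' => D c1 c' ≤ r / 2) := by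
    refine FrM2_pick ?_
    have f1 := FrM2_union B F
    have f2 := FrM2_union (B ∪ F) (U c1)
    have f3 := FrM2_union ((B ∪ F) ∪ U c1) (C.filter fun c' => D c1 c' ≤ r / 2)
    have f4 := hmin c1 h1C
    have f5 : ((U c1).card : ℝ) ≤ 5 * s * n := by
      by_contra hcon
      exact h1.1 (mem_filter.2 ⟨h1C, not_le.1 hcon⟩)
    have e : δ * (C.card : ℝ) ≤ (1 / 10 ^ 6) * C.card := mul_le_mul_of_nonneg_right hδ hNpos.le
    linarith
  rw [mem_union, mem_union, mem_union, not_or, not_or, not_or] at h2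
  obtain ⟨⟨⟨h2B, h2F⟩, h2U⟩, h2D⟩ := h2
  obtain ⟨h1B, h1F⟩ := h1
  have nearF : ∀ c ∈ C, c ∉ F → |c i / c k - c0 i / c0 k| ≤ Λ * r ∧
      |c j / c k - c0 j / c0 k| ≤ Λ * r := by
    intro c hc hcF
    have : D c0 c ≤ Λ * r := by
      by_contra hcon
      exact hcF (mem_filter.2 ⟨hc, not_le.1 hcon⟩)
    rw [hD] at this
    unfold dd at this
    exact max_le_iff.1 this
  have hd12 : r / 2 < |c2 i / c2 k - c1 i / c1 k| ∨ r / 2 < |c2 j / c2 k - c1 j / c1 k| := by
    have : r / 2 < D c1 c2 := by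
      by_contra hcon
      exact h2D (mem_filter.2 ⟨h2C, not_lt.1 hcon⟩)
    rw [hD] at this
    unfold dd at this
    exact lt_max_iff.1 this
  have hne12 : c1 ≠ c2 := by
    rintro rfl
    rcases hd12 with hd | hd <;>
    · rw [sub_self, abs_zero] at hd
      linarith
  have m12 : (line P c1 c2 ∩ clu P ε i).Nonempty ∨ (line P c1 c2 ∩ clu P ε j).Nonempty := by
    by_contra hcon
    rw [not_or] at hcon
    exact h2U (mem_filter.2 ⟨h2C, hne12, hcon.1, hcon.2⟩)
  have Uc : ∀ c ∈ C, c ∉ B → ((U c).card : ℝ) ≤ 5 * s * n := by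
    intro c hc hcB
    by_contra hcon
    exact hcB (mem_filter.2 ⟨hc, not_le.1 hcon⟩)
  have hθ : 4 * ε * Λ ≤ 1 / 8 := by
    have e1 : s * (1000 * Λ * s) ≤ s * δ := mul_le_mul_of_nonneg_left hs hs0.le
    have e2 : s * δ ≤ δ * δ := mul_le_mul_of_nonneg_right (by linarith) hδ0.le
    have e3 : δ * δ ≤ (1 / 10 ^ 6) * (1 / 10 ^ 6) := mul_le_mul hδ hδ hδ0.le (by norm_num)
    have e4 : s * (1000 * Λ * s) = 1000 * (ε * Λ) := by rw [← hs2]; ring
    rw [e4] at e1
    linarith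
  -- relation in both directions
  have relR : ∀ c ∈ C, ∀ c' ∈ C, c' ∉ U c →
      (|c' j / c' k - c j / c k| ≤ 2 * ε * |c' i / c' k - c i / c k|) ∨
      (|c' i / c' k - c i / c k| ≤ 2 * ε * |c' j / c' k - c j / c k|) := by
    intro c hc c' hc' hn
    by_cases hcc : c = c'
    · left
      subst hcc
      rw [sub_self, sub_self, abs_zero, mul_zero]
    · have : (line P c c' ∩ clu P ε i).Nonempty ∨ (line P c c' ∩ clu P ε j).Nonempty := by
        by_contra hcon
        rw [not_or] at hcon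
        exact hn (mem_filter.2 ⟨hc', hcc, hcon.1, hcon.2⟩)
      rcases this with h' | h'
      · left; exact rel h hij hik hjk hc hc' h'
      · right; exact rel h hij.symm hjk hik hc hc' h'
  have count : ∀ T : V → Prop, (∀ c ∈ C, c ∉ F → c ∉ U c1 → c ∉ U c2 → T c) →
      (1 - 2 * δ) * (C.card : ℝ) ≤ ((C.filter T).card : ℝ) := by
    intro T hT
    have e1 : C ⊆ (C.filter T) ∪ ((F ∪ U c1) ∪ U c2) := by
      intro c hc
      rw [mem_union, mem_union, mem_union]
      by_cases hTc : T c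
      · left; exact mem_filter.2 ⟨hc, hTc⟩
      · right
        by_contra hcon
        rw [not_or, not_or] at hcon
        exact hTc (hT c hc hcon.1.1 hcon.1.2 hcon.2)
    have e2 : (C.card : ℝ) ≤ (((C.filter T) ∪ ((F ∪ U c1) ∪ U c2)).card : ℝ) := by
      exact_mod_cast Finset.card_le_card e1
    have f1 := FrM2_union (C.filter T) ((F ∪ U c1) ∪ U c2)
    have f2 := FrM2_union (F ∪ U c1) (U c2)
    have f3 := FrM2_union F (U c1)
    have f4 := Uc c1 h1C h1B
    have f5 := Uc c2 h2C h2B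
    have f6 : 0 < δ * (C.card : ℝ) := mul_pos hδ0 hNpos
    linarith
  obtain ⟨nx1, ny1⟩ := nearF c1 h1C h1F
  obtain ⟨nx2, ny2⟩ := nearF c2 h2C h2F
  rcases m12 with m12 | m12
  · left
    refine ⟨c1, h1C, count _ fun c hc hcF hc1 hc2 => ?_⟩
    obtain ⟨nx, ny⟩ := nearF c hc hcF
    exact FrM2_arith hε hr hε' hθ nx1 ny1 nx2 ny2 nx ny hd12 (rel h hij hik hjk h1C h2C m12)
      (relR c1 h1C c hc hc1) (relR c2 h2C c hc hc2)
  · right
    refine ⟨c1, h1C, count _ fun c hc hcF hc1 hc2 => ?_⟩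
    obtain ⟨nx, ny⟩ := nearF c hc hcF
    exact FrM2_arith hε hr hε' hθ ny1 nx1 ny2 nx2 ny nx hd12.symm
      (rel h hij.symm hjk hik h1C h2C m12)
      (relR c1 h1C c hc hc1).symm (relR c2 h2C c hc hc2).symm

end Pool.Agent.H89.DR
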