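import Pool.Agent.H89.DR.LinB

/-!
# Module HalfA (about 80 lines): transfer of fractions through a point

`dis P c B D` is the total difference, over the lines `l` through `c`, of the fractions of `B` and
of `D` on `l`.

Proof of `transfer`. By `sum_thru` with `G l q = if q ∈ B ∧ neg q then 1 else 0` the number of
`q ∈ B` with `neg q` is `∑ l ∈ thru P c, #{q ∈ l ∩ B : neg q}` (`c ∉ B`), the same for `D`. On a
line `l` through `c` all points of `l ∩ (B ∪ D)` have the same truth value of `neg` (three points of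
a line are dependent, `det_of_mem`), so there is `e l ∈ {0, 1}` with
`#{q ∈ l ∩ B : neg q} = e l * #(l ∩ B)` and the same for `D`. Divide and subtract.
-/

set_option autoImplicit false

namespace Pool.Agent.H89.DR

open Finset Classical

/-- total difference of the fractions of `B` and `D` on the lines through `c` -/
noncomputable def dis (P : Finset V) (c : V) (B D : Finset V) : ℝ :=
  ∑ l ∈ thru P c, |((l ∩ B).card : ℝ) / B.card - ((l ∩ D).card : ℝ) / D.card|

/-- the points of `B` with the property `neg`, sorted by the line through `c` -/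
theorem card_thru {P : Finset V} (hP : Conf P) {c : V} (hc : c ∈ P) {B : Finset V} (hB : B ⊆ P)
    (hcB : c ∉ B) (neg : V → Prop) :
    ((B.filter neg).card : ℝ) = ∑ l ∈ thru P c, (((l ∩ B).filter neg).card : ℝ) := by
  have h := sum_thru hP hc (fun _ q => if q ∈ B ∧ neg q then (1 : ℝ) else 0)
  have h1 : ∑ q ∈ P.erase c, (if q ∈ B ∧ neg q then (1 : ℝ) else 0)
      = ((B.filter neg).card : ℝ) := by
    rw [← Finset.sum_filter, Finset.sum_const, nsmul_eq_mul, mul_one]
    congr 2
    ext q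
    simp only [Finset.mem_filter, Finset.mem_erase]
    constructor
    · rintro ⟨-, h2⟩
      exact h2
    · rintro ⟨h2, h3⟩
      exact ⟨⟨fun h4 => hcB (h4 ▸ h2), hB h2⟩, h2, h3⟩
  have h2 : ∀ l ∈ thru P c, ∑ q ∈ l.erase c, (if q ∈ B ∧ neg q then (1 : ℝ) else 0)
      = (((l ∩ B).filter neg).card : ℝ) := by
    intro l _
    rw [← Finset.sum_filter, Finset.sum_const, nsmul_eq_mul, mul_one]
    congr 2
    ext q
    simp only [Finset.mem_filter, Finset.mem_erase, Finset.mem_inter]
    constructor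
    · rintro ⟨⟨-, h3⟩, h4, h5⟩
      exact ⟨⟨h3, h4⟩, h5⟩
    · rintro ⟨⟨h3, h4⟩, h5⟩
      exact ⟨⟨fun h6 => hcB (h6 ▸ h4), h3⟩, h4, h5⟩
  rw [← h1, ← h, Finset.sum_congr rfl h2]

theorem transfer {P : Finset V} (hP : Conf P) {c : V} (hc : c ∈ P) {B D : Finset V} (hB : B ⊆ P)
    (hD : D ⊆ P) (hcB : c ∉ B) (hcD : c ∉ D) (neg neg' : V → Prop)
    (hBB : ∀ x ∈ B, ∀ y ∈ B, det c x y = 0 → (neg x ↔ neg y))
    (hDD : ∀ x ∈ D, ∀ y ∈ D, det c x y = 0 → (neg' x ↔ neg' y))
    (hBD : ∀ x ∈ B, ∀ y ∈ D, det c x y = 0 → (neg x ↔ neg' y)) :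
    |((B.filter neg).card : ℝ) / B.card - ((D.filter neg').card : ℝ) / D.card| ≤ dis P c B D := by
  rw [card_thru hP hc hB hcB neg, card_thru hP hc hD hcD neg', Finset.sum_div, Finset.sum_div,
    ← Finset.sum_sub_distrib]
  refine (Finset.abs_sum_le_sum_abs _ _).trans (Finset.sum_le_sum fun l hl => ?_)
  unfold thru at hl
  obtain ⟨hl, hcl⟩ := Finset.mem_filter.1 hl
  have hd : ∀ x ∈ l, ∀ y ∈ l, det c x y = 0 := fun x hx y hy => det_of_mem hP hl hcl hx hy
  by_cases he : (∃ x ∈ l ∩ B, neg x) ∨ (∃ x ∈ l ∩ D, neg' x)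
  · -- all points have the property
    have hb : (l ∩ B).filter neg = l ∩ B := by
      refine Finset.filter_true_of_mem fun y hy => ?_
      have hy' := Finset.mem_inter.1 hy
      rcases he with ⟨x, hx, hn⟩ | ⟨x, hx, hn⟩
      · have hx' := Finset.mem_inter.1 hx
        exact (hBB x hx'.2 y hy'.2 (hd x hx'.1 y hy'.1)).1 hn
      · have hx' := Finset.mem_inter.1 hx
        exact (hBD y hy'.2 x hx'.2 (hd y hy'.1 x hx'.1)).2 hn
    have hdd : (l ∩ D).filter neg' = l ∩ D := by
      refine Finset.filter_true_of_mem fun y hy => ?_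
      have hy' := Finset.mem_inter.1 hy
      rcases he with ⟨x, hx, hn⟩ | ⟨x, hx, hn⟩
      · have hx' := Finset.mem_inter.1 hx
        exact (hBD x hx'.2 y hy'.2 (hd x hx'.1 y hy'.1)).1 hn
      · have hx' := Finset.mem_inter.1 hx
        exact (hDD x hx'.2 y hy'.2 (hd x hx'.1 y hy'.1)).1 hn
    rw [hb, hdd]
  · push Not at he
    have hb : (l ∩ B).filter neg = ∅ :=
      Finset.filter_false_of_mem fun y hy => he.1 y hy
    have hdd : (l ∩ D).filter neg' = ∅ :=
      Finset.filter_false_of_mem fun y hy => he.2 y hy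
    rw [hb, hdd]
    simp

end Pool.Agent.H89.DR
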