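import Pool.Agent.H89.DR.HalfA
import Pool.Agent.H89.DR.Alg

/-!
# Module HalfB (about 110 lines): sides of a line

`g` is a scaling of the points (it fixes the signs of the representatives), `v` a vector,
`0 < g a * g b * det v a b` means: `a` comes before `b`. `w` is the normal of a line, the side of `x`
is the sign of `g x * dot w x`.

Proofs. For dependent `c, x, y`: `det_four v c x y w` with `det c x y = 0` gives
`det v x y * dot w c - det v c y * dot w x + det v c x * dot w y = 0` up to the order of the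
arguments; so if `dot w c = 0`: `det v c y * dot w x = det v c x * dot w y`. Multiply by
`g c * g x * g y`: `(g c g y det v c y) (g x dot w x) = (g c g x det v c x) (g y dot w y)`; both
brackets on the left are positive if `c` is before `x` and `y`, both negative if `c` is after both,
of opposite signs if `x` is before `c` and `c` is before `y` (`det v c x = - det v x c`).

`half_line`: `b-`, `b+` = fractions of `C2` on the negative and positive side, `a-, a+` for `C1`,
`d-, d+` for `C3`. `transfer` at `c1` for `C2, C3` (same side): `|b- - d-| ≤ κ`; at `c2` for `C1, C3`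
(opposite sides): `|a- - d+| ≤ κ`, `|a+ - d-| ≤ κ`; at `c3` for `C1, C2`: `|a+ - b+| ≤ κ`,
`|a- - b-| ≤ κ`. So `b- ≈ d- ≈ a+ ≈ b+`, error `3 κ`.
-/

set_option autoImplicit false

namespace Pool.Agent.H89.DR

open Finset Classical

private theorem hb_sign {A B X Y : ℝ} (hA : 0 < A) (hB : 0 < B) (h : B * X = A * Y) :
    (X < 0 ↔ Y < 0) ∧ (0 < X ↔ 0 < Y) := by
  constructor
  · constructor
    · intro hX
      by_contra hY
      rw [not_lt] at hY
      nlinarith [mul_neg_of_pos_of_neg hB hX, mul_nonneg hA.le hY]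
    · intro hY
      by_contra hX
      rw [not_lt] at hX
      nlinarith [mul_neg_of_pos_of_neg hA hY, mul_nonneg hB.le hX]
  · constructor
    · intro hX
      by_contra hY
      rw [not_lt] at hY
      nlinarith [mul_pos hB hX, mul_nonneg hA.le (neg_nonneg.2 hY)]
    · intro hY
      by_contra hX
      rw [not_lt] at hX
      nlinarith [mul_pos hA hY, mul_nonneg hB.le (neg_nonneg.2 hX)]

private theorem hb_id {v w c x y : V} (hd : det c x y = 0) (hw : dot w c = 0) :
    det v c y * dot w x = det v c x * dot w y := by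
  unfold det at *
  unfold dot at *
  linear_combination (-(v 0 * w 0 + v 1 * w 1 + v 2 * w 2)) * hd +
    (v 0 * (x 1 * y 2 - x 2 * y 1) + v 1 * (x 2 * y 0 - x 0 * y 2) +
      v 2 * (x 0 * y 1 - x 1 * y 0)) * hw

private theorem hb_swap (v c x : V) : det v x c = - det v c x := by
  unfold det
  ring

theorem side_first {v w c x y : V} {g : V → ℝ} (hx : 0 < g c * g x * det v c x)
    (hy : 0 < g c * g y * det v c y) (hd : det c x y = 0) (hw : dot w c = 0) :
    (g x * dot w x < 0 ↔ g y * dot w y < 0) ∧ (0 < g x * dot w x ↔ 0 < g y * dot w y) := by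
  refine hb_sign hx hy ?_
  linear_combination (g c * g x * g y) * hb_id (v := v) hd hw

theorem side_last {v w c x y : V} {g : V → ℝ} (hx : 0 < g x * g c * det v x c)
    (hy : 0 < g y * g c * det v y c) (hd : det c x y = 0) (hw : dot w c = 0) :
    (g x * dot w x < 0 ↔ g y * dot w y < 0) ∧ (0 < g x * dot w x ↔ 0 < g y * dot w y) := by
  refine hb_sign hx hy ?_
  rw [hb_swap v c x, hb_swap v c y]
  linear_combination (-(g c * g x * g y)) * hb_id (v := v) hd hw

theorem side_mid {v w c x y : V} {g : V → ℝ} (hx : 0 < g x * g c * det v x c)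
    (hy : 0 < g c * g y * det v c y) (hd : det c x y = 0) (hw : dot w c = 0) :
    (g x * dot w x < 0 ↔ 0 < g y * dot w y) ∧ (0 < g x * dot w x ↔ g y * dot w y < 0) := by
  have h : (g x * dot w x < 0 ↔ -(g y * dot w y) < 0) ∧
      (0 < g x * dot w x ↔ 0 < -(g y * dot w y)) := by
    refine hb_sign hx hy ?_
    rw [hb_swap v c x]
    linear_combination (g c * g x * g y) * hb_id (v := v) hd hw
  rw [neg_lt_zero, neg_pos] at h
  exact h

theorem half_line {P : Finset V} (hP : Conf P) {C1 C2 C3 : Finset V} (h1 : C1 ⊆ P) (h2 : C2 ⊆ P)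
    (h3 : C3 ⊆ P) {v : V} {g : V → ℝ}
    (o12 : ∀ a ∈ C1, ∀ b ∈ C2, 0 < g a * g b * det v a b)
    (o13 : ∀ a ∈ C1, ∀ b ∈ C3, 0 < g a * g b * det v a b)
    (o23 : ∀ a ∈ C2, ∀ b ∈ C3, 0 < g a * g b * det v a b)
    {κ : ℝ} (hN2 : 0 < C2.card) {c1 c2 c3 : V} (hc1 : c1 ∈ C1) (hc2 : c2 ∈ C2) (hc3 : c3 ∈ C3)
    (d1 : dis P c1 C2 C3 ≤ κ) (d2 : dis P c2 C1 C3 ≤ κ) (d3 : dis P c3 C1 C2 ≤ κ)
    {w : V} (w1 : dot w c1 = 0) (w2 : dot w c2 = 0) (w3 : dot w c3 = 0) :
    |((C2.filter fun b => g b * dot w b < 0).card : ℝ) -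
      ((C2.filter fun b => 0 < g b * dot w b).card : ℝ)| ≤ 3 * κ * C2.card := by
  have hself : ∀ a : V, ¬ 0 < g a * g a * det v a a := by
    intro a h
    have : det v a a = 0 := by unfold det; ring
    rw [this, mul_zero] at h
    exact lt_irrefl _ h
  have t1 := transfer hP (h1 hc1) h2 h3 (fun h => hself c1 (o12 c1 hc1 c1 h))
    (fun h => hself c1 (o13 c1 hc1 c1 h)) (fun x => g x * dot w x < 0) (fun x => g x * dot w x < 0)
    (fun x hx y hy hd => (side_first (o12 c1 hc1 x hx) (o12 c1 hc1 y hy) hd w1).1)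
    (fun x hx y hy hd => (side_first (o13 c1 hc1 x hx) (o13 c1 hc1 y hy) hd w1).1)
    (fun x hx y hy hd => (side_first (o12 c1 hc1 x hx) (o13 c1 hc1 y hy) hd w1).1)
  have t2 := transfer hP (h2 hc2) h1 h3 (fun h => hself c2 (o12 c2 h c2 hc2))
    (fun h => hself c2 (o23 c2 hc2 c2 h)) (fun x => 0 < g x * dot w x) (fun x => g x * dot w x < 0)
    (fun x hx y hy hd => (side_last (o12 x hx c2 hc2) (o12 y hy c2 hc2) hd w2).2)
    (fun x hx y hy hd => (side_first (o23 c2 hc2 x hx) (o23 c2 hc2 y hy) hd w2).1)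
    (fun x hx y hy hd => (side_mid (o12 x hx c2 hc2) (o23 c2 hc2 y hy) hd w2).2)
  have t3 := transfer hP (h3 hc3) h1 h2 (fun h => hself c3 (o13 c3 h c3 hc3))
    (fun h => hself c3 (o23 c3 h c3 hc3)) (fun x => 0 < g x * dot w x) (fun x => 0 < g x * dot w x)
    (fun x hx y hy hd => (side_last (o13 x hx c3 hc3) (o13 y hy c3 hc3) hd w3).2)
    (fun x hx y hy hd => (side_last (o23 x hx c3 hc3) (o23 y hy c3 hc3) hd w3).2)
    (fun x hx y hy hd => (side_last (o13 x hx c3 hc3) (o23 y hy c3 hc3) hd w3).2)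
  have hN : (0 : ℝ) < C2.card := by exact_mod_cast hN2
  set a := ((C2.filter fun b => g b * dot w b < 0).card : ℝ) with ha
  set b := ((C2.filter fun b => 0 < g b * dot w b).card : ℝ) with hb
  have e1 := abs_le.1 (t1.trans d1)
  have e2 := abs_le.1 (t2.trans d2)
  have e3 := abs_le.1 (t3.trans d3)
  have e4 : |a / C2.card - b / C2.card| ≤ 3 * κ := by
    rw [abs_le]
    constructor <;> linarith [e1.1, e1.2, e2.1, e2.2, e3.1, e3.2]
  rw [← sub_div, abs_div, abs_of_pos hN, div_le_iff₀ hN] at e4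
  exact e4

end Pool.Agent.H89.DR
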