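import Pool.Agent.H89.DR.HalfB

/-!
# Module HalfC (about 130 lines): a rich line through a good point

`slope`: for a unit vector `c` and a vector `v` there is `t` with `det c v t ≠ 0` if `c`, `v` are
independent (they are: `det v c b ≠ 0`). For `b` after `c` put
`σ b = det t c b / det v c b` (scaling invariant). The identity
`det v c b * det t c b' - det v c b' * det t c b = ± det c v t * det c b b'` shows: `σ b' - σ b` has
the sign of `± (g c g b g b' det c b b')`, a fixed sign `±` depending on `t`; choose `t` such that it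
is `+` (replace `t` by `-t`). So `exists_slope`.

`half_point`. Let `Γ` be the set of the `b ∈ C2` with `dis P b C1 C3 ≤ κ` such that the line `c1 b`
contains some `d ∈ C3` with `dis P d C1 C2 ≤ κ`. `#(C2 \ Γ) ≤ 3 κ #C2`: bad `b` are at most `κ #C2`;
the others are on lines `l` through `c1` all of whose points of `C3` are bad, so (`sum_thru`) their
number is at most `∑ #(l ∩ C2) ≤ #C2 ∑ (#(l ∩ C3)/#C3 + |..|) ≤ #C2 (#bad3/#C3 + κ)`.
Let `b ∈ Γ` have the least slope `σ b`, and `w = g c1 * g b • crs c1 b`, so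
`g b' * dot w b' = g c1 g b g b' det c1 b b'`. By `half_line`
`|#{σ < σ b} - #{σ > σ b}| ≤ 3 κ #C2`, and the points with `σ < σ b` are not in `Γ`, so there are at
most `3 κ #C2` of them, hence at most `6 κ #C2` with `σ > σ b`. So at least `(1 - 9 κ) #C2` points `b'`
have `σ b' = σ b`, that is `det c1 b b' = 0`: they are on the line `c1 b`. (`Γ` is not empty because
`3 κ < 1`.)
-/

set_option autoImplicit false

namespace Pool.Agent.H89.DR

open Finset Classical

private theorem hc_plu (v c b b' t : V) : det v c b * det t c b' - det v c b' * det t c b =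
    det c v t * det c b b' := by
  unfold det
  ring

private theorem hc_crs (v c : V) : det c v (crs c v) = crq c v := by
  unfold det crs crq
  simp
  ring

theorem exists_slope (v c : V) (g : V → ℝ) (hc : g c ≠ 0) (hcv : 0 < crq c v) :
    ∃ σ : V → ℝ, ∀ b b' : V, 0 < g c * g b * det v c b → 0 < g c * g b' * det v c b' →
      (σ b' < σ b ↔ g c * g b * g b' * det c b b' < 0) ∧
      (σ b < σ b' ↔ 0 < g c * g b * g b' * det c b b') := by
  refine ⟨fun b => g c * det (crs c v) c b / det v c b, ?_⟩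
  have key : ∀ b b' : V, 0 < g c * g b * det v c b → 0 < g c * g b' * det v c b' →
      ∃ K : ℝ, 0 < K ∧ g c * det (crs c v) c b' / det v c b' - g c * det (crs c v) c b / det v c b =
        K * (g c * g b * g b' * det c b b') := by
    intro b b' hb hb'
    have hD : det v c b ≠ 0 := by intro h; rw [h, mul_zero] at hb; exact lt_irrefl _ hb
    have hD' : det v c b' ≠ 0 := by intro h; rw [h, mul_zero] at hb'; exact lt_irrefl _ hb'
    have hE : 0 < (g c * g b * det v c b) * (g c * g b' * det v c b') := mul_pos hb hb'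
    refine ⟨crq c v * g c ^ 2 / ((g c * g b * det v c b) * (g c * g b' * det v c b')),
      by positivity, ?_⟩
    have h1 := hc_plu v c b b' (crs c v)
    rw [hc_crs] at h1
    have hgb : g b ≠ 0 := by intro h; rw [h, mul_zero, zero_mul] at hb; exact lt_irrefl _ hb
    have hgb' : g b' ≠ 0 := by intro h; rw [h, mul_zero, zero_mul] at hb'; exact lt_irrefl _ hb'
    field_simp
    linear_combination h1
  intro b b' hb hb'
  obtain ⟨K, hK, h⟩ := key b b' hb hb'
  constructor
  · constructor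
    · intro hlt
      have h1 : K * (g c * g b * g b' * det c b b') < 0 := by rw [← h]; exact sub_neg.2 hlt
      by_contra hx
      rw [not_lt] at hx
      exact absurd (mul_nonneg hK.le hx) (not_le.2 h1)
    · intro hneg
      have h1 := mul_neg_of_pos_of_neg hK hneg
      rw [← h] at h1
      exact sub_neg.1 h1
  · constructor
    · intro hlt
      have h1 : 0 < K * (g c * g b * g b' * det c b b') := by rw [← h]; exact sub_pos.2 hlt
      exact (mul_pos_iff_of_pos_left hK).1 h1
    · intro hpos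
      have h1 := (mul_pos_iff_of_pos_left hK).2 hpos
      rw [← h] at h1
      exact sub_pos.1 h1

private theorem hc_crq {v c b : V} (h : det v c b ≠ 0) : 0 < crq c v := by
  by_contra hn
  have h0 : crq c v = 0 := by
    refine le_antisymm (not_lt.1 hn) ?_
    unfold crq
    positivity
  unfold crq at h0
  have q1 := sq_nonneg (c 1 * v 2 - c 2 * v 1)
  have q2 := sq_nonneg (c 2 * v 0 - c 0 * v 2)
  have q3 := sq_nonneg (c 0 * v 1 - c 1 * v 0)
  have e1 : c 1 * v 2 - c 2 * v 1 = 0 := (pow_eq_zero_iff two_ne_zero).1 (by linarith)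
  have e2 : c 2 * v 0 - c 0 * v 2 = 0 := (pow_eq_zero_iff two_ne_zero).1 (by linarith)
  have e3 : c 0 * v 1 - c 1 * v 0 = 0 := (pow_eq_zero_iff two_ne_zero).1 (by linarith)
  apply h
  unfold det
  linear_combination (-(b 0)) * e1 - (b 1) * e2 - (b 2) * e3

/-- few points of `C2` see only bad points of `C3` from `c1` -/
private theorem hc_few {P : Finset V} (hP : Conf P) {C2 C3 : Finset V} (h2 : C2 ⊆ P)
    (h3 : C3 ⊆ P) {κ : ℝ} (hN2 : 0 < C2.card) (hN3 : 0 < C3.card) {c1 : V} (hc1 : c1 ∈ P)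
    (hc2 : c1 ∉ C2) (hc3 : c1 ∉ C3) (d1 : dis P c1 C2 C3 ≤ κ) (bad : V → Prop)
    (b3 : ((C3.filter bad).card : ℝ) ≤ κ * C3.card) (Z : V → Prop)
    (hZ : ∀ b, Z b ↔ ∀ d ∈ C3, ¬ bad d → det c1 b d ≠ 0) :
    ((C2.filter Z).card : ℝ) ≤ 2 * κ * C2.card := by
  have n2 : (0 : ℝ) < C2.card := by exact_mod_cast hN2
  have n3 : (0 : ℝ) < C3.card := by exact_mod_cast hN3
  have e3 := card_thru hP hc1 h3 hc3 bad
  have key : ∀ l ∈ thru P c1,
      (((l ∩ C2).filter Z).card : ℝ) ≤
        C2.card * ((((l ∩ C3).filter bad).card : ℝ) / C3.card +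
          |((l ∩ C2).card : ℝ) / C2.card - ((l ∩ C3).card : ℝ) / C3.card|) := by
    intro l hl
    rcases Finset.eq_empty_or_nonempty
      ((l ∩ C2).filter Z) with he | ⟨b, hb⟩
    · rw [he, Finset.card_empty, Nat.cast_zero]
      positivity
    · obtain ⟨hbl, hbz⟩ := Finset.mem_filter.1 hb
      obtain ⟨hbl, -⟩ := Finset.mem_inter.1 hbl
      unfold thru at hl
      obtain ⟨hl, hcl⟩ := Finset.mem_filter.1 hl
      have hall : (l ∩ C3).filter bad = l ∩ C3 := by
        refine Finset.filter_true_of_mem fun d hd => ?_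
        obtain ⟨hdl, hd3⟩ := Finset.mem_inter.1 hd
        by_contra hbad
        exact (hZ b).1 hbz d hd3 hbad (det_of_mem hP hl hcl hbl hdl)
      rw [hall]
      have hle : (((l ∩ C2).filter Z).card : ℝ) ≤
          (l ∩ C2).card := by exact_mod_cast Finset.card_filter_le _ _
      have habs := le_abs_self (((l ∩ C2).card : ℝ) / C2.card - ((l ∩ C3).card : ℝ) / C3.card)
      have h5 : ((l ∩ C2).card : ℝ) = C2.card * (((l ∩ C2).card : ℝ) / C2.card) := by
        field_simp
      refine (hle.trans (le_of_eq h5)).trans ?_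
      refine mul_le_mul_of_nonneg_left ?_ n2.le
      linarith
  rw [card_thru hP hc1 h2 hc2 Z]
  refine (Finset.sum_le_sum key).trans ?_
  rw [← Finset.mul_sum, Finset.sum_add_distrib, ← Finset.sum_div, ← e3]
  have h6 : ((C3.filter bad).card : ℝ) / C3.card ≤ κ := by
    rw [div_le_iff₀ n3]
    exact b3
  have h7 : ((C3.filter bad).card : ℝ) / C3.card + ∑ l ∈ thru P c1,
      |((l ∩ C2).card : ℝ) / C2.card - ((l ∩ C3).card : ℝ) / C3.card| ≤ 2 * κ := by
    unfold dis at d1
    linarith
  have h8 := mul_le_mul_of_nonneg_left h7 n2.le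
  linarith

theorem half_point {P : Finset V} (hP : Conf P) {C1 C2 C3 : Finset V} (h1 : C1 ⊆ P) (h2 : C2 ⊆ P)
    (h3 : C3 ⊆ P) {v : V} {g : V → ℝ}
    (o12 : ∀ a ∈ C1, ∀ b ∈ C2, 0 < g a * g b * det v a b)
    (o13 : ∀ a ∈ C1, ∀ b ∈ C3, 0 < g a * g b * det v a b)
    (o23 : ∀ a ∈ C2, ∀ b ∈ C3, 0 < g a * g b * det v a b)
    {κ : ℝ} (hκ : 0 < κ) (hκ' : κ ≤ 1 / 40) (hN2 : 0 < C2.card) (hN3 : 0 < C3.card)
    (b2 : ((C2.filter fun b => κ < dis P b C1 C3).card : ℝ) ≤ κ * C2.card)
    (b3 : ((C3.filter fun b => κ < dis P b C1 C2).card : ℝ) ≤ κ * C3.card)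
    {c1 : V} (hc1 : c1 ∈ C1) (d1 : dis P c1 C2 C3 ≤ κ) :
    ∃ l ∈ thru P c1, (1 - 9 * κ) * C2.card ≤ ((l ∩ C2).card : ℝ) := by
  have n2 : (0 : ℝ) < C2.card := by exact_mod_cast hN2
  have hself : ∀ a : V, ¬ 0 < g a * g a * det v a a := by
    intro a h
    have : det v a a = 0 := by unfold det; ring
    rw [this, mul_zero] at h
    exact lt_irrefl _ h
  have hc2 : c1 ∉ C2 := fun h => hself c1 (o12 c1 hc1 c1 h)
  have hc3 : c1 ∉ C3 := fun h => hself c1 (o13 c1 hc1 c1 h)
  set Γ := C2.filter fun b => dis P b C1 C3 ≤ κ ∧ ∃ d ∈ C3, dis P d C1 C2 ≤ κ ∧ det c1 b d = 0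
    with hΓ
  obtain ⟨Z, hZ⟩ : ∃ Z : V → Prop, ∀ b, Z b ↔ ∀ d ∈ C3, ¬ κ < dis P d C1 C2 → det c1 b d ≠ 0 :=
    ⟨_, fun _ => Iff.rfl⟩
  have hfew := hc_few hP h2 h3 hN2 hN3 (h1 hc1) hc2 hc3 d1 (fun d => κ < dis P d C1 C2) b3 Z hZ
  have hsub : C2 \ Γ ⊆ (C2.filter fun b => κ < dis P b C1 C3) ∪
      (C2.filter Z) := by
    intro b hb
    obtain ⟨hb2, hbΓ⟩ := Finset.mem_sdiff.1 hb
    rw [Finset.mem_union, Finset.mem_filter, Finset.mem_filter]
    by_contra hcon
    rw [not_or] at hcon
    apply hbΓ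
    rw [hΓ, Finset.mem_filter]
    have c1' : dis P b C1 C3 ≤ κ := by
      by_contra h
      exact hcon.1 ⟨hb2, not_le.1 h⟩
    refine ⟨hb2, c1', ?_⟩
    by_contra h
    push Not at h
    exact hcon.2 ⟨hb2, (hZ b).2 fun d hd hd' => h d hd (not_lt.1 hd')⟩
  have hΓc : ((C2 \ Γ).card : ℝ) ≤ 3 * κ * C2.card := by
    have h4 : ((C2 \ Γ).card : ℝ) ≤ ((C2.filter fun b => κ < dis P b C1 C3).card : ℝ) +
        ((C2.filter Z).card : ℝ) := by
      exact_mod_cast (Finset.card_le_card hsub).trans (Finset.card_union_le _ _)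
    linarith
  have hΓne : Γ.Nonempty := by
    rw [Finset.nonempty_iff_ne_empty]
    intro he
    rw [he, Finset.sdiff_empty] at hΓc
    nlinarith
  obtain ⟨b0, hb0⟩ := hΓne
  have hb02 : b0 ∈ C2 := (Finset.mem_filter.1 hb0).1
  have hgc : g c1 ≠ 0 := by
    intro h
    have := o12 c1 hc1 b0 hb02
    rw [h, zero_mul, zero_mul] at this
    exact lt_irrefl _ this
  have hdet : det v c1 b0 ≠ 0 := by
    intro h
    have := o12 c1 hc1 b0 hb02
    rw [h, mul_zero] at this
    exact lt_irrefl _ this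
  obtain ⟨σ, hσ⟩ := exists_slope v c1 g hgc (hc_crq hdet)
  obtain ⟨b, hb, hmin⟩ := Finset.exists_min_image Γ σ ⟨b0, hb0⟩
  obtain ⟨hb2, hbd, d, hd3, hdd, hdet0⟩ := Finset.mem_filter.1 hb
  set w : V := (g c1 * g b) • crs c1 b with hw
  have hwx : ∀ x : V, dot w x = g c1 * g b * det c1 b x := by
    intro x
    rw [hw]
    unfold dot det crs
    simp
    ring
  have w1 : dot w c1 = 0 := by rw [hwx]; unfold det; ring
  have w2 : dot w b = 0 := by rw [hwx]; unfold det; ring
  have w3 : dot w d = 0 := by rw [hwx, hdet0, mul_zero]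
  have hhalf := half_line hP h1 h2 h3 o12 o13 o23 hN2 hc1 hb2 hd3 d1 hbd hdd w1 w2 w3
  have hgw : ∀ x : V, g x * dot w x = g c1 * g b * g x * det c1 b x := by
    intro x
    rw [hwx]
    ring
  -- the points with smaller slope are not in Γ
  have hneg : (C2.filter fun x => g x * dot w x < 0) ⊆ C2 \ Γ := by
    intro x hx
    obtain ⟨hx2, hxn⟩ := Finset.mem_filter.1 hx
    rw [Finset.mem_sdiff]
    refine ⟨hx2, fun hxΓ => ?_⟩
    rw [hgw] at hxn
    have h4 := (hσ b x (o12 c1 hc1 b hb2) (o12 c1 hc1 x hx2)).1.2 hxn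
    exact absurd (hmin x hxΓ) (not_le.2 h4)
  have hnegc : ((C2.filter fun x => g x * dot w x < 0).card : ℝ) ≤ 3 * κ * C2.card :=
    le_trans (by exact_mod_cast Finset.card_le_card hneg) hΓc
  have hposc : ((C2.filter fun x => 0 < g x * dot w x).card : ℝ) ≤ 6 * κ * C2.card := by
    have h4 := (abs_le.1 hhalf).1
    linarith
  have hne : c1 ≠ b := by rintro rfl; exact hc2 hb2
  have hlP : line P c1 b ∈ lines P := line_mem_lines (h1 hc1) (h2 hb2) hne
  refine ⟨line P c1 b, ?_, ?_⟩
  · unfold thru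
    rw [Finset.mem_filter]
    exact ⟨hlP, left_mem_line (h1 hc1) b⟩
  · have hgb : g b ≠ 0 := by
      intro h
      have := o12 c1 hc1 b hb2
      rw [h, mul_zero, zero_mul] at this
      exact lt_irrefl _ this
    have hcover : C2 ⊆ (C2.filter fun x => g x * dot w x < 0) ∪
        (C2.filter fun x => 0 < g x * dot w x) ∪ (line P c1 b ∩ C2) := by
      intro x hx
      rw [Finset.mem_union, Finset.mem_union, Finset.mem_filter, Finset.mem_filter,
        Finset.mem_inter]
      rcases lt_trichotomy (g x * dot w x) 0 with h4 | h4 | h4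
      · exact Or.inl (Or.inl ⟨hx, h4⟩)
      · refine Or.inr ⟨?_, hx⟩
        have hgx : g x ≠ 0 := by
          intro h
          have := o12 c1 hc1 x hx
          rw [h, mul_zero, zero_mul] at this
          exact lt_irrefl _ this
        rw [hgw] at h4
        have h5 : det c1 b x = 0 := by
          rcases mul_eq_zero.1 h4 with h5 | h5
          · exact absurd h5 (mul_ne_zero (mul_ne_zero hgc hgb) hgx)
          · exact h5
        exact mem_of_det hP hlP (left_mem_line (h1 hc1) b) (right_mem_line c1 (h2 hb2)) hne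
          (h2 hx) h5
      · exact Or.inl (Or.inr ⟨hx, h4⟩)
    have h6 : (C2.card : ℝ) ≤ ((C2.filter fun x => g x * dot w x < 0).card : ℝ) +
        ((C2.filter fun x => 0 < g x * dot w x).card : ℝ) + ((line P c1 b ∩ C2).card : ℝ) := by
      have h7 := (Finset.card_le_card hcover).trans (Finset.card_union_le _ _)
      have h8 := Finset.card_union_le (C2.filter fun x => g x * dot w x < 0)
        (C2.filter fun x => 0 < g x * dot w x)
      exact_mod_cast h7.trans (Nat.add_le_add_right h8 _)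
    linarith

end Pool.Agent.H89.DR
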