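import Pool.Agent.H89.DR.LinB

/-!
# Module JR (about 120 lines): the balance of a line

For a line `l` with unit normal `w` and `p ∈ l` put `R = ∑ q ∈ l, (2 (p.q)^2 - 1)` (sum of
`cos 2 theta`) and `J = ∑ q ∈ l, 2 (p.q) [w,p,q]` (sum of `sin 2 theta`). Then `R^2 + J^2 = Q l`:
by `frame`, `(2(p.q)^2 - 1)(2(p.r)^2 - 1) + 2(p.q)[w,p,q] * 2(p.r)[w,p,r] = 2(q.r)^2 - 1`
for all `q, r ∈ l` (with `(p.q)^2 + [w,p,q]^2 = 1`, `(p.r)^2 + [w,p,r]^2 = 1`, which is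
`frame` for `q = r`), sum over `q, r ∈ l` (`Finset.sum_mul_sum`).
`sum_Q`: `sum_pairs` for the terms `p ≠ q`, and the terms `p = q` are `1` each (`sum_deg`).
`sum_card_sqrt`: Cauchy-Schwarz (`Finset.sum_mul_sq_le_sq_mul_sq` or `inner_mul_le_norm_mul_norm`)
and `sum_card_sq_le`.
-/

set_option autoImplicit false

namespace Pool.Agent.H89.DR

open Finset Classical

theorem RJ {l : Finset V} (hu : ∀ t ∈ l, dot t t = 1) {w : V} (hw : dot w w = 1)
    (hwl : ∀ t ∈ l, dot w t = 0) {p : V} (hp : p ∈ l) :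
    (∑ q ∈ l, (2 * dot p q ^ 2 - 1)) ^ 2 + (∑ q ∈ l, 2 * dot p q * det w p q) ^ 2 = Q l := by
  unfold Q
  rw [sq, sq, Finset.sum_mul_sum, Finset.sum_mul_sum, ← Finset.sum_add_distrib]
  refine Finset.sum_congr rfl fun q hq => ?_
  rw [← Finset.sum_add_distrib]
  refine Finset.sum_congr rfl fun r hr => ?_
  have h1 := frame w p q r hw (hu p hp) (hwl p hp) (hwl q hq) (hwl r hr)
  have h2 := frame w p q q hw (hu p hp) (hwl p hp) (hwl q hq) (hwl q hq)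
  have h3 := frame w p r r hw (hu p hp) (hwl p hp) (hwl r hr) (hwl r hr)
  rw [hu q hq] at h2
  rw [hu r hr] at h3
  rw [h1]
  linear_combination (2 * det w p r ^ 2) * h2 + 2 * (1 - dot p q ^ 2) * h3

theorem Q_nonneg {P l : Finset V} (hP : Conf P) (hl : l ∈ lines P) : 0 ≤ Q l := by
  obtain ⟨w, hw, hwl⟩ := exists_normal hP hl
  have hcard := two_le_card hl
  obtain ⟨p, hp⟩ : l.Nonempty := Finset.card_pos.mp (by omega)
  have hsub := lines_sub hl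
  rw [← RJ (fun t ht => hP.unit t (hsub ht)) hw (fun t ht => (hwl t (hsub ht)).1 ht) hp]
  positivity

theorem abs_R_le {P l : Finset V} (hP : Conf P) (hl : l ∈ lines P) {p : V} (hp : p ∈ l) :
    |∑ q ∈ l, (2 * dot p q ^ 2 - 1)| ≤ Real.sqrt (Q l) := by
  obtain ⟨w, hw, hwl⟩ := exists_normal hP hl
  have hsub := lines_sub hl
  apply Real.abs_le_sqrt
  rw [← RJ (fun t ht => hP.unit t (hsub ht)) hw (fun t ht => (hwl t (hsub ht)).1 ht) hp]
  nlinarith [sq_nonneg (∑ q ∈ l, 2 * dot p q * det w p q)]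

theorem abs_J_le {P l : Finset V} (hP : Conf P) (hl : l ∈ lines P) {w : V} (hw : dot w w = 1)
    (hwl : ∀ t ∈ l, dot w t = 0) {p : V} (hp : p ∈ l) :
    |∑ q ∈ l, 2 * dot p q * det w p q| ≤ Real.sqrt (Q l) := by
  have hsub := lines_sub hl
  apply Real.abs_le_sqrt
  rw [← RJ (fun t ht => hP.unit t (hsub ht)) hw hwl hp]
  nlinarith [sq_nonneg (∑ q ∈ l, (2 * dot p q ^ 2 - 1))]

/-- the identity of the isotropic position -/
theorem sum_Q {P : Finset V} (hP : Conf P) :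
    ∑ l ∈ lines P, Q l = ∑ p ∈ P, (deg P p : ℝ) + 2 * ∑ p ∈ P, ∑ q ∈ P, dot p q ^ 2
      - (P.card : ℝ) ^ 2 - P.card := by
  have h1 : ∑ l ∈ lines P, Q l = ∑ l ∈ lines P, (l.card : ℝ) +
      ∑ l ∈ lines P, ∑ p ∈ l, ∑ q ∈ l.erase p, (2 * dot p q ^ 2 - 1) := by
    rw [← Finset.sum_add_distrib]
    refine Finset.sum_congr rfl fun l hl => ?_
    have hsub := lines_sub hl
    unfold Q
    rw [Finset.card_eq_sum_ones, Nat.cast_sum, ← Finset.sum_add_distrib]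
    refine Finset.sum_congr rfl fun p hp => ?_
    rw [← Finset.add_sum_erase l (fun q => 2 * dot p q ^ 2 - 1) hp, hP.unit p (hsub hp)]
    norm_num
  rw [h1, sum_deg, sum_pairs hP (fun _ p q => 2 * dot p q ^ 2 - 1)]
  have h2 : ∑ p ∈ P, ∑ q ∈ P.erase p, (2 * dot p q ^ 2 - 1) =
      2 * ∑ p ∈ P, ∑ q ∈ P, dot p q ^ 2 - (P.card : ℝ) ^ 2 - P.card := by
    have h3 : ∀ p ∈ P, ∑ q ∈ P.erase p, (2 * dot p q ^ 2 - 1) =
        2 * ∑ q ∈ P, dot p q ^ 2 - (P.card : ℝ) - 1 := by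
      intro p hp
      have h4 := Finset.add_sum_erase P (fun q => 2 * dot p q ^ 2 - 1) hp
      have h5 : ∑ q ∈ P, (2 * dot p q ^ 2 - 1) = 2 * ∑ q ∈ P, dot p q ^ 2 - (P.card : ℝ) := by
        rw [Finset.sum_sub_distrib, ← Finset.mul_sum]
        simp
      simp only [hP.unit p hp] at h4
      linarith
    rw [Finset.sum_congr rfl h3, Finset.sum_sub_distrib, Finset.sum_sub_distrib,
      ← Finset.mul_sum]
    simp only [Finset.sum_const, nsmul_eq_mul, mul_one]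
    ring
  rw [h2]
  ring

theorem sum_card_sqrt {P : Finset V} (hP : Conf P) {D : ℝ} (hD : ∑ l ∈ lines P, Q l ≤ D) :
    ∑ l ∈ lines P, (l.card : ℝ) * Real.sqrt (Q l) ≤ (P.card : ℝ) * Real.sqrt (2 * D) := by
  have hQ : 0 ≤ ∑ l ∈ lines P, Q l := Finset.sum_nonneg fun l hl => Q_nonneg hP hl
  have hD0 : 0 ≤ D := hQ.trans hD
  have h1 := Finset.sum_mul_sq_le_sq_mul_sq (lines P) (fun l => (l.card : ℝ))
    (fun l => Real.sqrt (Q l))
  have h2 : ∑ l ∈ lines P, Real.sqrt (Q l) ^ 2 = ∑ l ∈ lines P, Q l :=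
    Finset.sum_congr rfl fun l hl => Real.sq_sqrt (Q_nonneg hP hl)
  have h3 := sum_card_sq_le hP
  have h4 : (∑ l ∈ lines P, (l.card : ℝ) * Real.sqrt (Q l)) ^ 2 ≤
      (P.card : ℝ) ^ 2 * (2 * D) := by
    calc (∑ l ∈ lines P, (l.card : ℝ) * Real.sqrt (Q l)) ^ 2
        ≤ (∑ l ∈ lines P, (l.card : ℝ) ^ 2) * ∑ l ∈ lines P, Q l := by
          rw [← h2]; exact h1
      _ ≤ (2 * (P.card : ℝ) ^ 2) * D :=
          mul_le_mul h3 hD hQ (by positivity)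
      _ = (P.card : ℝ) ^ 2 * (2 * D) := by ring
  have h5 := Real.abs_le_sqrt h4
  rw [Real.sqrt_mul (by positivity), Real.sqrt_sq (by positivity)] at h5
  exact (le_abs_self _).trans h5

end Pool.Agent.H89.DR
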