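import Pool.Agent.H89.DR.NearP

/-!
# Module LemA (about 120 lines): Lemma A, the eigenvector inequality near a plane

`N = {p : |v.p| ≤ r}`, `a = #{p : r < |v.p| ≤ s}`, `n = #P`.

Proof. Fix `p ∈ N`. `∑ q ∈ N, (p.q) [v,p,q]` is the sum over `q ∈ P.erase p` of
`f q = if q ∈ N then (p.q) [v,p,q] else 0` (the term `q = p` vanishes), by `sum_thru` it is
`∑ l ∈ thru P p, ∑ q ∈ l.erase p, f q`.
* If `l` is not near: for `q ∈ l.erase p` in `N` we have `crq p q ≤ ρ^2` (`near_of`), so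
  `|f q| ≤ |p.q| |[v,p,q]| ≤ ρ` (`abs_det_le`, `dot_sq_le`).
* If `l` is near with normal `w`: all `q ∈ l` have `|v.q| ≤ s` (`near_abs`), so `q ∉ N` implies
  `q` in the annulus. `|∑ q ∈ l.erase p, f q| ≤ |∑ q ∈ l, (p.q) [w,p,q]| + s (#l - 1)
  + #{q ∈ l.erase p in the annulus}`, and the first term is `≤ sqrt (Q l) / 2` (`abs_J_le`).
Sum over `l ∈ thru P p` (the sets `l.erase p` partition `P.erase p`: `sum_thru` with constant
functions): `|...| ≤ (1/2) ∑ l ∈ thru P p, sqrt (Q l) + (ρ + s) n + a`. Sum over `p ∈ N ⊆ P`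
and use `sum_swap` (all terms are nonnegative): `∑ p ∈ P, ∑ l ∈ thru P p, sqrt (Q l)
= ∑ l ∈ lines P, #l sqrt (Q l)`.
-/

set_option autoImplicit false

namespace Pool.Agent.H89.DR

open Finset Classical

theorem lemA_point {P : Finset V} (hP : Conf P) {v : V} (hv : dot v v = 1) {r s ρ : ℝ}
    (hρ : 0 < ρ) (hs : 0 < s) (hr0 : 0 ≤ r) (hr : 4 * r ≤ s * ρ) {p : V} (hp : p ∈ P)
    (hvp : |dot v p| ≤ r) :
    |∑ q ∈ P.filter (fun q => |dot v q| ≤ r), dot p q * det v p q| ≤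
      (1 / 2) * ∑ l ∈ thru P p, Real.sqrt (Q l) + (ρ + s) * P.card +
        ((P.filter fun q => r < |dot v q| ∧ |dot v q| ≤ s).card : ℝ) := by sorry

theorem lemA {P : Finset V} (hP : Conf P) {v : V} (hv : dot v v = 1) {r s ρ D : ℝ}
    (hρ : 0 < ρ) (hs : 0 < s) (hr0 : 0 ≤ r) (hr : 4 * r ≤ s * ρ)
    (hD : ∑ l ∈ lines P, Q l ≤ D) :
    ∑ p ∈ P.filter (fun p => |dot v p| ≤ r),
      |∑ q ∈ P.filter (fun q => |dot v q| ≤ r), dot p q * det v p q| ≤
      (1 / 2) * ((P.card : ℝ) * Real.sqrt (2 * D)) + (P.card : ℝ) * ((ρ + s) * P.card +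
        ((P.filter fun q => r < |dot v q| ∧ |dot v q| ≤ s).card : ℝ)) := by sorry

end Pool.Agent.H89.DR
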