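import Pool.Agent.H89.DR.NearP

/-!
# Module LemB (about 120 lines): Lemma B, the number of near lines through a point near a plane

`N = {p : |v.p| ≤ r}`, `tau p` = number of near lines through `p`, `om p` = number of `q ∈ N`,
`q ≠ p`, such that the line `pq` is not near.

Proof. Sum `R(p,l) = ∑ q ∈ l, (2 (p.q)^2 - 1) = 1 + ∑ q ∈ l.erase p, (2 (p.q)^2 - 1)` over the near
lines through `p`; `|R(p,l)| ≤ sqrt (Q l)` (`abs_R_le`), so
`|tau p + ∑ (q ∈ P.erase p, line P p q near) (2 (p.q)^2 - 1)| ≤ ∑ l ∈ thru P p, sqrt (Q l)`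
(`sum_thru` with `G l q = if near then .. else 0`). In the inner sum the `q ∉ N` are in the annulus
(`near_abs`), each term is in `[-1, 1]`: error `≤ a`. The `q ∈ N.erase p` with the line near:
`∑ q ∈ N, (2 (p.q)^2 - 1) - 1 - ∑ (q ∈ N.erase p, not near) (2 (p.q)^2 - 1)`, and for the last ones
`crq p q ≤ ρ^2` (`near_of`), so each term is in `[1 - 2 ρ^2, 1]` (`crq_eq`).
-/

set_option autoImplicit false

namespace Pool.Agent.H89.DR

open Finset Classical

/-- number of near lines through `p` -/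
noncomputable def tau (P : Finset V) (v : V) (s : ℝ) (p : V) : ℝ :=
  (((thru P p).filter fun l => near v s l).card : ℝ)

/-- number of points of `N` joined to `p` by a line which is not near -/
noncomputable def om (P : Finset V) (v : V) (r s : ℝ) (p : V) : ℝ :=
  (((P.filter fun q => |dot v q| ≤ r ∧ q ≠ p ∧ ¬ near v s (line P p q)).card : ℕ) : ℝ)

theorem lemB {P : Finset V} (hP : Conf P) {v : V} (hv : dot v v = 1) {r s ρ : ℝ}
    (hρ : 0 < ρ) (hs : 0 < s) (hr0 : 0 ≤ r) (hr : 4 * r ≤ s * ρ) {p : V} (hp : p ∈ P)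
    (hvp : |dot v p| ≤ r) :
    |tau P v s p - om P v r s p +
        ∑ q ∈ P.filter (fun q => |dot v q| ≤ r), (2 * dot p q ^ 2 - 1)| ≤
      ∑ l ∈ thru P p, Real.sqrt (Q l) +
        ((P.filter fun q => r < |dot v q| ∧ |dot v q| ≤ s).card : ℝ) + 1 +
        2 * ρ ^ 2 * P.card := by sorry

end Pool.Agent.H89.DR
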