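import Pool.Agent.H89.DR.LemB

/-!
# Module LemC (about 130 lines): Lemma C, the Gram matrix of rank one

`N = {p : |v.p| ≤ r}`, `f` a function with values of absolute value `≤ B`, supported on `N`, total
sum `0`, such that two points of the support with different values of `f` are `ρ`-separated;
`G` = the points of `N` outside the support.

Proof. `∑ (l near) (∑ q ∈ l, f q)^2 = ∑ (l near) ∑ p ∈ l, f p * ∑ q ∈ l, f q
= ∑ p ∈ P, f p * ∑ (l ∈ thru P p, near) (f p + ∑ q ∈ l.erase p, f q)` (`sum_swap`). For `f p ≠ 0`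
the inner sum is `tau p * f p + ∑ (q ∈ P.erase p, line P p q near) f q` (`sum_thru`)
`= tau p * f p + (0 - f p - ∑ (q ∈ P.erase p, line P p q not near) f q)`; in the last sum, if
`f q ≠ 0` then `q ∈ N` and `crq p q ≤ ρ^2` (`near_of`), hence `f q = f p`; so the last sum is
`om' p * f p` with `0 ≤ om p - om' p ≤ #G` (`om' p` counts the `q` with `f q ≠ 0`). So the inner sum
is `f p * (tau p - om p + (om p - om' p) - 1)`; multiply by `f p` and estimate:
`f p ^ 2 * (|tau p - om p| + #G + 1)`.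
-/

set_option autoImplicit false

namespace Pool.Agent.H89.DR

open Finset Classical

theorem lemC {P : Finset V} (hP : Conf P) {v : V} (hv : dot v v = 1) {r s ρ : ℝ}
    (hρ : 0 < ρ) (hs : 0 < s) (hr0 : 0 ≤ r) (hr : 4 * r ≤ s * ρ) (f : V → ℝ) (B : ℝ)
    (hB : ∀ p, |f p| ≤ B) (hsupp : ∀ p, f p ≠ 0 → |dot v p| ≤ r) (hsum : ∑ p ∈ P, f p = 0)
    (hsep : ∀ p ∈ P, ∀ q ∈ P, f p ≠ 0 → f q ≠ 0 → f p ≠ f q → ρ ^ 2 < crq p q) :
    ∑ l ∈ (lines P).filter (fun l => near v s l), (∑ q ∈ l, f q) ^ 2 ≤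
      B ^ 2 * ∑ p ∈ P.filter (fun p => f p ≠ 0), (|tau P v s p - om P v r s p| +
        ((P.filter fun q => |dot v q| ≤ r ∧ f q = 0).card : ℝ) + 1) := by sorry

end Pool.Agent.H89.DR
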