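import Pool.Agent.H89.DR.Alg

/-!
# Module LinA (about 120 lines): the linear space of the connecting lines

Facts about `line` and `lines` for a configuration. `det p q r = 0` is symmetric; for
independent `p`, `q` the points `t` with `det p q t = 0` are those of the plane with the normal
`w` of `exists_normal_pair`, so two distinct points `r, s` of `line P p q` (independent by `Conf`)
span the same plane: `line P r s = line P p q` (with the normal `w`: `dot w t = 0 ↔ det r s t = 0`
by `exists_normal_pair r s` and uniqueness of the normal up to sign, or by `crq_plane`, `frame`: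
if `t ⊥ w` then `det_plane`; conversely if `det r s t = 0` then `det_four r s t w w`:
`det s t w * dot r w - det r t w * dot s w + det r s w * dot t w - det r s t * dot w w = 0`, so
`det r s w * dot t w = 0` and `det r s w ^ 2 = crq r s > 0`).
-/

set_option autoImplicit false

namespace Pool.Agent.H89.DR

open Finset Classical

theorem mem_lines (P : Finset V) (l : Finset V) :
    l ∈ lines P ↔ ∃ p ∈ P, ∃ q ∈ P, p ≠ q ∧ l = line P p q := by
  unfold lines
  simp only [mem_image, mem_filter, mem_product, Prod.exists]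
  constructor
  · rintro ⟨a, b, ⟨⟨ha, hb⟩, hab⟩, h⟩
    exact ⟨a, ha, b, hb, hab, h.symm⟩
  · rintro ⟨a, ha, b, hb, hab, h⟩
    exact ⟨a, b, ⟨⟨ha, hb⟩, hab⟩, h.symm⟩

theorem lines_sub {P l : Finset V} (hl : l ∈ lines P) : l ⊆ P := by
  obtain ⟨p, _, q, _, _, rfl⟩ := (mem_lines P l).1 hl
  exact filter_subset _ _

theorem left_mem_line {P : Finset V} {p : V} (hp : p ∈ P) (q : V) : p ∈ line P p q := by
  unfold line
  exact mem_filter.2 ⟨hp, (det_self p q).2.1⟩

theorem right_mem_line {P : Finset V} {q : V} (p : V) (hq : q ∈ P) : q ∈ line P p q := by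
  unfold line
  exact mem_filter.2 ⟨hq, (det_self q p).2.2⟩

theorem line_comm (P : Finset V) (p q : V) : line P p q = line P q p := by
  unfold line
  ext t
  simp only [mem_filter]
  rw [det_swap p q t, neg_eq_zero]

theorem line_mem_lines {P : Finset V} {p q : V} (hp : p ∈ P) (hq : q ∈ P) (hpq : p ≠ q) :
    line P p q ∈ lines P := (mem_lines P _).2 ⟨p, hp, q, hq, hpq, rfl⟩

theorem two_le_card {P l : Finset V} (hl : l ∈ lines P) : 2 ≤ l.card := by
  obtain ⟨p, hp, q, hq, hpq, rfl⟩ := (mem_lines P l).1 hl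
  exact Finset.one_lt_card.2 ⟨p, left_mem_line hp q, q, right_mem_line p hq, hpq⟩

private theorem LinA_normal {P l : Finset V} (hP : Conf P) (hl : l ∈ lines P) :
    ∃ w : V, dot w w = 1 ∧ ∀ t ∈ P, t ∈ l ↔ dot w t = 0 := by
  obtain ⟨p, hp, q, hq, hpq, rfl⟩ := (mem_lines P l).1 hl
  obtain ⟨w, hw, _, _, h⟩ := exists_normal_pair p q (hP.ind p hp q hq hpq)
  refine ⟨w, hw, fun t ht => ?_⟩
  unfold line
  rw [mem_filter, h t]
  exact ⟨fun h => h.2, fun h => ⟨ht, h⟩⟩

/-- a connecting line is determined by any two of its points -/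
theorem line_unique {P l : Finset V} (hP : Conf P) (hl : l ∈ lines P) {p q : V} (hp : p ∈ l)
    (hq : q ∈ l) (hpq : p ≠ q) : l = line P p q := by
  obtain ⟨w, hw, h⟩ := LinA_normal hP hl
  have hs := lines_sub hl
  have h1 := (h p (hs hp)).1 hp
  have h2 := (h q (hs hq)).1 hq
  have h3 := hP.ind p (hs hp) q (hs hq) hpq
  have h4 := crq_plane w p q hw h1 h2
  have h5 : det w p q ≠ 0 := by
    intro h0
    rw [h4, h0] at h3
    norm_num at h3
  ext t
  unfold line
  rw [mem_filter]
  constructor
  · intro ht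
    exact ⟨hs ht, det_plane w p q t hw h1 h2 ((h t (hs ht)).1 ht)⟩
  · rintro ⟨ht, h6⟩
    rw [h t ht]
    have h7 := det_four p q t w w
    rw [dot_comm p w, dot_comm q w, h1, h2, h6, hw] at h7
    have h8 : det p q w * dot t w = 0 := by linarith
    rcases mul_eq_zero.1 h8 with h9 | h9
    · exact absurd ((det_cyc w p q).trans h9) h5
    · rw [dot_comm]; exact h9

/-- two distinct connecting lines share at most one point -/
theorem inter_le_one {P l m : Finset V} (hP : Conf P) (hl : l ∈ lines P) (hm : m ∈ lines P)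
    (hlm : l ≠ m) : (l ∩ m).card ≤ 1 := by
  by_contra h
  obtain ⟨p, hp, q, hq, hpq⟩ := Finset.one_lt_card.1 (not_le.1 h)
  rw [mem_inter] at hp hq
  exact hlm ((line_unique hP hl hp.1 hq.1 hpq).trans (line_unique hP hm hp.2 hq.2 hpq).symm)

/-- a unit normal of a connecting line -/
theorem exists_normal {P l : Finset V} (hP : Conf P) (hl : l ∈ lines P) :
    ∃ w : V, dot w w = 1 ∧ ∀ t ∈ P, t ∈ l ↔ dot w t = 0 := LinA_normal hP hl

/-- three points of a connecting line are dependent -/
theorem det_of_mem {P l : Finset V} (hP : Conf P) (hl : l ∈ lines P) {p q r : V} (hp : p ∈ l)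
    (hq : q ∈ l) (hr : r ∈ l) : det p q r = 0 := by
  obtain ⟨w, hw, h⟩ := LinA_normal hP hl
  have hs := lines_sub hl
  exact det_plane w p q r hw ((h p (hs hp)).1 hp) ((h q (hs hq)).1 hq) ((h r (hs hr)).1 hr)

/-- if `p ≠ q` are on the line `l` and `det p q r = 0` then `r ∈ l` -/
theorem mem_of_det {P l : Finset V} (hP : Conf P) (hl : l ∈ lines P) {p q r : V} (hp : p ∈ l)
    (hq : q ∈ l) (hpq : p ≠ q) (hr : r ∈ P) (h : det p q r = 0) : r ∈ l := by
  rw [line_unique hP hl hp hq hpq]
  unfold line
  exact mem_filter.2 ⟨hr, h⟩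

end Pool.Agent.H89.DR
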