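import Pool.Agent.H89.DR.LinA

/-!
# Module LinB (about 130 lines): double counting over the connecting lines

Everything follows from: for `p ∈ P` the sets `l.erase p`, `l ∈ thru P p`, are a partition of
`P.erase p` (`sum_thru`: `Finset.sum_biUnion` or `Finset.sum_fiberwise` for the map
`q ↦ line P p q`), and `sum_swap` (exchange of summation: `Finset.sum_comm'`).
-/

set_option autoImplicit false

namespace Pool.Agent.H89.DR

open Finset Classical

private theorem LinB_mem_thru (P : Finset V) (p : V) (l : Finset V) :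
    l ∈ thru P p ↔ l ∈ lines P ∧ p ∈ l := by
  unfold thru
  rw [mem_filter]

/-- exchange of summation over incident pairs -/
theorem sum_swap (P : Finset V) (G : Finset V → V → ℝ) :
    ∑ l ∈ lines P, ∑ p ∈ l, G l p = ∑ p ∈ P, ∑ l ∈ thru P p, G l p := by
  refine Finset.sum_comm' fun l p => ?_
  rw [LinB_mem_thru]
  constructor
  · rintro ⟨h1, h2⟩
    exact ⟨⟨h1, h2⟩, lines_sub h1 h2⟩
  · rintro ⟨h1, h2⟩
    exact h1

/-- the other points, sorted by the line through `p` -/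
theorem sum_thru {P : Finset V} (hP : Conf P) {p : V} (hp : p ∈ P) (G : Finset V → V → ℝ) :
    ∑ l ∈ thru P p, ∑ q ∈ l.erase p, G l q = ∑ q ∈ P.erase p, G (line P p q) q := by
  have h : ∑ l ∈ thru P p, ∑ q ∈ l.erase p, G l q =
      ∑ q ∈ P.erase p, ∑ l ∈ ({line P p q} : Finset (Finset V)), G l q := by
    refine Finset.sum_comm' fun l q => ?_
    rw [LinB_mem_thru, mem_erase, mem_erase, mem_singleton]
    constructor
    · rintro ⟨⟨h1, h2⟩, h3, h4⟩
      exact ⟨line_unique hP h1 h2 h4 (Ne.symm h3), h3, lines_sub h1 h4⟩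
    · rintro ⟨rfl, h3, h4⟩
      exact ⟨⟨line_mem_lines hp h4 (Ne.symm h3), left_mem_line hp q⟩, h3, right_mem_line p h4⟩
  rw [h]
  simp only [sum_singleton]

/-- all ordered pairs, sorted by their lines -/
theorem sum_pairs {P : Finset V} (hP : Conf P) (G : Finset V → V → V → ℝ) :
    ∑ l ∈ lines P, ∑ p ∈ l, ∑ q ∈ l.erase p, G l p q =
      ∑ p ∈ P, ∑ q ∈ P.erase p, G (line P p q) p q := by
  rw [sum_swap P (fun l p => ∑ q ∈ l.erase p, G l p q)]
  refine sum_congr rfl fun p hp => ?_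
  exact sum_thru hP hp (fun l q => G l p q)

theorem sum_deg (P : Finset V) :
    ∑ l ∈ lines P, (l.card : ℝ) = ∑ p ∈ P, (deg P p : ℝ) := by
  have h := sum_swap P (fun _ _ => 1)
  simp only [sum_const, nsmul_eq_mul, mul_one] at h
  exact h

/-- the pairs of two disjoint sets whose line has a property `J` -/
theorem sum_prod_filter {P A B : Finset V} (hP : Conf P) (hA : A ⊆ P) (hB : B ⊆ P)
    (hAB : Disjoint A B) (J : Finset V → Prop) :
    ∑ l ∈ (lines P).filter J, ((l ∩ A).card : ℝ) * (l ∩ B).card =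
      (((A ×ˢ B).filter fun x => J (line P x.1 x.2)).card : ℝ) := by
  have h : ∑ l ∈ (lines P).filter J, ∑ _x ∈ (l ∩ A) ×ˢ (l ∩ B), (1 : ℝ) =
      ∑ x ∈ (A ×ˢ B).filter (fun x => J (line P x.1 x.2)),
        ∑ _l ∈ ({line P x.1 x.2} : Finset (Finset V)), (1 : ℝ) := by
    refine Finset.sum_comm' fun l x => ?_
    rw [mem_filter, mem_product, mem_inter, mem_inter, mem_singleton, mem_filter, mem_product]
    constructor
    · rintro ⟨⟨h1, h2⟩, ⟨h3, h4⟩, h5, h6⟩
      have hne : x.1 ≠ x.2 := fun hh => Finset.disjoint_left.mp hAB h4 (hh ▸ h6)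
      have h7 : l = line P x.1 x.2 := line_unique hP h1 h3 h5 hne
      exact ⟨h7, ⟨h4, h6⟩, h7 ▸ h2⟩
    · rintro ⟨rfl, ⟨h4, h6⟩, h7⟩
      have hne : x.1 ≠ x.2 := fun hh => Finset.disjoint_left.mp hAB h4 (hh ▸ h6)
      exact ⟨⟨line_mem_lines (hA h4) (hB h6) hne, h7⟩,
        ⟨left_mem_line (hA h4) _, h4⟩, right_mem_line _ (hB h6), h6⟩
  simp only [sum_const, nsmul_eq_mul, mul_one, card_singleton, Nat.cast_one, card_product,
    Nat.cast_mul] at h
  exact h

/-- the pairs of two disjoint sets, sorted by their lines -/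
theorem sum_prod {P A B : Finset V} (hP : Conf P) (hA : A ⊆ P) (hB : B ⊆ P)
    (hAB : Disjoint A B) :
    ∑ l ∈ lines P, ((l ∩ A).card : ℝ) * (l ∩ B).card = (A.card : ℝ) * B.card := by
  have h := sum_prod_filter hP hA hB hAB (fun _ => True)
  rw [filter_true, filter_true, card_product, Nat.cast_mul] at h
  exact h

theorem deg_le {P : Finset V} (hP : Conf P) {p : V} (hp : p ∈ P) :
    (deg P p : ℝ) ≤ (P.card : ℝ) - 1 := by
  have h1 : thru P p ⊆ (P.erase p).image fun q => line P p q := by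
    intro l hl
    rw [LinB_mem_thru] at hl
    obtain ⟨hl1, hl2⟩ := hl
    have h2 := two_le_card hl1
    obtain ⟨q, hq, hqp⟩ := Finset.exists_mem_ne (s := l) (by omega) p
    rw [mem_image]
    exact ⟨q, mem_erase.mpr ⟨hqp, lines_sub hl1 hq⟩, (line_unique hP hl1 hl2 hq (Ne.symm hqp)).symm⟩
  have h3 : deg P p ≤ P.card - 1 := by
    have h4 := (card_le_card h1).trans card_image_le
    rw [card_erase_of_mem hp] at h4
    exact h4
  have h5 : 1 ≤ P.card := card_pos.mpr ⟨p, hp⟩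
  calc (deg P p : ℝ) ≤ ((P.card - 1 : ℕ) : ℝ) := by exact_mod_cast h3
    _ = (P.card : ℝ) - 1 := by rw [Nat.cast_sub h5, Nat.cast_one]

theorem sum_card_sq {P : Finset V} (hP : Conf P) :
    ∑ l ∈ lines P, (l.card : ℝ) ^ 2 =
      (P.card : ℝ) * ((P.card : ℝ) - 1) + ∑ p ∈ P, (deg P p : ℝ) := by
  have h := sum_pairs hP (fun _ _ _ => 1)
  have hP1 : ∑ p ∈ P, ∑ _q ∈ P.erase p, (1 : ℝ) = (P.card : ℝ) * ((P.card : ℝ) - 1) := by
    have : ∀ p ∈ P, ∑ _q ∈ P.erase p, (1 : ℝ) = (P.card : ℝ) - 1 := by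
      intro p hp
      rw [sum_const, nsmul_eq_mul, mul_one, card_erase_of_mem hp,
        Nat.cast_sub (card_pos.mpr ⟨p, hp⟩), Nat.cast_one]
    rw [sum_congr rfl this, sum_const, nsmul_eq_mul]
  have hL1 : ∀ l ∈ lines P, ∑ p ∈ l, ∑ _q ∈ l.erase p, (1 : ℝ) = (l.card : ℝ) ^ 2 - l.card := by
    intro l _
    have : ∀ p ∈ l, ∑ _q ∈ l.erase p, (1 : ℝ) = (l.card : ℝ) - 1 := by
      intro p hp
      rw [sum_const, nsmul_eq_mul, mul_one, card_erase_of_mem hp,
        Nat.cast_sub (card_pos.mpr ⟨p, hp⟩), Nat.cast_one]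
    rw [sum_congr rfl this, sum_const, nsmul_eq_mul]
    ring
  rw [sum_congr rfl hL1, sum_sub_distrib, hP1, sum_deg] at h
  linarith

theorem sum_card_sq_le {P : Finset V} (hP : Conf P) :
    ∑ l ∈ lines P, (l.card : ℝ) ^ 2 ≤ 2 * (P.card : ℝ) ^ 2 := by
  rw [sum_card_sq hP]
  have h1 : ∑ p ∈ P, (deg P p : ℝ) ≤ ∑ _p ∈ P, ((P.card : ℝ) - 1) :=
    sum_le_sum fun p hp => deg_le hP hp
  rw [sum_const, nsmul_eq_mul] at h1
  have h2 : (0 : ℝ) ≤ P.card := Nat.cast_nonneg _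
  nlinarith

theorem card_lines_le {P : Finset V} (hP : Conf P) :
    ((lines P).card : ℝ) ≤ (P.card : ℝ) ^ 2 := by
  have h : (lines P).card ≤ P.card * P.card := by
    unfold lines
    refine card_image_le.trans ((card_filter_le _ _).trans ?_)
    rw [card_product]
  calc ((lines P).card : ℝ) ≤ ((P.card * P.card : ℕ) : ℝ) := by exact_mod_cast h
    _ = (P.card : ℝ) ^ 2 := by push_cast; ring

/-- the lines meeting a set `A` -/
theorem card_meet_le {P A : Finset V} (hA : A ⊆ P) (T : ℝ) (hT : ∀ p ∈ A, (deg P p : ℝ) ≤ T) :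
    ((((lines P).filter fun l => (l ∩ A).Nonempty).card : ℕ) : ℝ) ≤ (A.card : ℝ) * T := by
  have h1 : ((lines P).filter fun l => (l ∩ A).Nonempty) ⊆ A.biUnion fun p => thru P p := by
    intro l hl
    rw [mem_filter] at hl
    obtain ⟨hl1, p, hp⟩ := hl
    rw [mem_inter] at hp
    rw [mem_biUnion]
    exact ⟨p, hp.2, (LinB_mem_thru P p l).mpr ⟨hl1, hp.1⟩⟩
  have h2 : ((lines P).filter fun l => (l ∩ A).Nonempty).card ≤ ∑ p ∈ A, deg P p :=
    (card_le_card h1).trans card_biUnion_le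
  calc ((((lines P).filter fun l => (l ∩ A).Nonempty).card : ℕ) : ℝ)
      ≤ ((∑ p ∈ A, deg P p : ℕ) : ℝ) := by exact_mod_cast h2
    _ = ∑ p ∈ A, (deg P p : ℝ) := by push_cast; rfl
    _ ≤ ∑ _p ∈ A, T := sum_le_sum hT
    _ = (A.card : ℝ) * T := by rw [sum_const, nsmul_eq_mul]

end Pool.Agent.H89.DR
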