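import Pool.Agent.H89.DR.JR

/-!
# Module NearP (about 100 lines): lines near a plane

Setting: `v` a unit vector, `0 < ρ`, `0 < s`, `4 r ≤ s ρ`.

* `near_of`: let `w` be a unit normal of the line. By `near_comp`: `(1 - (v.w)^2) crq p q =
  x^2 - 2 (p.q) x y + y^2 ≤ (|x| + |y|)^2 ≤ 4 r^2` (`|p.q| ≤ 1` by `dot_sq_le`), so
  `1 - (v.w)^2 ≤ 4 r^2 / ρ^2 ≤ s^2 / 4`. Replace `w` by `-w` if `v.w < 0`; then
  `|v - w|^2 = 2 - 2 v.w ≤ 2 (1 - (v.w)^2) ≤ s^2 / 2` because `0 ≤ v.w ≤ 1` gives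
  `1 - v.w ≤ 1 - (v.w)^2`.
* `near_abs`: `v.q = (v - w).q`, Cauchy-Schwarz.
* `near_det`: `det v p q - det w p q = det (v - w) p q`, `det_sq_le` and `crq p q ≤ 1` (`crq_eq`).
-/

set_option autoImplicit false

namespace Pool.Agent.H89.DR

open Finset Classical

theorem near_of {P l : Finset V} (hP : Conf P) (hl : l ∈ lines P) {v : V} (hv : dot v v = 1)
    {r s ρ : ℝ} (hρ : 0 < ρ) (hs : 0 < s) (hr0 : 0 ≤ r) (hr : 4 * r ≤ s * ρ) {p q : V}
    (hp : p ∈ l) (hq : q ∈ l) (hvp : |dot v p| ≤ r) (hvq : |dot v q| ≤ r)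
    (hpq : ρ ^ 2 < crq p q) : near v s l := by sorry

theorem near_abs {P l : Finset V} (hP : Conf P) (hl : l ∈ lines P) {v : V} {s : ℝ}
    (hs : 0 < s) (hn : near v s l) {q : V} (hq : q ∈ l) : |dot v q| ≤ s := by sorry

theorem near_det {v w p q : V} {s : ℝ} (hs : 0 < s) (hp : dot p p = 1) (hq : dot q q = 1)
    (h : dot (v - w) (v - w) ≤ s ^ 2) : |det v p q - det w p q| ≤ s := by sorry

/-- for nearly parallel unit vectors -/
theorem abs_det_le {v p q : V} {ρ : ℝ} (hρ : 0 ≤ ρ) (hv : dot v v = 1) (h : crq p q ≤ ρ ^ 2) :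
    |det v p q| ≤ ρ := by sorry

end Pool.Agent.H89.DR
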